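import Pool.Agent.MP_9fca84_an.H66.Hopf

/-!
The conjectured estimate of the Hopf invariant by the gap potential.
-/

namespace Pool.Agent.MP_9fca84_an.H66

/-- The estimate of the Hopf invariant of maps from the sphere of dimension `2 n - 1` to the sphere
of dimension `n` by the gap potential with gap `ε`. -/
def Bound (n : ℕ) (ε : ℝ) : Prop :=
  ∃ C : ℝ, ∀ (f : SMap (n + n) (n + 1)) (k : ℤ), IsHopf f k →
    |(k : ℝ)| ≤ C * (gap ε f).toReal ^ (1 + 1 / (2 * (n : ℝ) - 1))

end Pool.Agent.MP_9fca84_an.H66
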