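import Pool.Agent.MP_9fca84_an.H66.Simplex

/-!
Every homotopy class of maps into a sphere has representatives with arbitrarily small gap
potential once the gap exceeds the edge of the inscribed regular simplex.
-/

open scoped RealInnerProductSpace ENNReal Topology
open MeasureTheory Set Filter Metric

noncomputable section

namespace Pool.Agent.MP_9fca84_an.H66

variable {X : Type*} [MetricSpace X] [CompactSpace X] [MeasurableSpace X] [BorelSpace X]

omit [CompactSpace X] in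
lemma tie_small (μ : Measure X) [IsFiniteMeasure μ] {ι : Type*} [Fintype ι] {s : X → ι → ℝ}
    (hs : Continuous s) (h0 : ∀ i j, i ≠ j → μ {y | s y i = s y j} = 0) :
    Tendsto (fun m : ℕ => μ {y | ∃ i j, i ≠ j ∧ |s y i - s y j| < 1 / (m + 1)}) atTop (𝓝 0) := by
  have h1 : ∀ i j, i ≠ j →
      Tendsto (fun m : ℕ => μ {y | |s y i - s y j| < 1 / (m + 1)}) atTop (𝓝 0) := by
    intro i j hij
    have := tendsto_measure_iInter_atTop (μ := μ)
      (s := fun m : ℕ => {y | |s y i - s y j| < 1 / (m + 1)})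
      (fun m => (isOpen_lt (by fun_prop) continuous_const).measurableSet.nullMeasurableSet)
      (fun a b hab y hy => show |s y i - s y j| < 1 / (a + 1) from
        lt_of_lt_of_le hy (Nat.one_div_le_one_div hab))
      ⟨0, measure_ne_top _ _⟩
    rwa [measure_mono_null (fun y hy => ?_) (h0 i j hij)] at this
    by_contra hc
    obtain ⟨m, hm⟩ := exists_nat_one_div_lt (abs_pos.2 (sub_ne_zero.2 hc))
    exact (mem_iInter.1 hy m).not_gt hm
  classical
  have h2 := tendsto_finsetSum (Finset.univ.filter fun p : ι × ι => p.1 ≠ p.2)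
    fun p hp => h1 p.1 p.2 (Finset.mem_filter.1 hp).2
  rw [Finset.sum_const_zero] at h2
  refine tendsto_of_tendsto_of_tendsto_of_le_of_le tendsto_const_nhds h2 (fun _ => zero_le)
    fun m => le_trans (measure_mono ?_) (measure_biUnion_finset_le _ _)
  rintro y ⟨i, j, hij, hy⟩
  exact mem_biUnion (x := (i, j)) (by simpa using hij) hy

lemma step (μ : Measure X) [IsFiniteMeasure μ] (K : X × X → ℝ≥0∞)
    (hK : ∀ d > 0, ∃ C ≠ ⊤, ∀ p : X × X, d ≤ dist p.1 p.2 → K p ≤ C)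
    {ι : Type*} [Fintype ι] {s : X → ι → ℝ} (hs : Continuous s)
    (h0 : ∀ i j, i ≠ j → μ {y | s y i = s y j} = 0) {η : ℝ≥0∞} (hη : 0 < η) (R : ℝ) :
    ∃ r, 0 < R → 0 < r ∧ r ≤ R / 4 ∧
      ∫⁻ p in {p : X × X | ((∃ i j, i ≠ j ∧ |s p.1 i - s p.1 j| < r) ∨
        ∃ i j, i ≠ j ∧ |s p.2 i - s p.2 j| < r) ∧
        ∃ i j, R / 4 < (s p.1 i - s p.1 j) - (s p.2 i - s p.2 j)}, K p ∂(μ.prod μ) ≤ η := by
  by_cases hR : 0 < R
  swap
  · exact ⟨0, fun h => absurd h hR⟩
  obtain ⟨d, hd, hd'⟩ := Metric.uniformContinuous_iff.1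
    (CompactSpace.uniformContinuous_of_continuous hs) (R / 8) (by positivity)
  obtain ⟨C, hC, hKC⟩ := hK d hd
  have h1 := tie_small μ hs h0
  have h2 := ENNReal.Tendsto.const_mul (a := C) ((ENNReal.Tendsto.mul_const (b := μ univ) h1
    (Or.inr (measure_ne_top _ _))).add (ENNReal.Tendsto.const_mul (a := μ univ) h1
    (Or.inr (measure_ne_top _ _)))) (Or.inr hC)
  simp only [zero_mul, mul_zero, add_zero] at h2
  obtain ⟨m, hm, hm'⟩ := ((h2.eventually (ge_mem_nhds hη)).and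
    (tendsto_one_div_add_atTop_nhds_zero_nat.eventually
      (ge_mem_nhds (show 0 < R / 4 by positivity)))).exists
  refine ⟨1 / (m + 1), fun _ => ⟨by positivity, hm', le_trans ?_ hm⟩⟩
  obtain ⟨A, hA⟩ : ∃ A, A = {y | ∃ i j, i ≠ j ∧ |s y i - s y j| < 1 / (m + 1)} := ⟨_, rfl⟩
  have hAm : MeasurableSet A := by
    simp only [hA, ofPred_exists]
    refine MeasurableSet.iUnion fun i => MeasurableSet.iUnion fun j => ?_
    exact (MeasurableSet.const _).inter (isOpen_lt (f := fun y => |s y i - s y j|) (by fun_prop)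
      continuous_const).measurableSet
  rw [← hA]
  have hm : MeasurableSet ((A ×ˢ univ ∪ univ ×ˢ A) ∩ {p : X × X | d ≤ dist p.1 p.2}) :=
    ((hAm.prod .univ).union (MeasurableSet.univ.prod hAm)).inter
      (isClosed_le continuous_const continuous_dist).measurableSet
  refine (lintegral_mono_set (t := (A ×ˢ univ ∪ univ ×ˢ A) ∩ {p | d ≤ dist p.1 p.2}) ?_).trans ?_
  · rintro p ⟨hp, i, j, hij⟩
    refine ⟨by simpa [hA] using hp, ?_⟩
    by_contra hc
    have h3 := hd' (not_le.1 hc)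
    have h4 := (dist_le_pi_dist _ _ i).trans_lt h3
    have h5 := (dist_le_pi_dist _ _ j).trans_lt h3
    rw [Real.dist_eq, abs_lt] at h4 h5
    linarith [h4.2, h5.1]
  refine (setLIntegral_mono' hm fun p hp => hKC p hp.2).trans ?_
  rw [setLIntegral_const]
  gcongr
  refine (measure_mono inter_subset_left).trans ((measure_union_le _ _).trans (le_of_eq ?_))
  rw [Measure.prod_prod, Measure.prod_prod]

/-- Radial projection of a nowhere vanishing map. -/
def nrm {Y E : Type*} [TopologicalSpace Y] [NormedAddCommGroup E] [NormedSpace ℝ E] (G : Y → E)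
    (hG : Continuous G) (h0 : ∀ y, G y ≠ 0) : C(Y, sphere (0 : E) 1) where
  toFun y := ⟨‖G y‖⁻¹ • G y, by simp [norm_smul, h0 y]⟩
  continuous_toFun := ((hG.norm.inv₀ fun y => norm_ne_zero_iff.2 (h0 y)).smul hG).subtype_mk _

lemma nrm_homotopic {Y E : Type*} [TopologicalSpace Y] [NormedAddCommGroup E]
    [InnerProductSpace ℝ E] (h : C(Y, sphere (0 : E) 1)) (G : Y → E) (hG : Continuous G)
    (h0 : ∀ y, G y ≠ 0) (hp : ∀ y, 0 < ⟪(h y : E), G y⟫) : (nrm G hG h0).Homotopic h := by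
  have key : ∀ q : unitInterval × Y, (1 - (q.1 : ℝ)) • G q.2 + (q.1 : ℝ) • (h q.2 : E) ≠ 0 := by
    intro q hq
    have h1 := congrArg (fun x => ⟪(h q.2 : E), x⟫) hq
    simp only [inner_add_right, real_inner_smul_right, inner_zero_right,
      real_inner_self_eq_norm_sq, norm_eq_of_mem_sphere] at h1
    have h2 := hp q.2
    have h3 := q.1.2.1
    have h4 := q.1.2.2
    have h5 := mul_nonneg (sub_nonneg.2 h4) h2.le
    have h6 : (q.1 : ℝ) = 0 := by linarith
    rw [h6] at h1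
    linarith
  exact ⟨⟨nrm (fun q : unitInterval × Y => (1 - (q.1 : ℝ)) • G q.2 + (q.1 : ℝ) • (h q.2 : E))
    (by fun_prop) key, fun y => Subtype.ext (by simp [nrm]), fun y => Subtype.ext (by simp [nrm])⟩⟩

theorem collapse (μ : Measure X) [IsFiniteMeasure μ] (K : X × X → ℝ≥0∞)
    (hK : ∀ d > 0, ∃ C ≠ ⊤, ∀ p : X × X, d ≤ dist p.1 p.2 → K p ≤ C) (n : ℕ)
    (h : C(X, sphere (0 : EuclideanSpace ℝ (Fin (n + 1))) 1)) {ε : ℝ}
    (hε : √(2 + 2 / (n + 1)) < ε) {η : ℝ≥0∞} (hη : 0 < η) :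
    ∃ f : C(X, sphere (0 : EuclideanSpace ℝ (Fin (n + 1))) 1), f.Homotopic h ∧
      ∫⁻ p in {p : X × X | ε ≤ dist (f p.1) (f p.2)}, K p ∂(μ.prod μ) ≤ η := by
  obtain ⟨v, hv, hspan⟩ := exists_simplex n
  obtain ⟨N, hN⟩ : ∃ N, N = Fintype.card (Option (Fin (n + 1))) := ⟨_, rfl⟩
  have hN2 : (N : ℝ) = n + 2 := by rw [hN]; simp; ring
  have hN0 : (0 : ℝ) < N := by rw [hN2]; positivity
  obtain ⟨c, hc, hc'⟩ : ∃ c > 0, ∀ y, ∃ i, c ≤ ⟪(h y : EuclideanSpace ℝ (Fin (n + 1))), v i⟫ := by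
    obtain ⟨c, hc, hc'⟩ := isCompact_univ.exists_forall_le' (a := 0)
      (f := fun y => ∑ i, max ⟪(h y : EuclideanSpace ℝ (Fin (n + 1))), v i⟫ 0) (by fun_prop)
      fun y _ => by
        obtain ⟨i, hi⟩ := hspan (h y) (ne_zero_of_mem_unit_sphere _)
        exact Finset.sum_pos' (fun _ _ => by positivity) ⟨i, Finset.mem_univ _, lt_max_of_lt_left hi⟩
    refine ⟨c / N, by positivity, fun y => ?_⟩
    obtain ⟨i, -, hi⟩ := Finset.exists_le_of_sum_le (f := fun _ => c / N) Finset.univ_nonempty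
      (le_trans (by rw [Finset.sum_const, Finset.card_univ, ← hN, nsmul_eq_mul]; field_simp; rfl)
        (hc' y (mem_univ y)))
    exact ⟨i, (le_max_iff.1 hi).resolve_right (not_le.2 (by positivity))⟩
  let e := Fintype.equivFin (Option (Fin (n + 1)))
  let g : Option (Fin (n + 1)) → Option (Fin (n + 1)) → X → ℝ := fun i j y =>
    (⟪(h y : EuclideanSpace ℝ (Fin (n + 1))), v i⟫ - ⟪(h y : EuclideanSpace ℝ (Fin (n + 1))), v j⟫) /
      ((e j : ℕ) - (e i : ℕ))
  have hcount : (⋃ i, ⋃ j, {t | 0 < μ {y | g i j y = t}}).Countable :=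
    countable_iUnion fun i => countable_iUnion fun j =>
      Measure.countable_meas_level_set_pos (by fun_prop : Continuous (g i j)).measurable
  obtain ⟨t, ht, ht0, ht1⟩ := (hcount.dense_compl ℝ).exists_mem_open (U := Ioo 0 (c / 2 / N))
    isOpen_Ioo (nonempty_Ioo.2 (by positivity))
  let s : X → Option (Fin (n + 1)) → ℝ := fun y i =>
    ⟪(h y : EuclideanSpace ℝ (Fin (n + 1))), v i⟫ + t * (e i : ℕ)
  have hs : Continuous s := by fun_prop
  have h0 : ∀ i j, i ≠ j → μ {y | s y i = s y j} = 0 := by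
    intro i j hij
    have h1 : μ {y | g i j y = t} = 0 := by
      by_contra h1
      exact ht (mem_iUnion₂.2 ⟨i, j, pos_iff_ne_zero.2 h1⟩)
    refine measure_mono_null (fun y hy => ?_) h1
    have h2 : ((e j : ℕ) : ℝ) - (e i : ℕ) ≠ 0 := by
      rw [sub_ne_zero, Ne, Nat.cast_inj, Fin.val_inj, e.apply_eq_iff_eq]
      exact hij.symm
    have h3 : s y i = s y j := hy
    simp only [s] at h3
    simp only [mem_ofPred, g]
    rw [div_eq_iff h2]
    linarith
  choose ρ hρ using step μ K hK hs h0 (η := η / N)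
    (ENNReal.div_pos hη.ne' (ENNReal.natCast_ne_top N))
  have hpos : ∀ j, 0 < ρ^[j] (c / 2) ∧ ρ^[j] (c / 2) ≤ c / 2 := by
    intro j
    induction j with
    | zero => exact ⟨half_pos hc, le_rfl⟩
    | succ j ih =>
      rw [Function.iterate_succ_apply']
      exact ⟨(hρ _ ih.1).1, by linarith [(hρ _ ih.1).2.1, ih.1, ih.2]⟩
  let δ : ℕ → ℝ := fun k => ρ^[N - k] (c / 2)
  have hδ : ∀ k, 0 < δ k := fun k => (hpos _).1
  have hδρ : ∀ k < N, δ k = ρ (δ (k + 1)) := fun k hk => by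
    simp only [δ]
    rw [show N - k = (N - (k + 1)) + 1 by omega, Function.iterate_succ_apply']
  have hδ' : ∀ k < Fintype.card (Option (Fin (n + 1))), δ k ≤ δ (k + 1) / 4 := fun k hk => by
    rw [hδρ k (hN ▸ hk)]
    exact (hρ _ (hδ _)).2.1
  have hp : ∀ y, 0 < ⟪(h y : EuclideanSpace ℝ (Fin (n + 1))), sel δ v (s y)⟫ := fun y => by
    refine inner_sel_pos hδ fun σ hσ i hi => ?_
    obtain ⟨l, hl⟩ := hc' y
    have h1 := wt_in hσ hi l
    have h2 : δ σ.card ≤ c / 2 := (hpos _).2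
    have h3 : ((e i : ℕ) : ℝ) ≤ N := by
      rw [hN]
      exact_mod_cast (e i).2.le
    have h4 : t * N < c / 2 := (lt_div_iff₀ hN0).1 ht1
    have h5 : 0 ≤ t * (e l : ℕ) := by positivity
    have h6 := mul_le_mul_of_nonneg_left h3 ht0.le
    simp only [s] at h1
    linarith
  have hne : ∀ y, sel δ v (s y) ≠ 0 := fun y h => by simpa [h] using hp y
  refine ⟨_, nrm_homotopic h _ ((continuous_sel δ v).comp hs) hne hp, ?_⟩
  refine (lintegral_mono_set (t := ⋃ k ∈ Finset.range N,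
    {p : X × X | ((∃ i j, i ≠ j ∧ |s p.1 i - s p.1 j| < δ k) ∨
        ∃ i j, i ≠ j ∧ |s p.2 i - s p.2 j| < δ k) ∧
        ∃ i j, δ (k + 1) / 4 < (s p.1 i - s p.1 j) - (s p.2 i - s p.2 j)}) ?_).trans ?_
  · intro p hp
    rcases dichotomy hv (by rw [← hN, hN2]; field_simp; ring) (by positivity) hδ hδ'
      (s p.1) (s p.2) with h1 | ⟨k, hk, h1⟩
    · exfalso
      have h2 : ε ≤ ‖‖sel δ v (s p.1)‖⁻¹ • sel δ v (s p.1) - ‖sel δ v (s p.2)‖⁻¹ • sel δ v (s p.2)‖ :=
        by simpa [nrm, Subtype.dist_eq, dist_eq_norm] using hp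
      have n1 := norm_pos_iff.2 (hne p.1)
      have n2 := norm_pos_iff.2 (hne p.2)
      refine (hε.trans_le h2).not_ge (Real.le_sqrt_of_sq_le ?_)
      rw [norm_sub_sq_real, norm_smul, norm_smul, real_inner_smul_left, real_inner_smul_right,
        norm_inv, norm_inv, norm_norm, norm_norm, inv_mul_cancel₀ n1.ne', inv_mul_cancel₀ n2.ne']
      have h3 := mul_le_mul_of_nonneg_left h1
        (show 0 ≤ ‖sel δ v (s p.1)‖⁻¹ * ‖sel δ v (s p.2)‖⁻¹ by positivity)
      have h4 : ‖sel δ v (s p.1)‖⁻¹ * ‖sel δ v (s p.2)‖⁻¹ *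
          (-(1 / ((n : ℝ) + 1)) * (‖sel δ v (s p.1)‖ * ‖sel δ v (s p.2)‖)) =
          -(1 / ((n : ℝ) + 1)) := by field_simp
      rw [h4, mul_assoc] at h3
      have h5 : 2 / ((n : ℝ) + 1) = 2 * (1 / (n + 1)) := by ring
      linarith
    · exact mem_biUnion (Finset.mem_range.2 (hN ▸ hk)) h1
  · rw [show (⋃ k ∈ Finset.range N, _) = ⋃ k : Fin N, _ from by
      rw [← Finset.set_biUnion_coe, Finset.coe_range, biUnion_eq_iUnion]
      exact (Fin.equivSubtype.surjective.iUnion_comp _).symm]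
    refine (lintegral_iUnion_le _ _).trans ?_
    rw [tsum_fintype]
    refine (Finset.sum_le_sum (g := fun _ => η / N) fun k _ => ?_).trans ?_
    · have := (hρ _ (hδ (k + 1))).2.2
      rwa [← hδρ k k.2] at this
    · rw [Finset.sum_const, Finset.card_univ, Fintype.card_fin, nsmul_eq_mul]
      exact ENNReal.mul_div_le

end Pool.Agent.MP_9fca84_an.H66
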