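import Mathlib

/-!
Smoothness of integrals over a compact parameter set, and small measure theoretic lemmas.
-/

open scoped ContDiff ENNReal Topology
open MeasureTheory Set Filter

noncomputable section

namespace Pool.Agent.MP_9fca84_an.H66

section Param

variable {X Q : Type} [NormedAddCommGroup X] [NormedSpace ℝ X] [FiniteDimensional ℝ X]
  [NormedAddCommGroup Q] [NormedSpace ℝ Q] [MeasurableSpace Q] [BorelSpace Q]
  {μ : Measure Q} [IsFiniteMeasureOnCompacts μ] {T : Set Q} {U : Set X}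

omit [FiniteDimensional ℝ X] [MeasurableSpace Q] [BorelSpace Q] in
lemma slice_hasFDerivAt {F : Type} [NormedAddCommGroup F] [NormedSpace ℝ F] {f : X × Q → F}
    {x : X} {q : Q} (hf : ContDiffAt ℝ ∞ f (x, q)) :
    HasFDerivAt (fun z => f (z, q)) (fderiv ℝ f (x, q) ∘L ContinuousLinearMap.inl ℝ X Q) x :=
  (hf.differentiableAt (by simp)).hasFDerivAt.comp x (hasFDerivAt_prodMk_left x q)

omit [FiniteDimensional ℝ X] [MeasurableSpace Q] [BorelSpace Q] in
lemma slice_contDiffAt {F : Type} [NormedAddCommGroup F] [NormedSpace ℝ F] {f : X × Q → F}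
    {z : X × Q} (hf : ContDiffAt ℝ ∞ f z) :
    ContDiffAt ℝ ∞ (fun w => fderiv ℝ f w ∘L ContinuousLinearMap.inl ℝ X Q) z :=
  (hf.fderiv_right (m := ∞) (by simp)).clm_comp contDiffAt_const

omit [FiniteDimensional ℝ X] in
lemma slice_integrableOn {F : Type} [NormedAddCommGroup F] [NormedSpace ℝ F] (hT : IsCompact T)
    {f : X × Q → F} {x : X} (hf : ∀ q ∈ T, ContDiffAt ℝ ∞ f (x, q)) :
    IntegrableOn (fun q => f (x, q)) T μ := by
  refine ContinuousOn.integrableOn_compact hT fun q hq => ?_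
  exact ((hf q hq).continuousAt.comp (f := fun q => (x, q)) (by fun_prop)).continuousWithinAt

lemma param_deriv {F : Type} [NormedAddCommGroup F] [NormedSpace ℝ F] (hT : IsCompact T)
    (hU : IsOpen U) {f : X × Q → F} (hf : ∀ x ∈ U, ∀ q ∈ T, ContDiffAt ℝ ∞ f (x, q))
    {x₀ : X} (hx : x₀ ∈ U) :
    HasFDerivAt (fun x => ∫ q in T, f (x, q) ∂μ)
      (∫ q in T, fderiv ℝ f (x₀, q) ∘L ContinuousLinearMap.inl ℝ X Q ∂μ) x₀ := by
  obtain ⟨ε, hε, hball⟩ := Metric.nhds_basis_closedBall.mem_iff.1 (hU.mem_nhds hx)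
  have hK : IsCompact (Metric.closedBall x₀ ε ×ˢ T) := (isCompact_closedBall x₀ ε).prod hT
  have hc : ContinuousOn (fun w => fderiv ℝ f w ∘L ContinuousLinearMap.inl ℝ X Q)
      (Metric.closedBall x₀ ε ×ˢ T) := fun w hw =>
    (slice_contDiffAt (hf w.1 (hball hw.1) w.2 hw.2)).continuousAt.continuousWithinAt
  obtain ⟨C, hC⟩ := hK.exists_bound_of_continuousOn hc
  have hTm : MeasurableSet T := hT.measurableSet
  refine hasFDerivAt_integral_of_dominated_of_fderiv_le (s := Metric.closedBall x₀ ε)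
    (F' := fun x q => fderiv ℝ f (x, q) ∘L ContinuousLinearMap.inl ℝ X Q) (bound := fun _ => C)
    (Metric.closedBall_mem_nhds x₀ hε) ?_ ?_ ?_ ?_ ?_ ?_
  · filter_upwards [hU.mem_nhds hx] with x hxU
    exact (slice_integrableOn hT (hf x hxU)).aestronglyMeasurable
  · exact slice_integrableOn hT (hf x₀ hx)
  · exact (slice_integrableOn (μ := μ) hT
      (f := fun w => fderiv ℝ f w ∘L ContinuousLinearMap.inl ℝ X Q)
      fun q hq => slice_contDiffAt (hf x₀ hx q hq)).aestronglyMeasurable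
  · filter_upwards [ae_restrict_mem hTm] with q hq x hxb
    exact hC (x, q) ⟨hxb, hq⟩
  · exact integrableOn_const hT.measure_lt_top.ne
  · filter_upwards [ae_restrict_mem hTm] with q hq x hxb
    exact slice_hasFDerivAt (hf x (hball hxb) q hq)

lemma param_smooth_nat (hT : IsCompact T) (hU : IsOpen U) (k : ℕ) :
    ∀ (F : Type) [NormedAddCommGroup F] [NormedSpace ℝ F] (f : X × Q → F),
      (∀ x ∈ U, ∀ q ∈ T, ContDiffAt ℝ ∞ f (x, q)) →
      ContDiffOn ℝ k (fun x => ∫ q in T, f (x, q) ∂μ) U := by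
  induction k with
  | zero =>
    intro F _ _ f hf
    simp only [CharP.cast_eq_zero, contDiffOn_zero]
    exact fun x hx => (param_deriv hT hU hf hx).continuousAt.continuousWithinAt
  | succ k ih =>
    intro F _ _ f hf
    have h1 : ((k + 1 : ℕ) : WithTop ℕ∞) = (k : WithTop ℕ∞) + 1 := by push_cast; rfl
    rw [h1, contDiffOn_succ_iff_fderiv_of_isOpen hU]
    refine ⟨fun x hx => (param_deriv hT hU hf hx).differentiableAt.differentiableWithinAt,
      by simp, ?_⟩
    refine (ih _ (fun w => fderiv ℝ f w ∘L ContinuousLinearMap.inl ℝ X Q)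
      fun x hx q hq => slice_contDiffAt (hf x hx q hq)).congr fun x hx => ?_
    exact (param_deriv hT hU hf hx).fderiv

lemma param_smooth {F : Type} [NormedAddCommGroup F] [NormedSpace ℝ F] (hT : IsCompact T)
    (hU : IsOpen U) {f : X × Q → F} (hf : ∀ x ∈ U, ∀ q ∈ T, ContDiffAt ℝ ∞ f (x, q)) :
    ContDiffOn ℝ ∞ (fun x => ∫ q in T, f (x, q) ∂μ) U :=
  contDiffOn_infty.2 fun k => param_smooth_nat hT hU k F f hf

end Param

lemma lintegral_affine {n : ℕ} {h : EuclideanSpace ℝ (Fin n) → ℝ≥0∞} (hh : Measurable h)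
    (a : EuclideanSpace ℝ (Fin n)) {r : ℝ} (hr : r ≠ 0) :
    ∫⁻ x, h (a + r • x) = ENNReal.ofReal (|r| ^ n)⁻¹ * ∫⁻ x, h x := by
  have h1 : ∫⁻ x, h (a + r • x) = ∫⁻ x, h (a + x) ∂(Measure.map (r • ·) volume) := by
    rw [lintegral_map (f := fun x => h (a + x)) (hh.comp (measurable_const_add a))
      (measurable_const_smul r)]
  rw [h1, Measure.map_addHaar_smul volume hr, lintegral_smul_measure,
    lintegral_add_left_eq_self h a]
  simp [abs_inv, abs_pow]

end Pool.Agent.MP_9fca84_an.H66
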