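import Pool.Agent.MP_9fca84_an.H66.Wedge
import Pool.Agent.MP_9fca84_an.H66.Param

/-!
Averaged cone operators that push compactly supported forms towards the centre of the ball.
-/

open scoped ContDiff ENNReal Topology
open MeasureTheory Set Filter Metric ContinuousAlternatingMap

noncomputable section

namespace Pool.Agent.MP_9fca84_an.H66

variable {n p : ℕ}

/-- The image of `x` under the homothety with centre `y` and ratio `τ`. -/
def cc (x : E n) (τ : ℝ) (y : E n) : E n := y + τ • (x - y)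

/-- Contraction as a continuous bilinear map. -/
def cur (n p : ℕ) : Fm n (p + 1) →L[ℝ] E n →L[ℝ] Fm n p :=
  (curryLeftLI (𝕜 := ℝ) (E := E n) (F := ℝ) (n := p)).toContinuousLinearMap

@[simp] lemma cur_apply (α : Fm n (p + 1)) : cur n p α = α.curryLeft := rfl

section
variable {X F G : Type} [NormedAddCommGroup X] [NormedSpace ℝ X] [NormedAddCommGroup F]
  [NormedSpace ℝ F] [NormedAddCommGroup G] [NormedSpace ℝ G]

lemma bil_hasFDerivAt (L : F →L[ℝ] E n →L[ℝ] G) {f : X → F} {g : X → E n} {x : X}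
    {f' : X →L[ℝ] F} {g' : X →L[ℝ] E n} (hf : HasFDerivAt f f' x) (hg : HasFDerivAt g g' x) :
    HasFDerivAt (fun z => L (f z) (g z)) (L (f x) ∘L g' + L.flip (g x) ∘L f') x := by
  exact (L.hasFDerivAt.comp x hf).clm_apply hg

lemma clm_integral {α : Type} [MeasurableSpace α] {μ : Measure α} [CompleteSpace F]
    [CompleteSpace G] (L : F →L[ℝ] G) {f : α → F} (hf : Integrable f μ) :
    Integrable (fun a => L (f a)) μ ∧ L (∫ a, f a ∂μ) = ∫ a, L (f a) ∂μ :=
  ⟨L.integrable_comp hf, (L.integral_comp_comm hf).symm⟩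

end

/-- The integrand of the cone operator. -/
def gK (p : ℕ) (η : E n → Fm n (p + 1)) (z : E n × (ℝ × E n)) : Fm n p :=
  z.2.1 ^ p • cur n p (η (cc z.1 z.2.1 z.2.2)) (z.1 - z.2.2)

/-- The integrand of the smoothing operator. -/
def gS (τ : ℝ) (p : ℕ) (η : E n → Fm n p) (z : E n × E n) : Fm n p :=
  τ ^ p • η (cc z.1 τ z.2)

/-- The ball of centres. -/
abbrev BB (n : ℕ) : Set (E n) := closedBall 0 (1 / 2)

lemma vol_BB_pos : 0 < volume.real (BB n) :=
  ENNReal.toReal_pos (measure_closedBall_pos _ _ (by norm_num)).ne'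
    (isCompact_closedBall _ _).measure_lt_top.ne

/-- The cone operator. -/
def KK (S : ℝ) (p : ℕ) (η : E n → Fm n (p + 1)) (x : E n) : Fm n p :=
  (volume.real (BB n))⁻¹ • ∫ q in Icc 1 S ×ˢ BB n, gK p η (x, q)

/-- The smoothing operator. -/
def SS (S : ℝ) (p : ℕ) (η : E n → Fm n p) (x : E n) : Fm n p :=
  (volume.real (BB n))⁻¹ • ∫ y in BB n, gS S p η (x, y)

lemma cartan (D : E n →L[ℝ] Fm n (p + 1)) (u : E n) :
    alternatizeUncurryFin ((cur n p).flip u ∘L D) + (alternatizeUncurryFin D).curryLeft u =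
      D u := by
  ext w
  simp only [ContinuousAlternatingMap.add_apply, alternatizeUncurryFin_apply,
    curryLeft_apply_apply, ContinuousLinearMap.comp_apply, ContinuousLinearMap.flip_apply,
    cur_apply]
  rw [Fin.sum_univ_succ (f := fun i : Fin (p + 1 + 1) =>
    (-1 : ℤ) ^ (i : ℕ) • D (Matrix.vecCons u w i) (i.removeNth (Matrix.vecCons u w)))]
  have h1 : ∀ j : Fin (p + 1), (j.succ).removeNth (Matrix.vecCons u w) =
      Matrix.vecCons u (j.removeNth w) := by
    intro j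
    funext i
    cases i using Fin.cases <;> simp [Fin.removeNth]
  have h0 : (0 : Fin (p + 1 + 1)).removeNth (Matrix.vecCons u w) = w := by
    funext i; simp [Fin.removeNth]
  simp only [h1, h0, Fin.val_succ, pow_succ, Matrix.cons_val_succ, Matrix.cons_val_zero,
    Fin.val_zero, pow_zero, one_smul, mul_neg, mul_one, neg_smul, Finset.sum_neg_distrib]
  abel

lemma gK_smooth {η : E n → Fm n (p + 1)} (hη : ContDiff ℝ ∞ η) : ContDiff ℝ ∞ (gK p η) := by
  have h1 : ContDiff ℝ ∞ (fun z : E n × (ℝ × E n) => η (cc z.1 z.2.1 z.2.2)) :=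
    hη.comp (by unfold cc; fun_prop)
  have h2 : ContDiff ℝ ∞ (fun z : E n × (ℝ × E n) => z.2.1 ^ p) := by fun_prop
  have h3 : ContDiff ℝ ∞ (fun z : E n × (ℝ × E n) => z.1 - z.2.2) := by fun_prop
  have h4 := ((cur n p).contDiff.comp h1).clm_apply h3
  exact h2.smul h4

lemma gS_smooth {η : E n → Fm n p} (hη : ContDiff ℝ ∞ η) (τ : ℝ) : ContDiff ℝ ∞ (gS τ p η) := by
  have h1 : ContDiff ℝ ∞ (fun z : E n × E n => η (cc z.1 τ z.2)) :=
    hη.comp (by unfold cc; fun_prop)
  exact h1.const_smul _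

lemma extDeriv_smooth {η : E n → Fm n p} (hη : ContDiff ℝ ∞ η) : ContDiff ℝ ∞ (extDeriv η) := by
  have h := (alternatizeUncurryFinCLM ℝ (E n) ℝ).contDiff.comp (hη.fderiv_right (m := ∞) (by simp))
  exact h

lemma KK_smooth {η : E n → Fm n (p + 1)} (hη : ContDiff ℝ ∞ η) (S : ℝ) :
    ContDiff ℝ ∞ (KK S p η) :=
  (contDiffOn_univ.1 (param_smooth (isCompact_Icc.prod (isCompact_closedBall _ _)) isOpen_univ
    fun _ _ _ _ => (gK_smooth hη).contDiffAt)).const_smul _

lemma SS_smooth {η : E n → Fm n p} (hη : ContDiff ℝ ∞ η) (S : ℝ) : ContDiff ℝ ∞ (SS S p η) :=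
  (contDiffOn_univ.1 (param_smooth (isCompact_closedBall _ _) isOpen_univ
    fun _ _ _ _ => (gS_smooth hη S).contDiffAt)).const_smul _

/-- The derivative along the ray. -/
def dd (p : ℕ) (η : E n → Fm n p) (x : E n) (τ : ℝ) (y : E n) : Fm n p :=
  τ ^ p • fderiv ℝ η (cc x τ y) (x - y) + ((p : ℝ) * τ ^ (p - 1)) • η (cc x τ y)

lemma hasDerivAt_seg {η : E n → Fm n p} {x y : E n} {τ : ℝ}
    (h : DifferentiableAt ℝ η (cc x τ y)) :
    HasDerivAt (fun s => gS s p η (x, y)) (dd p η x τ y) τ := by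
  have h1 : HasDerivAt (fun s => cc x s y) (x - y) τ := by
    simpa [cc] using ((hasDerivAt_id τ).smul_const (x - y)).const_add y
  have h2 := h.hasFDerivAt.comp_hasDerivAt τ h1
  exact (hasDerivAt_pow p τ).smul h2

lemma ftc {η : E n → Fm n p} (hη : ContDiff ℝ ∞ η) {S : ℝ} (hS : 1 ≤ S) (x : E n) :
    (volume.real (BB n))⁻¹ • ∫ q in Icc 1 S ×ˢ BB n, dd p η x q.1 q.2 = SS S p η x - η x := by
  have hB : IsCompact (BB n) := isCompact_closedBall _ _
  have hcont : Continuous (fun q : ℝ × E n => dd p η x q.1 q.2) := by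
    have hcc : Continuous (fun q : ℝ × E n => cc x q.1 q.2) := by unfold cc; fun_prop
    have h1 := hη.continuous.comp hcc
    have h2 := (hη.continuous_fderiv (by simp)).comp hcc
    have h5 : Continuous (fun q : ℝ × E n => q.1 ^ p) := by fun_prop
    have h6 : Continuous (fun q : ℝ × E n => (p : ℝ) * q.1 ^ (p - 1)) := by fun_prop
    have h7 : Continuous (fun q : ℝ × E n => x - q.2) := by fun_prop
    exact (h5.smul (h2.clm_apply h7)).add (h6.smul h1)
  have hint : IntegrableOn (fun q : ℝ × E n => dd p η x q.1 q.2) (Icc 1 S ×ˢ BB n) volume :=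
    hcont.continuousOn.integrableOn_compact (isCompact_Icc.prod hB)
  have h3 : ∫ q in Icc 1 S ×ˢ BB n, dd p η x q.1 q.2 =
      ∫ y in BB n, ∫ τ in Icc 1 S, dd p η x τ y := by
    rw [Measure.volume_eq_prod, ← Measure.prod_restrict]
    refine integral_prod_symm _ ?_
    rw [Measure.prod_restrict, ← Measure.volume_eq_prod]
    exact hint
  have h4 : ∀ y ∈ BB n, ∫ τ in Icc 1 S, dd p η x τ y = gS S p η (x, y) - η x := by
    intro y hy
    rw [integral_Icc_eq_integral_Ioc, ← intervalIntegral.integral_of_le hS,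
      intervalIntegral.integral_eq_sub_of_hasDerivAt (f := fun s => gS s p η (x, y))]
    · simp [gS, cc]
    · exact fun τ _ => hasDerivAt_seg (hη.differentiable (by simp) _)
    · exact (hcont.comp (f := fun τ => (τ, y)) (by fun_prop)).intervalIntegrable _ _
  have h5 : IntegrableOn (fun _ : E n => η x) (BB n) volume :=
    continuousOn_const.integrableOn_compact hB
  rw [h3, setIntegral_congr_fun hB.measurableSet h4, integral_sub
    (slice_integrableOn hB fun _ _ => (gS_smooth hη S).contDiffAt) h5, setIntegral_const, smul_sub,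
    smul_smul, inv_mul_cancel₀ vol_BB_pos.ne', one_smul, SS]

lemma slice_formula {η : E n → Fm n (p + 1)} (hη : ContDiff ℝ ∞ η) (x : E n) (q : ℝ × E n) :
    alternatizeUncurryFin (fderiv ℝ (gK p η) (x, q) ∘L ContinuousLinearMap.inl ℝ (E n) (ℝ × E n))
      + gK (p + 1) (extDeriv η) (x, q) = dd (p + 1) η x q.1 q.2 := by
  have h1 : HasFDerivAt (fun z => cc z q.1 q.2) (q.1 • ContinuousLinearMap.id ℝ (E n)) x := by
    exact (((hasFDerivAt_id x).sub_const q.2).const_smul q.1).const_add q.2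
  have h3 := (bil_hasFDerivAt (cur n p)
    ((hη.differentiable (by simp) (cc x q.1 q.2)).hasFDerivAt.comp x h1)
    ((hasFDerivAt_id x).sub_const q.2)).const_smul (q.1 ^ p)
  have h4 := (slice_hasFDerivAt (gK_smooth hη).contDiffAt).unique h3
  have h5 : fderiv ℝ (gK p η) (x, q) ∘L ContinuousLinearMap.inl ℝ (E n) (ℝ × E n) =
      q.1 ^ p • (η (cc x q.1 q.2)).curryLeft +
        q.1 ^ (p + 1) • ((cur n p).flip (x - q.2) ∘L fderiv ℝ η (cc x q.1 q.2)) := by
    rw [h4]
    ext v w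
    simp [pow_succ, mul_assoc]
  rw [h5, alternatizeUncurryFin_add, alternatizeUncurryFin_smul, alternatizeUncurryFin_smul,
    alternatizeUncurryFin_curryLeft, gK, dd, ← cartan (fderiv ℝ η (cc x q.1 q.2)) (x - q.2),
    cur_apply, extDeriv, smul_add]
  simp only [Nat.add_sub_cancel]
  rw [← Nat.cast_smul_eq_nsmul ℝ, smul_smul, mul_comm]
  abel

lemma homotopy {η : E n → Fm n (p + 1)} (hη : ContDiff ℝ ∞ η) {S : ℝ} (hS : 1 ≤ S) (x : E n) :
    extDeriv (KK S p η) x + KK S (p + 1) (extDeriv η) x = SS S (p + 1) η x - η x := by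
  have hT : IsCompact (Icc 1 S ×ˢ BB n) := isCompact_Icc.prod (isCompact_closedBall _ _)
  have hd := (param_deriv (μ := volume) hT isOpen_univ (fun _ _ _ _ => (gK_smooth hη).contDiffAt)
    (mem_univ x)).const_smul (volume.real (BB n))⁻¹
  have hi := slice_integrableOn (μ := volume) hT (x := x)
    (f := fun w => fderiv ℝ (gK p η) w ∘L ContinuousLinearMap.inl ℝ (E n) (ℝ × E n))
    fun q _ => slice_contDiffAt (gK_smooth hη).contDiffAt
  have h1 : extDeriv (KK S p η) x = (volume.real (BB n))⁻¹ • ∫ q in Icc 1 S ×ˢ BB n,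
      alternatizeUncurryFin (fderiv ℝ (gK p η) (x, q) ∘L
        ContinuousLinearMap.inl ℝ (E n) (ℝ × E n)) := by
    have h2 : fderiv ℝ (KK S p η) x = _ := hd.fderiv
    rw [extDeriv, h2, alternatizeUncurryFin_smul]
    congr 1
    exact (clm_integral (G := Fm n (p + 1)) (alternatizeUncurryFinCLM ℝ (E n) ℝ) hi).2
  have hi2 : IntegrableOn (fun q => alternatizeUncurryFin (fderiv ℝ (gK p η) (x, q) ∘L
      ContinuousLinearMap.inl ℝ (E n) (ℝ × E n))) (Icc 1 S ×ˢ BB n) volume := by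
    have h9 := (clm_integral (G := Fm n (p + 1)) (alternatizeUncurryFinCLM ℝ (E n) ℝ) hi).1
    exact h9
  rw [h1, KK, ← smul_add, ← integral_add hi2
    (slice_integrableOn hT fun _ _ => (gK_smooth (extDeriv_smooth hη)).contDiffAt),
    ← ftc hη hS x]
  congr 1
  exact setIntegral_congr_fun hT.measurableSet fun q _ => slice_formula hη x q

lemma norm_cc {x y : E n} {s r : ℝ} (hr : 1 / 2 ≤ r) (hx : r < ‖x‖) (hs : 1 ≤ s) (hy : y ∈ BB n) :
    r < ‖cc x s y‖ := by
  have h1 : s • x = cc x s y + (s - 1) • y := by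
    unfold cc
    module
  have h2 := norm_add_le (cc x s y) ((s - 1) • y)
  rw [← h1, norm_smul, norm_smul, Real.norm_of_nonneg (by linarith),
    Real.norm_of_nonneg (by linarith)] at h2
  have h3 : ‖y‖ ≤ 1 / 2 := mem_closedBall_zero_iff.1 hy
  nlinarith

lemma KK_zero {η : E n → Fm n (p + 1)} {r : ℝ} (hr : 1 / 2 ≤ r) (h : ∀ x, r < ‖x‖ → η x = 0)
    (S : ℝ) {x : E n} (hx : r < ‖x‖) : KK S p η x = 0 := by
  rw [KK, setIntegral_eq_zero_of_forall_eq_zero, smul_zero]
  intro q hq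
  simp [gK, h _ (norm_cc hr hx hq.1.1 hq.2)]

lemma SS_zero {η : E n → Fm n p} {r : ℝ} (hr : 1 / 2 ≤ r) (h : ∀ x, r < ‖x‖ → η x = 0)
    {S : ℝ} (hS : 1 ≤ S) {x : E n} (hx : r < ‖x‖) : SS S p η x = 0 := by
  rw [SS, setIntegral_eq_zero_of_forall_eq_zero, smul_zero]
  intro q hq
  simp [gS, h _ (norm_cc hr hx hS hq)]

lemma compact_of_zero {F : Type} [Zero F] {u : E n → F} {r : ℝ} (h : ∀ x, r < ‖x‖ → u x = 0) :
    HasCompactSupport u :=
  HasCompactSupport.intro (isCompact_closedBall 0 r) fun x hx => h x (by simpa using hx)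

lemma KK_neg (η : E n → Fm n (p + 1)) (S : ℝ) (x : E n) : KK S p (-η) x = -KK S p η x := by
  simp only [KK, gK, Pi.neg_apply, map_neg, _root_.neg_apply, smul_neg, integral_neg]

lemma SS_bound {η : E n → Fm n p} (hη : Continuous η) (hi : Integrable η) {S : ℝ} (hS : 1 < S)
    (x : E n) : ‖SS S p η x‖ ≤ (volume.real (BB n))⁻¹ * (S ^ p * ((S - 1) ^ n)⁻¹) * ∫ y, ‖η y‖ := by
  rw [SS, norm_smul, Real.norm_of_nonneg (inv_nonneg.2 vol_BB_pos.le), mul_assoc]
  refine mul_le_mul_of_nonneg_left ?_ (inv_nonneg.2 vol_BB_pos.le)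
  have h0 : 0 < S - 1 := by linarith
  have h1 : ‖∫ y in BB n, gS S p η (x, y)‖ₑ ≤
      ENNReal.ofReal (S ^ p) * (ENNReal.ofReal ((S - 1) ^ n)⁻¹ * ∫⁻ y, ‖η y‖ₑ) := by
    refine (enorm_integral_le_lintegral_enorm _).trans
      ((setLIntegral_le_lintegral _ _).trans (le_of_eq ?_))
    have := lintegral_affine hη.enorm.measurable (S • x) (r := 1 - S) (by linarith)
    rw [abs_sub_comm, abs_of_pos h0] at this
    rw [← this, ← lintegral_const_mul' _ _ ENNReal.ofReal_ne_top]
    refine lintegral_congr fun y => ?_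
    rw [gS, enorm_smul, Real.enorm_eq_ofReal (by positivity)]
    congr 3
    unfold cc
    module
  rw [← ofReal_integral_norm_eq_lintegral_enorm hi, ← ENNReal.ofReal_mul (by positivity),
    ← ENNReal.ofReal_mul (by positivity), ← ofReal_norm] at h1
  rw [mul_assoc]
  exact (ENNReal.ofReal_le_ofReal_iff (by positivity)).1 h1

lemma two_le : minSmoothness ℝ 2 ≤ ((⊤ : ℕ∞) : WithTop ℕ∞) := by
  rw [minSmoothness_of_isRCLikeNormedField]
  exact WithTop.coe_le_coe.2 (le_top (a := (2 : ℕ∞)))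

/-- The integral of `γ ∧ γ` in terms of `η` and of the cone over `d η`. -/
theorem wedge_eq {γ η : E (p + 1 + (p + 1)) → Fm (p + 1 + (p + 1)) (p + 1)} (hγ : ContDiff ℝ ∞ γ)
    (h0 : extDeriv γ = 0) (hη : ContDiff ℝ ∞ η) {R : ℝ} (hR : 1 / 2 ≤ R)
    (he : ∀ x, R < ‖x‖ → γ x = η x) (hw : ∀ x, wedge (η x) (η x) = 0) {S : ℝ} (hS : 1 ≤ S) :
    ∫ x, wedge (γ x) (γ x) = ∫ x,
      wedge (η x + (KK S (p + 1) (extDeriv η) x + SS S (p + 1) (γ - η) x))
        (η x + (KK S (p + 1) (extDeriv η) x + SS S (p + 1) (γ - η) x)) := by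
  have hδ : ContDiff ℝ ∞ (γ - η) := hγ.sub hη
  have hδ0 : ∀ x, R < ‖x‖ → (γ - η) x = 0 := fun x hx => sub_eq_zero.2 (he x hx)
  have hd : extDeriv (γ - η) = -extDeriv η := by
    funext x
    have := extDeriv_add (hδ.differentiable (by simp) x) (hη.differentiable (by simp) x)
    rw [sub_add_cancel, h0] at this
    exact eq_neg_of_add_eq_zero_left this.symm
  obtain ⟨π, hπ⟩ : ∃ π, π = KK S p (γ - η) := ⟨_, rfl⟩
  have s1 : ContDiff ℝ ∞ π := hπ ▸ KK_smooth hδ S
  have c1 : HasCompactSupport π := hπ ▸ compact_of_zero fun x hx => KK_zero hR hδ0 S hx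
  have s2 := extDeriv_smooth s1
  have c2 : HasCompactSupport (extDeriv π) :=
    (c1.fderiv ℝ).comp_left (g := alternatizeUncurryFinCLM ℝ _ ℝ) (map_zero _)
  have e1 : ∀ x, η x + (KK S (p + 1) (extDeriv η) x + SS S (p + 1) (γ - η) x) =
      γ x + extDeriv π x := fun x => by
    have := homotopy hδ hS x
    rw [hd, KK_neg, ← hπ, Pi.sub_apply] at this
    rw [eq_add_of_sub_eq this.symm]
    abel
  have cw : ∀ {a b : E (p + 1 + (p + 1)) → Fm (p + 1 + (p + 1)) (p + 1)}, Continuous a →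
      Continuous b → Continuous fun x => wedgeL _ (a x) (b x) := fun ha hb =>
    ((wedgeL _).continuous.comp ha).clm_apply hb
  have i0 : Integrable fun x => wedgeL _ (γ x) (γ x) :=
    (cw hγ.continuous hγ.continuous).integrable_of_hasCompactSupport
      (compact_of_zero fun x hx => by rw [he x hx, wedgeL_apply, hw])
  have i1 : ∀ {a : E (p + 1 + (p + 1)) → Fm (p + 1 + (p + 1)) (p + 1)}, Continuous a →
      Integrable fun x => wedgeL _ (extDeriv π x) (a x) := fun ha =>
    (cw s2.continuous ha).integrable_of_hasCompactSupport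
      (c2.mono fun x hx h => hx (by simp [h]))
  have t1 := stokes s1 c1 hγ h0
  have t2 := stokes s1 c1 s2 (extDeriv_extDeriv s1 two_le)
  have e2 : ∀ x, wedge (γ x + extDeriv π x) (γ x + extDeriv π x) = wedgeL _ (γ x) (γ x) +
      ((1 + ((Equiv.Perm.sign (Equiv.sumComm (Fin (p + 1)) (Fin (p + 1))) : ℤ) : ℝ)) *
        wedgeL _ (extDeriv π x) (γ x) + wedgeL _ (extDeriv π x) (extDeriv π x)) := fun x => by
    rw [← wedgeL_apply]
    simp only [map_add, _root_.add_apply, wedgeL_apply]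
    rw [wedge_comm (extDeriv π x) (γ x)]
    ring
  simp only [e1, e2]
  rw [integral_add i0 (by exact ((i1 hγ.continuous).const_mul _).add (i1 s2.continuous)),
    integral_add ((i1 hγ.continuous).const_mul _) (i1 s2.continuous), integral_const_mul]
  simp only [wedgeL_apply, t1, t2, mul_zero, add_zero]

end Pool.Agent.MP_9fca84_an.H66
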