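import Pool.Agent.MP_9fca84_an.H66.Est

/-!
The kernel of the cone operator and its integral estimates.
-/

open scoped ENNReal Topology
open MeasureTheory Metric Set Filter

noncomputable section

namespace Pool.Agent.MP_9fca84_an.H66

variable {d m : ℕ}

/-- The indicator of the cone above `x`. -/
def cn (x y : E d) : ℝ≥0∞ :=
  le1 (‖y - x‖ + (1 - ‖y‖)) (6 * (1 - ‖x‖)) *
    le1 (‖x‖ ^ 2 * ‖y - x‖ ^ 2 - inner ℝ x (y - x) ^ 2) (‖y - x‖ ^ 2 / 4)

@[fun_prop]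
lemma measurable_cn {α : Type} [MeasurableSpace α] {f g : α → E d} (hf : Measurable f)
    (hg : Measurable g) : Measurable fun x => cn (f x) (g x) := by
  unfold cn
  have : Measurable fun x => inner ℝ (f x) (g x - f x) := hf.inner (hg.sub hf)
  fun_prop

lemma cn_le (x y : E d) : cn x y ≤ 1 := mul_le_one' (le1_le _ _) (le1_le _ _)

lemma line_geo {h2 z s T : ℝ} (hh : h2 ≤ 1 / 4) (hs : 0 ≤ s) (h : s ^ 2 = h2 + z ^ 2) (hT : 0 < T)
    (ht : T ≤ 1 - s) :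
    |z - √(1 - h2)| + T ≤ 5 * (1 - s) ∨ |z - -√(1 - h2)| + T ≤ 5 * (1 - s) := by
  obtain ⟨w, hw⟩ : ∃ w, w = √(1 - h2) := ⟨_, rfl⟩
  have h1 : w ^ 2 = 1 - h2 := hw ▸ Real.sq_sqrt (by linarith)
  have h0 : 1 / 2 ≤ w := hw ▸ Real.le_sqrt_of_sq_le (by linarith)
  rw [← hw]
  have h3 : |z| < w := abs_lt_of_sq_lt_sq (by nlinarith) (by linarith)
  have h4 : w - |z| ≤ 4 * (1 - s) := by
    nlinarith [sq_abs z, abs_nonneg z]
  rcases le_total 0 z with hz | hz
  · left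
    rw [abs_of_nonneg hz] at h3 h4
    rw [abs_of_nonpos (by linarith)]
    linarith
  · right
    rw [abs_of_nonpos hz] at h3 h4
    rw [abs_of_nonneg (by linarith)]
    linarith

lemma p2 (hd : d = m + 1) (b : ℕ) (x : E d) (T : ℝ) :
    ∫⁻ y, pw m ‖y - x‖ * (cn x y * le1 T (1 - ‖y‖) * pw (b + 2) (1 - ‖y‖)) ≤
      surf d univ * (ENNReal.ofReal (5 ^ (b + 2)) * 4) * pw (b + 1) T := by
  have hσ : surf d univ ≠ 0 := by
    subst hd
    simp [surf, (measure_ball_pos _ _ one_pos).ne']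
  rcases le_or_gt T 0 with hT | hT
  · rw [pw_top b hT, ENNReal.mul_top (by positivity)]
    exact le_top
  rw [polar hd (by fun_prop), mul_assoc, mul_comm, ← lintegral_const]
  refine lintegral_mono fun e => ?_
  obtain ⟨c, hc⟩ : ∃ c, c = inner ℝ x (e : E d) := ⟨_, rfl⟩
  obtain ⟨w, hw⟩ : ∃ w, w = √(1 - (‖x‖ ^ 2 - c ^ 2)) := ⟨_, rfl⟩
  have h1 : ∫⁻ r, ENNReal.ofReal (5 ^ (b + 2)) *
      (pw (b + 2) (|r - (w - c)| + T) + pw (b + 2) (|r - (-w - c)| + T)) ≤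
      ENNReal.ofReal (5 ^ (b + 2)) * 4 * pw (b + 1) T := by
    rw [lintegral_const_mul _ (by fun_prop), lintegral_add_left (by fun_prop), mul_assoc]
    gcongr
    refine (add_le_add (tail_abs b _ T) (tail_abs b _ T)).trans_eq ?_
    ring
  refine le_trans ((setLIntegral_mono' measurableSet_Ioi fun r hr => ?_).trans
    (setLIntegral_le_lintegral _ _)) h1
  have hr0 : (0 : ℝ) < r := hr
  by_cases h2 : T ≤ 1 - ‖x + r • (e : E d)‖
  swap
  · simp [le1_not h2]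
  have he : ‖(e : E d)‖ = 1 := norm_eq_of_mem_sphere e
  by_cases h3 : ‖x‖ ^ 2 - c ^ 2 ≤ 1 / 4
  swap
  · have : cn x (x + r • (e : E d)) = 0 := by
      rw [cn, le1_not (a := _ - _), mul_zero]
      simp only [add_sub_cancel_left, norm_smul, he, mul_one, Real.norm_of_nonneg hr0.le,
        real_inner_smul_right, ← hc]
      nlinarith [pow_pos hr0 2]
    simp [this]
  have h4 : ‖x + r • (e : E d)‖ ^ 2 = (‖x‖ ^ 2 - c ^ 2) + (r + c) ^ 2 := by
    rw [norm_add_sq_real, norm_smul, he, real_inner_smul_right, ← hc, Real.norm_of_nonneg hr0.le]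
    ring
  refine (mul_le_of_le_one_left' (mul_le_one' (cn_le _ _) (le1_le _ _))).trans ?_
  rcases line_geo h3 (norm_nonneg _) h4 hT h2 with h | h
  · rw [← hw, show r + c - w = r - (w - c) by ring] at h
    exact (pw_le _ (by norm_num) h).trans (by gcongr; exact le_self_add)
  · rw [← hw, show r + c - -w = r - (-w - c) by ring] at h
    exact (pw_le _ (by norm_num) h).trans (by gcongr; exact le_add_self)

/-- The image of the weight under the kernel. -/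
def bk (m k : ℕ) (z : E d → ℝ≥0∞) (x : E d) : ℝ≥0∞ :=
  ∫⁻ y, pw m ‖y - x‖ * cn x y * (z y * pw k (1 - ‖y‖))

lemma measurable_bk {z : E d → ℝ≥0∞} (hz : Measurable z) (k : ℕ) : Measurable (bk m k z) :=
  Measurable.lintegral_prod_right' (f := fun p : E d × E d =>
    pw m ‖p.2 - p.1‖ * cn p.1 p.2 * (z p.2 * pw k (1 - ‖p.2‖))) (by fun_prop)

lemma l1 (hd : d = m + 1) (q k : ℕ) {z : E d → ℝ≥0∞} (hz : Measurable z) :
    ∫⁻ x, pw (q + 2) (1 - ‖x‖) * bk m k z x ≤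
      ENNReal.ofReal (6 ^ (q + 2)) * surf d univ * ∫⁻ y, z y * pw (q + 1 + k) (1 - ‖y‖) := by
  have h1 : ∀ x : E d, pw (q + 2) (1 - ‖x‖) * bk m k z x ≤ ∫⁻ y, ENNReal.ofReal (6 ^ (q + 2)) *
      (z y * pw k (1 - ‖y‖)) * (pw m ‖x - y‖ * pw (q + 2) (‖x - y‖ + (1 - ‖y‖))) := by
    intro x
    rw [bk, ← lintegral_const_mul _ (by fun_prop)]
    refine lintegral_mono fun y => ?_
    by_cases h : ‖y - x‖ + (1 - ‖y‖) ≤ 6 * (1 - ‖x‖)
    swap
    · simp [cn, le1_not h]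
    rw [norm_sub_rev x y]
    calc _ ≤ ENNReal.ofReal (6 ^ (q + 2)) * pw (q + 2) (‖y - x‖ + (1 - ‖y‖)) *
          (pw m ‖y - x‖ * 1 * (z y * pw k (1 - ‖y‖))) := by
          gcongr
          exacts [pw_le _ (by norm_num) h, cn_le _ _]
      _ = _ := by ring
  refine (lintegral_mono h1).trans ?_
  rw [lintegral_lintegral_swap (by fun_prop), ← lintegral_const_mul _ (by fun_prop)]
  refine lintegral_mono fun y => ?_
  rw [lintegral_const_mul _ (by fun_prop), pw_add (q + 1)]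
  refine (mul_le_mul_right (riesz hd q y _) _).trans_eq ?_
  ring

lemma sq_le {α : Type} [MeasurableSpace α] {μ : Measure α} [SFinite μ] {g : α → ℝ≥0∞}
    {t : α → ℝ} (hg : Measurable g) (ht : Measurable t) :
    (∫⁻ y, g y ∂μ) ^ 2 ≤ 2 * ∫⁻ y, ∫⁻ y', le1 (t y) (t y') * (g y * g y') ∂μ ∂μ := by
  have h1 : (∫⁻ y, g y ∂μ) ^ 2 = ∫⁻ y, ∫⁻ y', g y * g y' ∂μ ∂μ := by
    rw [sq, ← lintegral_mul_const _ hg]
    exact lintegral_congr fun y => (lintegral_const_mul _ hg).symm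
  have h2 : ∫⁻ y, ∫⁻ y', le1 (t y') (t y) * (g y * g y') ∂μ ∂μ =
      ∫⁻ y, ∫⁻ y', le1 (t y) (t y') * (g y * g y') ∂μ ∂μ := by
    rw [lintegral_lintegral_swap (by fun_prop)]
    exact lintegral_congr fun y => lintegral_congr fun y' => by rw [mul_comm (g y')]
  rw [h1, two_mul]
  nth_rw 1 [← h2]
  rw [← lintegral_add_left (Measurable.lintegral_prod_right' (f := fun p : α × α =>
    le1 (t p.2) (t p.1) * (g p.1 * g p.2)) (by fun_prop))]
  refine lintegral_mono fun y => ?_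
  rw [← lintegral_add_left (by fun_prop)]
  refine lintegral_mono fun y' => ?_
  rcases le_total (t y) (t y') with h | h
  · rw [le1_of h, one_mul]
    exact le_add_self
  · rw [le1_of h, one_mul]
    exact le_self_add

lemma far_pt {a b l : ℝ} (h : l ≤ a) (m : ℕ) : pw m a * pw m b ≤
    ENNReal.ofReal (2 ^ m) * (pw m a * pw m (a + l) + pw m b * pw m (b + l)) := by
  rcases le_total a b with h1 | h1
  · calc _ ≤ pw m a * (ENNReal.ofReal (2 ^ m) * pw m (a + l)) := by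
          gcongr
          exact pw_le _ two_pos (by linarith)
      _ ≤ _ := by
          rw [mul_left_comm]
          gcongr
          exact le_self_add
  · calc _ ≤ (ENNReal.ofReal (2 ^ m) * pw m (b + l)) * pw m b := by
          gcongr
          exact pw_le _ two_pos (by linarith)
      _ ≤ _ := by
          rw [mul_assoc, mul_comm _ (pw m b)]
          gcongr
          exact le_add_self

lemma l2 (q : ℕ) (hd : d = 2 * q + 3 + 1) : ∃ C : ℝ≥0∞, C ≠ ∞ ∧ ∀ (z : E d → ℝ≥0∞),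
    Measurable z → (∀ y, z y ≤ 1) → ∀ L : ℝ, 0 < L →
    ∫⁻ x, bk (2 * q + 3) (q + 3) z x ^ 2 ≤ C * ((ENNReal.ofReal (L ^ (q + 2)) * pw (q + 1) L +
      pw (2 * q + 2) L * ∫⁻ y, z y * pw (2 * q + 4) (1 - ‖y‖)) *
        ∫⁻ y, z y * pw (2 * q + 4) (1 - ‖y‖)) := by
  obtain ⟨σ, hσ⟩ : ∃ σ, σ = surf d univ := ⟨_, rfl⟩
  obtain ⟨c₁, hc₁⟩ : ∃ c₁, c₁ = σ * (ENNReal.ofReal (5 ^ (q + 1 + 2)) * 4) := ⟨_, rfl⟩
  obtain ⟨c₂, hc₂⟩ : ∃ c₂, c₂ = ENNReal.ofReal (2 ^ (q + 2)) := ⟨_, rfl⟩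
  obtain ⟨c₃, hc₃⟩ : ∃ c₃, c₃ = ENNReal.ofReal (2 ^ (2 * q + 3)) := ⟨_, rfl⟩
  have hσ' : σ ≠ ∞ := hσ ▸ measure_ne_top _ _
  refine ⟨2 * (c₁ * c₂ * σ + c₃ * (2 * σ)), by rw [hc₁, hc₂, hc₃]; finiteness,
    fun z hz hz1 L hL => ?_⟩
  obtain ⟨N, hN⟩ : ∃ N, N = ∫⁻ y : E d, z y * pw (2 * q + 4) (1 - ‖y‖) := ⟨_, rfl⟩
  rw [← hN]
  let A : E d → E d → E d → ℝ≥0∞ := fun x y y' =>
    pw (2 * q + 3) ‖y - x‖ * (z y * pw (q + 3) (1 - ‖y‖)) * (pw (2 * q + 3) ‖y' - x‖ *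
      (cn x y' * le1 ((1 - ‖y‖ + ‖y - x‖ / L) / 2) (1 - ‖y'‖) * pw (q + 1 + 2) (1 - ‖y'‖)))
  let B : E d → E d → E d → ℝ≥0∞ := fun x y y' =>
    c₃ * (le1 (1 - ‖y‖) (1 - ‖y'‖) * (z y * pw (q + 3) (1 - ‖y‖)) * (z y' * pw (q + 3) (1 - ‖y'‖))) *
      (pw (2 * q + 3) ‖x - y‖ * pw (2 * q + 1 + 2) (‖x - y‖ + L * (1 - ‖y'‖)) +
        pw (2 * q + 3) ‖x - y'‖ * pw (2 * q + 1 + 2) (‖x - y'‖ + L * (1 - ‖y'‖)))
  have h1 : ∀ x, bk (2 * q + 3) (q + 3) z x ^ 2 ≤
      2 * ((∫⁻ y, ∫⁻ y', A x y y') + ∫⁻ y, ∫⁻ y', B x y y') := by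
    intro x
    refine (sq_le (t := fun y : E d => 1 - ‖y‖) (by fun_prop) (by fun_prop)).trans ?_
    rw [← lintegral_add_left (Measurable.lintegral_prod_right' (f := fun p : E d × E d =>
      A x p.1 p.2) (by fun_prop))]
    gcongr with y
    rw [← lintegral_add_left (by fun_prop)]
    gcongr with y'
    by_cases h : 1 - ‖y‖ ≤ 1 - ‖y'‖
    swap
    · simp [le1_not h]
    rcases le_total ‖y - x‖ (L * (1 - ‖y'‖)) with h2 | h2
    · refine le_trans ?_ le_self_add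
      have h3 : (1 - ‖y‖ + ‖y - x‖ / L) / 2 ≤ 1 - ‖y'‖ := by
        have := (div_le_iff₀' hL).2 h2
        linarith
      simp only [A, le1_of h, le1_of h3, one_mul, mul_one]
      calc _ ≤ pw (2 * q + 3) ‖y - x‖ * 1 * (z y * pw (q + 3) (1 - ‖y‖)) *
            (pw (2 * q + 3) ‖y' - x‖ * cn x y' * (1 * pw (q + 3) (1 - ‖y'‖))) := by
            gcongr
            exacts [cn_le _ _, hz1 _]
        _ = _ := by ring
    · refine le_trans ?_ le_add_self
      simp only [B, norm_sub_rev x]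
      calc _ ≤ le1 (1 - ‖y‖) (1 - ‖y'‖) *
            (pw (2 * q + 3) ‖y - x‖ * 1 * (z y * pw (q + 3) (1 - ‖y‖)) *
            (pw (2 * q + 3) ‖y' - x‖ * 1 * (z y' * pw (q + 3) (1 - ‖y'‖)))) := by
            gcongr <;> exact cn_le _ _
        _ = le1 (1 - ‖y‖) (1 - ‖y'‖) * (z y * pw (q + 3) (1 - ‖y‖)) *
            (z y' * pw (q + 3) (1 - ‖y'‖)) *
            (pw (2 * q + 3) ‖y - x‖ * pw (2 * q + 3) ‖y' - x‖) := by ring
        _ ≤ _ := by
            refine (mul_le_mul_right (far_pt h2 _) _).trans_eq ?_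
            rw [hc₃]
            ring
  have hA : ∫⁻ x, ∫⁻ y, ∫⁻ y', A x y y' ≤
      c₁ * c₂ * σ * (ENNReal.ofReal (L ^ (q + 2)) * pw (q + 1) L * N) := by
    have h2 : ∀ x y, ∫⁻ y', A x y y' ≤ c₁ * c₂ * ENNReal.ofReal (L ^ (q + 2)) *
        (z y * pw (q + 3) (1 - ‖y‖)) *
        (pw (2 * q + 3) ‖x - y‖ * pw (q + 2) (‖x - y‖ + L * (1 - ‖y‖))) := by
      intro x y
      simp only [A]
      rw [lintegral_const_mul _ (by fun_prop)]
      refine (mul_le_mul_right (p2 hd (q + 1) x _) _).trans ?_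
      rw [← hσ, ← hc₁, norm_sub_rev x]
      have h3 := pw_le (q + 2) (c := 2 * L) (r := (1 - ‖y‖ + ‖y - x‖ / L) / 2)
        (s := ‖y - x‖ + L * (1 - ‖y‖)) (by positivity) (le_of_eq (by field_simp; ring))
      rw [mul_pow, ENNReal.ofReal_mul (by positivity), ← hc₂] at h3
      refine (mul_le_mul_right (mul_le_mul_right h3 _) _).trans_eq ?_
      ring
    refine (lintegral_mono fun x => lintegral_mono (h2 x)).trans ?_
    rw [lintegral_lintegral_swap (by fun_prop), hN, ← mul_assoc,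
      ← lintegral_const_mul _ (by fun_prop)]
    refine lintegral_mono fun y => ?_
    rw [lintegral_const_mul _ (by fun_prop)]
    refine (mul_le_mul_right (riesz hd q y _) _).trans_eq ?_
    rw [← hσ, pw_mul _ hL, show 2 * q + 4 = (q + 3) + (q + 1) by ring, pw_add (q + 3)]
    ring
  have hB : ∫⁻ x, ∫⁻ y, ∫⁻ y', B x y y' ≤ c₃ * (2 * σ) * (pw (2 * q + 2) L * N * N) := by
    rw [lintegral_lintegral_swap (Measurable.lintegral_prod_right' (f :=
      fun p : (E d × E d) × E d => B p.1.1 p.1.2 p.2) (by fun_prop)).aemeasurable]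
    have h2 : ∀ y y', ∫⁻ x, B x y y' ≤ c₃ * (2 * σ) * pw (2 * q + 2) L *
        (z y * pw (2 * q + 4) (1 - ‖y‖)) * (z y' * pw (2 * q + 4) (1 - ‖y'‖)) := by
      intro y y'
      simp only [B]
      rw [lintegral_const_mul _ (by fun_prop), lintegral_add_left (by fun_prop)]
      refine (mul_le_mul_right (add_le_add (riesz hd _ y _) (riesz hd _ y' _)) _).trans ?_
      by_cases h : 1 - ‖y‖ ≤ 1 - ‖y'‖
      swap
      · simp [le1_not h]
      have h3 : pw (q + 3) (1 - ‖y'‖) * pw (2 * q + 1 + 1) (1 - ‖y'‖) ≤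
          pw (q + 1) (1 - ‖y‖) * pw (2 * q + 4) (1 - ‖y'‖) := by
        rw [← pw_add, show q + 3 + (2 * q + 1 + 1) = q + 1 + (2 * q + 4) by ring, pw_add]
        exact mul_le_mul_left (pw_anti _ h) _
      rw [← hσ, pw_mul _ hL, le1_of h]
      calc _ = c₃ * (2 * σ) * pw (2 * q + 2) L * z y * pw (q + 3) (1 - ‖y‖) * z y' *
            (pw (q + 3) (1 - ‖y'‖) * pw (2 * q + 1 + 1) (1 - ‖y'‖)) := by ring
        _ ≤ _ := by
            refine (mul_le_mul_right h3 _).trans_eq ?_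
            nth_rw 2 [show 2 * q + 4 = (q + 3) + (q + 1) by ring]
            rw [pw_add (q + 3)]
            ring
    have h4 : ∀ y, ∫⁻ x, ∫⁻ y', B x y y' ≤ c₃ * (2 * σ) * pw (2 * q + 2) L * N *
        (z y * pw (2 * q + 4) (1 - ‖y‖)) := by
      intro y
      rw [lintegral_lintegral_swap (by fun_prop)]
      refine (lintegral_mono (h2 y)).trans_eq ?_
      rw [lintegral_const_mul _ (by fun_prop), ← hN]
      ring
    refine (lintegral_mono h4).trans_eq ?_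
    rw [lintegral_const_mul _ (by fun_prop), ← hN]
    ring
  refine (lintegral_mono h1).trans ?_
  have hAm : Measurable fun x => ∫⁻ y, ∫⁻ y', A x y y' :=
    Measurable.lintegral_prod_right' (f := fun p : E d × E d => ∫⁻ y', A p.1 p.2 y')
      (Measurable.lintegral_prod_right' (f := fun p : (E d × E d) × E d => A p.1.1 p.1.2 p.2)
        (by fun_prop))
  rw [lintegral_const_mul' _ _ (by simp), lintegral_add_left hAm, mul_assoc]
  refine mul_le_mul_right ((add_le_add hA hB).trans ?_) _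
  rw [add_mul _ _ N, add_mul]
  gcongr
  exacts [le_self_add, le_add_self]

end Pool.Agent.MP_9fca84_an.H66
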