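import Pool.Agent.MP_9fca84_an.H66.Cone
import Pool.Agent.MP_9fca84_an.H66.Kern

/-!
The estimate of the integral of `γ ∧ γ` by the hyperbolic volume of the bad set.
-/

open scoped ContDiff ENNReal Topology
open MeasureTheory Set Filter Metric ContinuousAlternatingMap

noncomputable section

namespace Pool.Agent.MP_9fca84_an.H66

variable {d : ℕ}

@[simp] lemma enorm_fm_zero {p : ℕ} : ‖(0 : Fm d p)‖ₑ = 0 := by
  rw [← ofReal_norm, norm_zero, ENNReal.ofReal_zero]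

lemma cn_cc {x a : E d} {s : ℝ} (hs : 1 < s) (ha : a ∈ BB d) (hy : ‖cc x s a‖ < 1) :
    ‖x‖ < 1 ∧ cn x (cc x s a) = 1 := by
  have h3 : ‖a‖ ≤ 1 / 2 := mem_closedBall_zero_iff.1 ha
  have h1 : s • x = cc x s a + (s - 1) • a := by
    unfold cc
    module
  have h2 := norm_add_le (cc x s a) ((s - 1) • a)
  rw [← h1, norm_smul, norm_smul, Real.norm_of_nonneg (by linarith),
    Real.norm_of_nonneg (by linarith)] at h2
  have hx : ‖x‖ < 1 := by nlinarith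
  have h4 : cc x s a - x = (s - 1) • (x - a) := by
    unfold cc
    module
  have h5 := norm_sub_le (cc x s a) x
  have h6 := norm_sub_le x a
  have h7 : ‖cc x s a - x‖ = (s - 1) * ‖x - a‖ := by
    rw [h4, norm_smul, Real.norm_of_nonneg (by linarith)]
  refine ⟨hx, ?_⟩
  rw [cn, le1_of, le1_of, one_mul]
  · rw [h7, h4, real_inner_smul_right]
    have h8 : x = a + (x - a) := by abel
    obtain ⟨v, hv⟩ : ∃ v, v = x - a := ⟨_, rfl⟩
    rw [← hv] at h8 ⊢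
    rw [h8, norm_add_sq_real, inner_add_left, real_inner_self_eq_norm_sq]
    have h9 : ‖a‖ ^ 2 ≤ 1 / 4 := by nlinarith [norm_nonneg a]
    have h10 : 0 ≤ (s - 1) ^ 2 * ((1 / 4 - ‖a‖ ^ 2) * ‖v‖ ^ 2 + inner ℝ a v ^ 2) := by
      have : 0 ≤ 1 / 4 - ‖a‖ ^ 2 := by linarith
      positivity
    nlinarith
  · rcases le_total ‖x‖ (5 / 7) with h | h
    · linarith
    · have h8 : ‖x - a‖ ≤ 6 * (‖x‖ - ‖a‖) := by linarith
      have h9 := mul_le_mul_of_nonneg_left h8 (by linarith : 0 ≤ s - 1)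
      nlinarith

lemma kk_pt {q : ℕ} (hd : d = 2 * q + 3 + 1) {θ : E d → Fm d (q + 2 + 1)}
    (h1 : ∀ y, 1 ≤ ‖y‖ → θ y = 0) {x a : E d} {s : ℝ} (hs : 1 < s) (ha : a ∈ BB d) :
    ‖gK (q + 2) θ (x, s, a)‖ₑ ≤ ENNReal.ofReal ((s - 1) ^ d) *
      (ENNReal.ofReal (4 * 4 ^ (q + 1) * 3 ^ (q + 3)) *
        (pw (q + 1) ‖cc x s a - x‖ * cn x (cc x s a) * ‖θ (cc x s a)‖ₑ) *
          pw (q + 1 + 2) (s - 1 + ‖cc x s a - x‖)) := by
  by_cases hy : ‖cc x s a‖ < 1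
  swap
  · simp [gK, h1 _ (not_lt.1 hy)]
  by_cases hxa : x - a = 0
  · simp [gK, hxa]
  obtain ⟨hx, hc⟩ := cn_cc hs ha hy
  have h3 : ‖a‖ ≤ 1 / 2 := mem_closedBall_zero_iff.1 ha
  have h4 : cc x s a - x = (s - 1) • (x - a) := by
    unfold cc
    module
  have h5 := norm_sub_le (cc x s a) x
  have h6 := norm_sub_le x a
  have hσ : 0 < s - 1 := by linarith
  have h7 : ‖cc x s a - x‖ = (s - 1) * ‖x - a‖ := by
    rw [h4, norm_smul, Real.norm_of_nonneg hσ.le]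
  have hl : 0 < ‖x - a‖ := norm_pos_iff.2 hxa
  obtain ⟨ρ, hρ⟩ : ∃ ρ, ρ = ‖cc x s a - x‖ := ⟨_, rfl⟩
  rw [← hρ] at h5 h7 ⊢
  have hρ0 : 0 < ρ := by rw [h7]; positivity
  rw [hc, mul_one, pw_pos _ hρ0, pw_pos _ (by positivity), ← ofReal_norm, ← ofReal_norm,
    ← ENNReal.ofReal_mul (by positivity), ← ENNReal.ofReal_mul (by positivity),
    ← ENNReal.ofReal_mul (by positivity), ← ENNReal.ofReal_mul (by positivity)]
  refine ENNReal.ofReal_le_ofReal ?_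
  have h8 : ‖gK (q + 2) θ (x, s, a)‖ ≤ s ^ (q + 2) * (‖θ (cc x s a)‖ * ‖x - a‖) := by
    rw [gK, norm_smul, Real.norm_of_nonneg (by positivity)]
    gcongr
    refine (ContinuousLinearMap.le_opNorm _ _).trans_eq ?_
    rw [cur_apply, norm_curryLeft]
  have h9 : s * ‖x - a‖ * (s * ρ) ^ (q + 1) * (s - 1 + ρ) ^ (q + 3) ≤
      4 * (4 * (s - 1)) ^ (q + 1) * (3 * (s - 1)) ^ (q + 3) := by
    have e1 : s * ‖x - a‖ ≤ 4 := by nlinarith
    have e2 : ρ ≤ 2 * (s - 1) := by nlinarith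
    have e3 : s * ρ ≤ 4 * (s - 1) := by nlinarith
    have e4 : s - 1 + ρ ≤ 3 * (s - 1) := by linarith
    gcongr
  refine h8.trans ?_
  rw [show (s - 1) ^ d = (s - 1) ^ (2 * q + 3 + 1) from congrArg _ hd, show ∀ A B C D F : ℝ, A * (B * (C⁻¹ * D) * F⁻¹) = D * (A * B / (C * F)) from
    fun A B C D F => by rw [div_eq_mul_inv, mul_inv]; ring, mul_left_comm]
  refine mul_le_mul_of_nonneg_left ?_ (norm_nonneg _)
  rw [le_div_iff₀ (by positivity)]
  refine le_trans (le_of_eq ?_) (h9.trans_eq ?_)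
  · ring
  · generalize s - 1 = u
    ring

lemma kk_bound {q : ℕ} (hd : d = 2 * q + 3 + 1) {θ : E d → Fm d (q + 2 + 1)} (hθ : Continuous θ)
    (h1 : ∀ y, 1 ≤ ‖y‖ → θ y = 0) (S : ℝ) (x : E d) :
    ‖KK S (q + 2) θ x‖ₑ ≤ ENNReal.ofReal (volume.real (BB d))⁻¹ *
      (ENNReal.ofReal (4 * 4 ^ (q + 1) * 3 ^ (q + 3)) *
        ∫⁻ y, pw (2 * q + 3) ‖y - x‖ * cn x y * ‖θ y‖ₑ) := by
  have hm : Measurable fun y => ‖θ y‖ₑ := hθ.enorm.measurable
  rw [KK, enorm_smul, Real.enorm_eq_ofReal (inv_nonneg.2 vol_BB_pos.le)]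
  refine mul_le_mul_right ((enorm_integral_le_lintegral_enorm _).trans ?_) _
  obtain ⟨c, hc⟩ : ∃ c, c = ENNReal.ofReal (4 * 4 ^ (q + 1) * 3 ^ (q + 3)) := ⟨_, rfl⟩
  rw [Measure.volume_eq_prod, ← Measure.prod_restrict]
  refine (lintegral_prod_le _).trans ?_
  rw [← restrict_Ioc_eq_restrict_Icc]
  refine (lintegral_mono_set Ioc_subset_Ioi_self).trans ?_
  have h2 : ∀ s ∈ Ioi (1 : ℝ), ∫⁻ a in BB d, ‖gK (q + 2) θ (x, s, a)‖ₑ ≤ ∫⁻ y,
      c * (pw (q + 1) ‖y - x‖ * cn x y * ‖θ y‖ₑ) * pw (q + 1 + 2) (s - 1 + ‖y - x‖) := by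
    intro s hs
    have hσ : 0 < s - 1 := sub_pos.2 hs
    have h3 := lintegral_affine (h := fun y => c * (pw (q + 1) ‖y - x‖ * cn x y * ‖θ y‖ₑ) *
      pw (q + 1 + 2) (s - 1 + ‖y - x‖)) (by fun_prop) (s • x) (r := 1 - s) (by linarith)
    rw [abs_sub_comm, abs_of_pos hσ] at h3
    refine (setLIntegral_mono' measurableSet_closedBall fun a ha => kk_pt hd h1 hs ha).trans
      ((setLIntegral_le_lintegral _ _).trans_eq ?_)
    have h4 : ∀ a, cc x s a = s • x + (1 - s) • a := fun a => by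
      unfold cc
      module
    simp only [h4]
    rw [lintegral_const_mul' _ _ ENNReal.ofReal_ne_top, ← hc, h3, ← mul_assoc,
      ← ENNReal.ofReal_mul (by positivity), mul_inv_cancel₀ (by positivity), ENNReal.ofReal_one,
      one_mul]
  refine (setLIntegral_mono' measurableSet_Ioi h2).trans ?_
  rw [lintegral_lintegral_swap (by fun_prop), ← hc, ← lintegral_const_mul _ (by fun_prop)]
  refine lintegral_mono fun y => ?_
  rw [lintegral_const_mul _ (by fun_prop)]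
  refine (mul_le_mul_right (tail (q + 1) 1 _) _).trans_eq ?_
  rw [show 2 * q + 3 = (q + 1) + (q + 1 + 1) by ring, pw_add (q + 1) (q + 1 + 1)]
  ring

lemma wedge_le (n : ℕ) : ∃ W : ℝ, 0 ≤ W ∧ ∀ a b c : Fm (n + n) n, wedge a a = 0 →
    ‖wedge (a + (b + c)) (a + (b + c))‖ ≤ W * (‖a‖ * ‖b‖ + ‖b‖ ^ 2) + W * (‖a‖ * ‖c‖ + ‖c‖ ^ 2) := by
  obtain ⟨W, hW, hb⟩ : ∃ W > 0, ∀ a b, ‖wedgeL n a b‖ ≤ W * ‖a‖ * ‖b‖ :=
    (wedgeL n).isBoundedBilinearMap.bound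
  refine ⟨2 * W, by positivity, fun a b c h => ?_⟩
  have h1 : wedge (a + (b + c)) (a + (b + c)) =
      wedgeL n a (b + c) + wedgeL n (b + c) a + wedgeL n (b + c) (b + c) := by
    rw [← wedgeL_apply, map_add (wedgeL n) a, _root_.add_apply, map_add _ a,
      map_add _ a, wedgeL_apply a a, h]
    ring
  have h2 := hb a (b + c)
  have h3 := hb (b + c) a
  have h4 := hb (b + c) (b + c)
  have h5 := norm_add_le b c
  have h6 : ‖a‖ * ‖b + c‖ ≤ ‖a‖ * ‖b‖ + ‖a‖ * ‖c‖ := by nlinarith [norm_nonneg a]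
  have h7 : ‖b + c‖ * ‖b + c‖ ≤ 2 * ‖b‖ ^ 2 + 2 * ‖c‖ ^ 2 := by
    nlinarith [norm_nonneg (b + c), sq_nonneg (‖b‖ - ‖c‖)]
  rw [h1]
  refine (norm_add₃_le).trans ?_
  nlinarith

theorem core (q : ℕ) : ∃ C : ℝ≥0∞, C ≠ ⊤ ∧
    ∀ (γ η : E (q + 2 + (q + 2)) → Fm (q + 2 + (q + 2)) (q + 2)) (R : ℝ) (A : ℝ≥0∞)
      (z : E (q + 2 + (q + 2)) → ℝ≥0∞), ContDiff ℝ ∞ γ → extDeriv γ = 0 → ContDiff ℝ ∞ η →
      1 / 2 ≤ R → (∀ x, R < ‖x‖ → γ x = η x) → (∀ x, wedge (η x) (η x) = 0) → A ≠ ⊤ →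
      Measurable z → (∀ y, z y ≤ 1) → (∀ y, 1 ≤ ‖y‖ → z y = 0) →
      (∀ x, ‖η x‖ₑ ≤ A * pw (q + 2) (1 - ‖x‖)) →
      (∀ y, ‖extDeriv η y‖ₑ ≤ A * (z y * pw (q + 3) (1 - ‖y‖))) → ∀ L : ℝ, 0 < L →
      ‖∫ x, wedge (γ x) (γ x)‖ₑ ≤ C * A ^ 2 * ((1 + (ENNReal.ofReal L + pw (2 * q + 2) L *
        ∫⁻ y, z y * pw (2 * q + 4) (1 - ‖y‖))) * ∫⁻ y, z y * pw (2 * q + 4) (1 - ‖y‖)) := by
  have hd : q + 2 + (q + 2) = 2 * q + 3 + 1 := by ring
  obtain ⟨C₂, hC₂, h₂⟩ := l2 q hd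
  obtain ⟨c, hc⟩ : ∃ c, c = ENNReal.ofReal (volume.real (BB (q + 2 + (q + 2))))⁻¹ *
    ENNReal.ofReal (4 * 4 ^ (q + 1) * 3 ^ (q + 3)) := ⟨_, rfl⟩
  obtain ⟨W, hW0, hW⟩ := wedge_le (q + 2)
  obtain ⟨C₁, hC₁⟩ : ∃ C₁, C₁ = ENNReal.ofReal (6 ^ (q + 2)) * surf (q + 2 + (q + 2)) univ :=
    ⟨_, rfl⟩
  have hc' : c ≠ ⊤ := by rw [hc]; finiteness
  refine ⟨ENNReal.ofReal W * (c * C₁ + c ^ 2 * C₂), by rw [hC₁]; finiteness,
    fun γ η R A z hγ h0 hη hR he hw hA hz hz1 hz0 b1 b2 L hL => ?_⟩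
  obtain ⟨N, hN⟩ : ∃ N, N = ∫⁻ y, z y * pw (2 * q + 4) (1 - ‖y‖) := ⟨_, rfl⟩
  have hbk := measurable_bk (m := 2 * q + 3) hz (q + 3)
  have hβ : ∀ S x, ‖KK S (q + 2) (extDeriv η) x‖ₑ ≤ c * A * bk (2 * q + 3) (q + 3) z x := by
    intro S x
    refine (kk_bound hd (extDeriv_smooth hη).continuous (fun y hy => ?_) S x).trans ?_
    · simpa [hz0 y hy] using b2 y
    · rw [← mul_assoc, ← hc, mul_assoc, bk, ← lintegral_const_mul' _ _ hA]
      refine mul_le_mul_right (lintegral_mono fun y => ?_) _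
      rw [mul_left_comm]
      exact mul_le_mul_right (b2 y) _
  have hX : ∀ S, ∫⁻ x, ENNReal.ofReal (W * (‖η x‖ * ‖KK S (q + 2) (extDeriv η) x‖ +
      ‖KK S (q + 2) (extDeriv η) x‖ ^ 2)) ≤ ENNReal.ofReal W * (c * C₁ + c ^ 2 * C₂) * A ^ 2 *
        ((1 + (ENNReal.ofReal L + pw (2 * q + 2) L * N)) * N) := by
    intro S
    have h1 : ∀ x, ENNReal.ofReal (W * (‖η x‖ * ‖KK S (q + 2) (extDeriv η) x‖ +
        ‖KK S (q + 2) (extDeriv η) x‖ ^ 2)) ≤ ENNReal.ofReal W * A ^ 2 *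
          (c * (pw (q + 2) (1 - ‖x‖) * bk (2 * q + 3) (q + 3) z x) +
            c ^ 2 * bk (2 * q + 3) (q + 3) z x ^ 2) := by
      intro x
      rw [ENNReal.ofReal_mul hW0, ENNReal.ofReal_add (by positivity) (by positivity),
        ENNReal.ofReal_mul (norm_nonneg _), ENNReal.ofReal_pow (norm_nonneg _), ofReal_norm,
        ofReal_norm]
      calc _ ≤ ENNReal.ofReal W * (A * pw (q + 2) (1 - ‖x‖) * (c * A * bk (2 * q + 3) (q + 3) z x)
            + (c * A * bk (2 * q + 3) (q + 3) z x) ^ 2) := by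
            gcongr
            exacts [b1 x, hβ S x, hβ S x]
        _ = _ := by ring
    refine (lintegral_mono h1).trans ?_
    have h3 := l1 hd q (q + 3) hz
    have h4 := h₂ z hz hz1 L hL
    rw [show q + 1 + (q + 3) = 2 * q + 4 by ring, ← hC₁, ← hN] at h3
    rw [← hN, pow_succ' L, ENNReal.ofReal_mul hL.le, mul_assoc, pow_mul_pw _ hL, mul_one] at h4
    rw [lintegral_const_mul _ (by fun_prop), lintegral_add_left (by fun_prop),
      lintegral_const_mul _ (by fun_prop), lintegral_const_mul _ (by fun_prop)]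
    calc _ ≤ ENNReal.ofReal W * A ^ 2 * (c * (C₁ * ((1 + (ENNReal.ofReal L +
            pw (2 * q + 2) L * N)) * N)) + c ^ 2 * (C₂ * ((1 + (ENNReal.ofReal L +
            pw (2 * q + 2) L * N)) * N))) := by
          gcongr
          · refine h3.trans (mul_le_mul_right ?_ _)
            rw [add_mul, one_mul]
            exact le_self_add
          · refine h4.trans (mul_le_mul_right ?_ _)
            rw [add_mul 1]
            exact le_add_self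
      _ = _ := by ring
  rw [← hN]
  have hδ : ContDiff ℝ ∞ (γ - η) := hγ.sub hη
  have hδ0 : ∀ x, R < ‖x‖ → (γ - η) x = 0 := fun x hx => sub_eq_zero.2 (he x hx)
  have hδi : Integrable (γ - η) :=
    hδ.continuous.integrable_of_hasCompactSupport (compact_of_zero hδ0)
  obtain ⟨M, hM⟩ := (isCompact_closedBall (0 : E (q + 2 + (q + 2))) R).exists_bound_of_continuousOn
    hη.continuous.continuousOn
  let e : ℝ → ℝ := fun v => (volume.real (BB (q + 2 + (q + 2))))⁻¹ * ((1 + v) * v) ^ (q + 2) *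
    ∫ y, ‖(γ - η) y‖
  have he0 : Tendsto (fun v => ENNReal.ofReal (W * (M * e v + e v ^ 2)) *
      volume (closedBall (0 : E (q + 2 + (q + 2))) R)) (𝓝[>] 0) (𝓝 0) := by
    have h1 : Continuous fun v => W * (M * e v + e v ^ 2) := by fun_prop
    have h2 := ENNReal.Tendsto.mul_const (b := volume (closedBall (0 : E (q + 2 + (q + 2))) R))
      (ENNReal.tendsto_ofReal ((h1.tendsto 0).mono_left (nhdsWithin_le_nhds (s := Ioi 0))))
      (Or.inr measure_closedBall_lt_top.ne)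
    simpa [e] using h2
  rw [← add_zero (_ * _)]
  refine ge_of_tendsto (tendsto_const_nhds.add he0) ?_
  filter_upwards [self_mem_nhdsWithin] with v hv
  have hv0 : (0 : ℝ) < v := hv
  have hS : 1 < 1 + v⁻¹ := by linarith [inv_pos.2 hv0]
  rw [wedge_eq (p := q + 1) hγ h0 hη hR he hw hS.le]
  refine (enorm_integral_le_lintegral_enorm _).trans (le_trans ?_ (add_le_add_left (hX (1 + v⁻¹)) _))
  rw [← setLIntegral_const, ← lintegral_indicator measurableSet_closedBall,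
    ← lintegral_add_right _ (measurable_const.indicator measurableSet_closedBall)]
  refine lintegral_mono fun x => ?_
  rw [← ofReal_norm]
  refine (ENNReal.ofReal_le_ofReal (hW _ _ _ (hw x))).trans (ENNReal.ofReal_add_le.trans ?_)
  refine add_le_add_right ?_ _
  by_cases hx : ‖x‖ ≤ R
  · have h1 := SS_bound hδ.continuous hδi hS x
    rw [show (1 + v⁻¹) ^ (q + 2) * ((1 + v⁻¹ - 1) ^ (q + 2 + (q + 2)))⁻¹ = ((1 + v) * v) ^ (q + 2) by
      rw [add_sub_cancel_left, inv_pow, inv_inv, pow_add v, ← mul_pow, ← mul_pow]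
      congr 1
      field_simp
      ring] at h1
    rw [indicator_of_mem (mem_closedBall_zero_iff.2 hx)]
    have h2 := hM x (mem_closedBall_zero_iff.2 hx)
    gcongr
    exact (norm_nonneg _).trans h2
  · simp [SS_zero hR hδ0 hS.le (not_le.1 hx)]

end Pool.Agent.MP_9fca84_an.H66
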