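import Pool.Agent.MP_9fca84_an.H66.Gap

/-!
Negative powers, polar coordinates and elementary integrals.
-/

open scoped ENNReal Topology
open MeasureTheory Metric Set Filter

noncomputable section

namespace Pool.Agent.MP_9fca84_an.H66

/-- The indicator of `a ≤ b`. -/
def le1 (a b : ℝ) : ℝ≥0∞ := if a ≤ b then 1 else 0

/-- The negative power `r ^ (-k)`, infinite for `r ≤ 0`. -/
def pw (k : ℕ) (r : ℝ) : ℝ≥0∞ := (ENNReal.ofReal r)⁻¹ ^ k

@[fun_prop]
lemma measurable_le1 {α : Type} [MeasurableSpace α] {f g : α → ℝ} (hf : Measurable f)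
    (hg : Measurable g) : Measurable fun x => le1 (f x) (g x) :=
  Measurable.ite (measurableSet_le hf hg) measurable_const measurable_const

@[fun_prop]
lemma measurable_pw {α : Type} [MeasurableSpace α] {f : α → ℝ} (k : ℕ) (hf : Measurable f) :
    Measurable fun x => pw k (f x) := by
  unfold pw
  fun_prop

lemma le1_le (a b : ℝ) : le1 a b ≤ 1 := by
  unfold le1
  split_ifs <;> simp

lemma le1_of {a b : ℝ} (h : a ≤ b) : le1 a b = 1 := if_pos h

lemma le1_not {a b : ℝ} (h : ¬a ≤ b) : le1 a b = 0 := if_neg h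

lemma pw_anti (k : ℕ) {r s : ℝ} (h : r ≤ s) : pw k s ≤ pw k r := by
  unfold pw
  gcongr

lemma pw_add (k l : ℕ) (r : ℝ) : pw (k + l) r = pw k r * pw l r := pow_add _ _ _

lemma pw_pos (k : ℕ) {r : ℝ} (h : 0 < r) : pw k r = ENNReal.ofReal (r ^ k)⁻¹ := by
  rw [pw, ← ENNReal.ofReal_inv_of_pos h, ← ENNReal.ofReal_pow (by positivity), inv_pow]

lemma pw_top (k : ℕ) {r : ℝ} (h : r ≤ 0) : pw (k + 1) r = ∞ := by
  simp [pw, ENNReal.ofReal_eq_zero.2 h]

lemma pw_mul (k : ℕ) {c : ℝ} (h : 0 < c) (r : ℝ) : pw k (c * r) = pw k c * pw k r := by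
  rw [pw, ENNReal.ofReal_mul h.le, ENNReal.mul_inv (Or.inl (by simpa using h))
    (Or.inl ENNReal.ofReal_ne_top), mul_pow, pw, pw]

lemma pw_le (k : ℕ) {c r s : ℝ} (h : 0 < c) (hs : s ≤ c * r) :
    pw k r ≤ ENNReal.ofReal (c ^ k) * pw k s := by
  have h1 : r = c⁻¹ * (c * r) := by field_simp
  rw [h1, pw_mul k (inv_pos.2 h), pw_pos k (inv_pos.2 h), inv_pow, inv_inv]
  gcongr
  exact pw_anti k hs

lemma pow_mul_pw (k : ℕ) {r : ℝ} (h : 0 < r) : ENNReal.ofReal (r ^ k) * pw k r = 1 := by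
  rw [pw_pos k h, ← ENNReal.ofReal_mul (by positivity), mul_inv_cancel₀ (by positivity),
    ENNReal.ofReal_one]

lemma pw_ne_top (k : ℕ) {r : ℝ} (h : 0 < r) : pw k r ≠ ∞ := by
  rw [pw_pos k h]
  exact ENNReal.ofReal_ne_top

lemma tail (b : ℕ) (a l : ℝ) : ∫⁻ r in Ioi a, pw (b + 2) (r - a + l) ≤ pw (b + 1) l := by
  rcases le_or_gt l 0 with hl | hl
  · simp [pw_top b hl]
  have hd : ∀ r ∈ Ici a, HasDerivAt (fun r => -((r - a + l) ^ (b + 1))⁻¹)
      ((b + 1) * ((r - a + l) ^ (b + 2))⁻¹) r := by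
    intro r hr
    have h0 : 0 < r - a + l := by linarith [mem_Ici.1 hr]
    have h1 := ((((hasDerivAt_id' r).sub_const a).add_const l).fun_pow (b + 1)).fun_inv
      (by positivity)
    refine h1.fun_neg.congr_deriv ?_
    simp only [Nat.add_sub_cancel]
    field_simp
    push_cast
    ring
  have hp : ∀ r ∈ Ioi a, 0 ≤ (b + 1) * ((r - a + l) ^ (b + 2))⁻¹ := by
    intro r hr
    have h0 : 0 < r - a + l := by linarith [mem_Ioi.1 hr]
    positivity
  have ht : Tendsto (fun r : ℝ => -((r - a + l) ^ (b + 1))⁻¹) atTop (𝓝 (-0)) := by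
    refine Tendsto.neg (Tendsto.inv_tendsto_atTop ?_)
    exact (tendsto_pow_atTop (by omega)).comp
      (tendsto_atTop_add_const_right _ _ (tendsto_atTop_add_const_right _ (-a) tendsto_id))
  have h2 := integral_Ioi_of_hasDerivAt_of_nonneg' hd hp ht
  have h3 := ofReal_integral_eq_lintegral_ofReal (integrableOn_Ioi_deriv_of_nonneg' hd hp ht)
    (by filter_upwards [ae_restrict_mem measurableSet_Ioi] with r hr using hp r hr)
  rw [h2] at h3
  rw [pw_pos _ hl]
  refine (setLIntegral_mono' measurableSet_Ioi fun r hr => ?_).trans (h3.symm.trans (by simp)).le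
  have h0 : 0 < r - a + l := by linarith [mem_Ioi.1 hr]
  rw [pw_pos _ h0]
  refine ENNReal.ofReal_le_ofReal (le_mul_of_one_le_left (by positivity) ?_)
  linarith [(Nat.cast_nonneg b : (0 : ℝ) ≤ b)]

lemma tail_abs (b : ℕ) (a l : ℝ) : ∫⁻ r, pw (b + 2) (|r - a| + l) ≤ 2 * pw (b + 1) l := by
  have h1 : ∫⁻ r in Ioi a, pw (b + 2) (|r - a| + l) ≤ pw (b + 1) l :=
    (setLIntegral_mono' measurableSet_Ioi fun r _ =>
      pw_anti _ (by linarith [le_abs_self (r - a)])).trans (tail b a l)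
  have h2 : ∫⁻ r in Iic a, pw (b + 2) (|r - a| + l) ≤ pw (b + 1) l := by
    rw [← restrict_Iio_eq_restrict_Iic, ← lintegral_indicator measurableSet_Iio,
      ← lintegral_neg_eq_self]
    refine le_trans (lintegral_mono fun r => ?_)
      ((lintegral_indicator measurableSet_Ioi _).trans_le (tail b (-a) l))
    by_cases h : -r < a
    · rw [indicator_of_mem (by exact h), indicator_of_mem (by simp; linarith)]
      exact pw_anti _ (by linarith [neg_le_abs (-r - a)])
    · rw [indicator_of_notMem (by exact h)]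
      exact zero_le
  rw [← lintegral_add_compl _ (measurableSet_Ioi (a := a)), compl_Ioi, two_mul]
  exact add_le_add h1 h2

instance (d : ℕ) : IsFiniteMeasure (surf d) := by
  unfold surf
  infer_instance

variable {d m : ℕ}

lemma polar0 (hd : d = m + 1) {H : E d → ℝ≥0∞} (hH : Measurable H) :
    ∫⁻ y, H y = ∫⁻ e, ∫⁻ r in Ioi (0 : ℝ), ENNReal.ofReal (r ^ m) * H (r • (e : E d)) ∂volume
      ∂surf d := by
  subst hd
  have h1 := (volume : Measure (E (m + 1))).measurePreserving_homeomorphUnitSphereProd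
    |>.lintegral_comp_emb (Homeomorph.measurableEmbedding _)
      fun p => H ((p.2 : ℝ) • (p.1 : E (m + 1)))
  have h2 : ∫⁻ y, H y = ∫⁻ y : ({0}ᶜ : Set (E (m + 1))), H y ∂(Measure.comap Subtype.val volume) := by
    rw [lintegral_subtype_comap (measurableSet_singleton _).compl, restrict_compl_singleton]
  rw [h2, (lintegral_congr fun a => ?_).trans h1, lintegral_prod _ (by fun_prop)]
  · refine lintegral_congr fun e => ?_
    rw [Measure.volumeIoiPow, lintegral_withDensity_eq_lintegral_mul _ (by fun_prop)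
      (by fun_prop), ← lintegral_subtype_comap measurableSet_Ioi]
    simp
  · have : ‖(a : E (m + 1))‖ ≠ 0 := norm_ne_zero_iff.2 a.2
    simp [smul_smul, this]

lemma polar (hd : d = m + 1) {H : E d → ℝ≥0∞} (hH : Measurable H) (x : E d) :
    ∫⁻ y, pw m ‖y - x‖ * H y = ∫⁻ e, ∫⁻ r in Ioi (0 : ℝ), H (x + r • (e : E d)) ∂volume
      ∂surf d := by
  rw [← lintegral_add_left_eq_self _ x, polar0 hd (by fun_prop)]
  refine lintegral_congr fun e => setLIntegral_congr_fun measurableSet_Ioi fun r hr => ?_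
  have h : (0 : ℝ) < r := hr
  simp only [add_sub_cancel_left, norm_smul, norm_eq_of_mem_sphere, mul_one,
    Real.norm_of_nonneg h.le]
  rw [← mul_assoc, pow_mul_pw m h, one_mul]

lemma riesz (hd : d = m + 1) (b : ℕ) (x : E d) (l : ℝ) :
    ∫⁻ y, pw m ‖y - x‖ * pw (b + 2) (‖y - x‖ + l) ≤ surf d univ * pw (b + 1) l := by
  rw [polar hd (by fun_prop), mul_comm, ← lintegral_const]
  refine lintegral_mono fun e => le_trans (le_of_eq ?_) (tail b 0 l)
  refine setLIntegral_congr_fun measurableSet_Ioi fun r hr => ?_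
  have h : (0 : ℝ) < r := hr
  simp [norm_smul, abs_of_pos h]

end Pool.Agent.MP_9fca84_an.H66
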