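import Pool.Agent.MP_9fca84_an.H66.Moll

/-!
The smooth extension to the whole space of a map between spheres.
-/

open scoped ContDiff ENNReal Topology unitInterval
open MeasureTheory Set Filter Metric

noncomputable section

namespace Pool.Agent.MP_9fca84_an.H66

variable {d k : ℕ}

lemma exists_W (e₀ : Sph d) {f g : SMap d k} (h : f.Homotopic g) : ∃ W : E d → Sph k,
    ContinuousOn W {0}ᶜ ∧ (∀ (e : Sph d) (r : ℝ), 0 < r → r ≤ 1 → W (r • (e : E d)) = f e) ∧
      ∀ (e : Sph d) (r : ℝ), 2 ≤ r → W (r • (e : E d)) = g e := by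
  classical
  obtain ⟨h⟩ := h
  let u : E d → Sph d := fun x => if hx : x = 0 then e₀ else ⟨‖x‖⁻¹ • x, by
    simp [norm_smul, hx]⟩
  have hu : ∀ (e : Sph d) (r : ℝ), 0 < r → u (r • (e : E d)) = e := by
    intro e r hr
    have h0 : r • (e : E d) ≠ 0 := smul_ne_zero hr.ne' (ne_zero_of_mem_unit_sphere e)
    simp only [u, dif_neg h0]
    ext1
    simp [norm_smul, abs_of_pos hr, smul_smul, hr.ne']
  have hc : ContinuousOn u {0}ᶜ := by
    rw [Topology.IsInducing.subtypeVal.continuousOn_iff]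
    refine ContinuousOn.congr (f := fun x : E d => ‖x‖⁻¹ • x)
      ((continuous_norm.continuousOn.inv₀ fun x hx => norm_ne_zero_iff.2 hx).smul continuousOn_id)
      fun x hx => ?_
    simp only [u, Function.comp, dif_neg (show x ≠ 0 from hx)]
  have hn : ∀ (e : Sph d) (r : ℝ), 0 < r → ‖r • (e : E d)‖ = r := fun e r hr => by
    simp [norm_smul, abs_of_pos hr]
  refine ⟨fun x => h (projIcc 0 1 zero_le_one (‖x‖ - 1), u x), ?_, fun e r h0 h1 => ?_,
    fun e r h2 => ?_⟩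
  · exact h.continuous.comp_continuousOn
      ((continuous_projIcc.comp (by fun_prop)).continuousOn.prodMk hc)
  · simp only
    rw [hu e r h0, hn e r h0, projIcc_of_le_left _ (by linarith)]
    exact h.apply_zero e
  · simp only
    rw [hu e r (by linarith), hn e r (by linarith), projIcc_of_right_le _ (by linarith)]
    exact h.apply_one e

lemma exists_tau (d : ℕ) {c : ℝ} (hc : 0 < c) : ∃ τ : E d → ℝ, ContDiff ℝ ∞ τ ∧ (∀ x, 0 < τ x) ∧
    (∀ x, (1 - ‖x‖ ^ 2) / 8 ≤ τ x) ∧ (∀ x, τ x ≤ max ((1 - ‖x‖ ^ 2) / 8) 0 + c / 2) ∧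
    ∀ x, ‖x‖ ≤ 1 → ‖fderiv ℝ τ x‖ ≤ 1 := by
  have h1 : ∀ u : ℝ, |u| < √(u ^ 2 + c ^ 2) := fun u =>
    Real.lt_sqrt_of_sq_lt (by rw [sq_abs]; nlinarith)
  have h2 : ∀ u : ℝ, √(u ^ 2 + c ^ 2) ≤ |u| + c := fun u =>
    Real.sqrt_le_iff.2 ⟨by positivity, by nlinarith [sq_abs u, abs_nonneg u]⟩
  have hφ : ContDiff ℝ ∞ fun u : ℝ => (u + √(u ^ 2 + c ^ 2)) / 2 :=
    (contDiff_id.add (ContDiff.sqrt (by fun_prop) fun u => by positivity)).div_const 2
  have hu : ContDiff ℝ ∞ fun x : E d => (1 - ‖x‖ ^ 2) / 8 :=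
    (contDiff_const.sub (contDiff_norm_sq ℝ)).div_const 8
  refine ⟨_, hφ.comp hu, fun x => ?_, fun x => ?_, fun x => ?_, fun x hx => ?_⟩
  · have := h1 ((1 - ‖x‖ ^ 2) / 8)
    have := neg_abs_le ((1 - ‖x‖ ^ 2) / 8)
    simp only [Function.comp]
    linarith
  · have := h1 ((1 - ‖x‖ ^ 2) / 8)
    have := le_abs_self ((1 - ‖x‖ ^ 2) / 8)
    simp only [Function.comp]
    linarith
  · have := h2 ((1 - ‖x‖ ^ 2) / 8)
    simp only [Function.comp]
    rcases le_total ((1 - ‖x‖ ^ 2) / 8) 0 with h | h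
    · rw [max_eq_right h]
      rw [abs_of_nonpos h] at this
      linarith
    · rw [max_eq_left h]
      rw [abs_of_nonneg h] at this
      linarith
  · obtain ⟨u, hu'⟩ : ∃ u, u = (1 - ‖x‖ ^ 2) / 8 := ⟨_, rfl⟩
    have h3 : HasDerivAt (fun u : ℝ => (u + √(u ^ 2 + c ^ 2)) / 2)
        ((1 + u / √(u ^ 2 + c ^ 2)) / 2) u := by
      refine (((hasDerivAt_id' u).fun_add (((hasDerivAt_pow 2 u).add_const (c ^ 2)).sqrt
        (by positivity))).div_const 2).congr_deriv ?_
      field_simp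
      simp
      ring
    have h4 := (((hasStrictFDerivAt_norm_sq x).hasFDerivAt.const_sub 1).const_mul (1 / 8 : ℝ))
    have h5 : HasFDerivAt (fun x : E d => (1 - ‖x‖ ^ 2) / 8) _ x :=
      h4.congr_of_eventuallyEq (Eventually.of_forall fun y => by ring)
    rw [hu'] at h3
    rw [(h3.comp_hasFDerivAt x h5).fderiv, ← hu', norm_smul, norm_smul, norm_neg, two_smul]
    have h6 := norm_add_le (innerSL ℝ x) (innerSL ℝ x)
    rw [innerSL_apply_norm] at h6
    have h7 : |u / √(u ^ 2 + c ^ 2)| ≤ 1 := by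
      rw [abs_div, abs_of_nonneg (Real.sqrt_nonneg _)]
      exact div_le_one_of_le₀ (h1 u).le (Real.sqrt_nonneg _)
    have h8 : ‖(1 + u / √(u ^ 2 + c ^ 2)) / 2‖ ≤ 1 := by
      rw [Real.norm_eq_abs, abs_le] at *
      constructor <;> linarith [h7.1, h7.2]
    refine mul_le_one₀ h8 (by positivity) ?_
    rw [Real.norm_of_nonneg (by norm_num)]
    linarith

theorem extend (d : ℕ) : ∃ M : ℝ, 0 < M ∧ ∀ (k : ℕ) (W : E d → Sph k) (G : E d → E k),
    ContinuousOn W {0}ᶜ → ContDiffOn ℝ ∞ G {0}ᶜ → (∀ x, 2 ≤ ‖x‖ → G x = W x) →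
    ∃ F : E d → E k, ContDiff ℝ ∞ F ∧ (∀ x, 4 ≤ ‖x‖ → F x = G x) ∧
      (∀ x, ‖x‖ < 1 → ‖F x‖ ≤ 1 ∧ ‖fderiv ℝ F x‖ ≤ M * (1 - ‖x‖)⁻¹) ∧
      ∀ x, ‖F x‖ ≤ 1 / 2 → ‖x‖ < 1 ∧
        ∃ P : Measure (E d), IsProbabilityMeasure P ∧ F x = ∫ y, (W y : E k) ∂P ∧
          ∀ H : E d → ℝ≥0∞, Measurable H → ∫⁻ y, H y ∂P ≤ ENNReal.ofReal M * pw d (1 - ‖x‖) *
            ∫⁻ y in closedBall x ((1 - ‖x‖) / 2), H y := by
  obtain ⟨M, hM, hm⟩ := moll d
  refine ⟨M * 8 ^ (d + 1), by positivity, fun k W G hW hG hGW => ?_⟩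
  have hWm : Measurable W := measurable_of_continuousOn_compl_singleton 0 hW
  have hK : IsCompact (closedBall (0 : E d) 6 \ ball 0 (1 / 4)) :=
    (isCompact_closedBall _ _).diff isOpen_ball
  obtain ⟨c₀, hc₀, hc⟩ := Metric.uniformContinuousOn_iff_le.1 (hK.uniformContinuousOn_of_continuous
    (hW.mono fun x hx h0 => hx.2 (by rw [show x = 0 from h0]; simp))) (1 / 4) (by norm_num)
  obtain ⟨c, hc0, hc1, hc2⟩ : ∃ c, 0 < c ∧ c ≤ c₀ ∧ c ≤ 1 / 16 :=
    ⟨min c₀ (1 / 16), by positivity, min_le_left _ _, min_le_right _ _⟩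
  obtain ⟨τ, hτ, t0, t1, t2, t3⟩ := exists_tau d hc0
  obtain ⟨G₁, hG₁, h1⟩ := hm k W τ hWm hτ t0 fun x _ => (t2 x).trans (by
    have : max ((1 - ‖x‖ ^ 2) / 8) 0 ≤ 1 / 8 :=
      max_le (by nlinarith [sq_nonneg ‖x‖]) (by norm_num)
    linarith)
  have hi : ∀ (P : Measure (E d)) [IsProbabilityMeasure P], Integrable (fun y => (W y : E k)) P :=
    fun P _ => Integrable.of_bound (by fun_prop : Measurable _).aestronglyMeasurable 1
      (Eventually.of_forall fun y => (norm_eq_of_mem_sphere _).le)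
  have h2 : ∀ x, 1 / 2 ≤ ‖x‖ → ‖x‖ ≤ 5 → τ x ≤ c → ‖G₁ x - W x‖ ≤ 1 / 4 := by
    intro x hx hx' hx''
    obtain ⟨-, P, hP, e1, e2⟩ := h1 x hx'
    have e3 : ∀ᵐ y ∂P, y ∈ closedBall x (τ x) := by
      have := e2 _ (measurable_one.indicator (measurableSet_closedBall (x := x) (ε := τ x)).compl)
      rw [lintegral_indicator_one measurableSet_closedBall.compl,
        lintegral_indicator_one measurableSet_closedBall.compl,
        Measure.restrict_apply measurableSet_closedBall.compl] at this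
      exact (by simpa using this : P (closedBall x (τ x))ᶜ = 0)
    rw [e1, show (W x : E k) = ∫ _, (W x : E k) ∂P by simp, ← integral_sub (hi P) (by simp)]
    refine (norm_integral_le_of_norm_le_const (C := 1 / 4) ?_).trans (by simp)
    filter_upwards [e3] with y hy
    rw [mem_closedBall] at hy
    have e4 := abs_le.1 ((abs_norm_sub_norm_le y x).trans_eq (dist_eq_norm y x).symm)
    rw [← dist_eq_norm]
    refine hc y ⟨?_, ?_⟩ x ⟨?_, ?_⟩ (by linarith) <;> simp <;> linarith [e4.1, e4.2]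
  let χ : ContDiffBump (0 : E d) := ⟨3, 4, by norm_num, by norm_num⟩
  have c1 : ∀ x, ‖x‖ ≤ 3 → χ x = 1 := fun x hx => χ.one_of_mem_closedBall (by simpa using hx)
  have c0 : ∀ x, 4 ≤ ‖x‖ → χ x = 0 := fun x hx => χ.zero_of_le_dist (by simpa using hx)
  have hF : ∀ x, ‖x‖ < 3 → (fun x => χ x • G₁ x + (1 - χ x) • G x) =ᶠ[𝓝 x] G₁ := fun x hx => by
    filter_upwards [(isOpen_lt continuous_norm continuous_const).mem_nhds hx] with y hy
    simp [c1 y (le_of_lt hy)]
  have h8 : (8 : ℝ) ≤ 8 ^ (d + 1) := le_self_pow₀ (by norm_num) (by simp)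
  refine ⟨fun x => χ x • G₁ x + (1 - χ x) • G x, contDiff_iff_contDiffAt.2 fun x => ?_,
    fun x hx => by simp [c0 x hx], fun x hx => ?_, fun x hx => ?_⟩
  · by_cases hx : x = 0
    · exact hG₁.contDiffAt.congr_of_eventuallyEq (hF x (by simp [hx]))
    · exact (χ.contDiffAt.smul hG₁.contDiffAt).add ((contDiffAt_const.sub χ.contDiffAt).smul
        (hG.contDiffAt (isOpen_compl_singleton.mem_nhds hx)))
  · obtain ⟨e0, P, hP, e1, -⟩ := h1 x (by linarith)
    rw [(hF x (by linarith)).fderiv_eq]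
    refine ⟨?_, (e0 (t3 x hx.le)).trans ?_⟩
    · beta_reduce
      rw [(hF x (by linarith)).eq_of_nhds.trans e1]
      exact (norm_integral_le_of_norm_le_const (C := 1)
        (Eventually.of_forall fun y => (norm_eq_of_mem_sphere _).le)).trans (by simp)
    · have e2 : (1 - ‖x‖) / 8 ≤ τ x := le_trans (by nlinarith [norm_nonneg x]) (t1 x)
      have e3 := inv_anti₀ (by linarith) e2
      rw [inv_div, div_eq_mul_inv] at e3
      have e4 : 0 < (1 - ‖x‖)⁻¹ := inv_pos.2 (by linarith)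
      rw [mul_assoc]
      exact mul_le_mul_of_nonneg_left (e3.trans (by gcongr)) hM.le
  · have e0 : ‖x‖ < 1 / 2 ∨ c < τ x := by
      beta_reduce at hx
      by_contra hno
      rw [not_or, not_lt, not_lt] at hno
      have e1 : ‖(W x : E k)‖ = 1 := norm_eq_of_mem_sphere _
      rcases le_total 4 ‖x‖ with e2 | e2
      · rw [c0 x e2, hGW x (by linarith)] at hx
        simp only [zero_smul, sub_zero, one_smul, zero_add, e1] at hx
        linarith
      have e3 := h2 x hno.1 (by linarith) hno.2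
      have e4 : χ x • G₁ x + (1 - χ x) • G x = W x + χ x • (G₁ x - W x) := by
        rcases le_total 2 ‖x‖ with e5 | e5
        · rw [hGW x e5]
          module
        · simp [c1 x (by linarith)]
      have e5 := norm_sub_le (W x + χ x • (G₁ x - W x)) (χ x • (G₁ x - W x))
      rw [add_sub_cancel_right, e1, ← e4, norm_smul, Real.norm_of_nonneg χ.nonneg] at e5
      have e6 := mul_le_of_le_one_left (norm_nonneg (G₁ x - W x)) (χ.le_one (x := x))
      linarith
    have e1 : c / 2 < (1 - ‖x‖ ^ 2) / 8 := by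
      rcases e0 with e0 | e0
      · nlinarith [norm_nonneg x]
      · have := t2 x
        rcases le_total ((1 - ‖x‖ ^ 2) / 8) 0 with h | h
        · rw [max_eq_right h] at this
          linarith
        · rw [max_eq_left h] at this
          linarith
    have e2 : ‖x‖ < 1 := by nlinarith [norm_nonneg x]
    have e3 : τ x ≤ (1 - ‖x‖) / 2 := by
      have := t2 x
      rw [max_eq_left (by linarith)] at this
      nlinarith [norm_nonneg x]
    have e4 : 1 - ‖x‖ ≤ 8 * τ x := by nlinarith [norm_nonneg x, t1 x]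
    obtain ⟨-, P, hP, e5, e6⟩ := h1 x (by linarith)
    refine ⟨e2, P, hP, (hF x (by linarith)).eq_of_nhds.trans e5, fun H hH => (e6 H hH).trans ?_⟩
    refine mul_le_mul' ?_ (lintegral_mono_set (closedBall_subset_closedBall e3))
    rw [ENNReal.ofReal_mul hM.le, mul_assoc]
    refine mul_le_mul_right ((pw_le d (by norm_num) e4).trans ?_) _
    gcongr
    · norm_num
    · simp

end Pool.Agent.MP_9fca84_an.H66
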