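import Mathlib

/-!
Spheres and the gap potential.
-/

open scoped ENNReal
open MeasureTheory Metric

noncomputable section

namespace Pool.Agent.MP_9fca84_an.H66

/-- Euclidean space of dimension `d`. -/
abbrev E (d : ℕ) := EuclideanSpace ℝ (Fin d)

/-- The unit sphere of `E d`, of dimension `d - 1`. -/
abbrev Sph (d : ℕ) := sphere (0 : E d) 1

/-- Continuous maps between unit spheres. -/
abbrev SMap (d k : ℕ) := C(Sph d, Sph k)

/-- The surface measure of the unit sphere. -/
def surf (d : ℕ) : Measure (Sph d) := (volume : Measure (E d)).toSphere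

/-- The gap potential of a map from the sphere of dimension `d - 1`. -/
def gap {d k : ℕ} (ε : ℝ) (f : SMap d k) : ℝ≥0∞ :=
  ∫⁻ p in {p : Sph d × Sph d | ε ≤ dist (f p.1) (f p.2)},
    ENNReal.ofReal (1 / dist p.1 p.2 ^ (2 * (d - 1))) ∂((surf d).prod (surf d))

end Pool.Agent.MP_9fca84_an.H66
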