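import Pool.Agent.MP_9fca84_an.H66.Gap

/-!
The Hopf invariant through Whitehead's integral formula.
-/

open scoped ContDiff
open MeasureTheory Metric

noncomputable section

namespace Pool.Agent.MP_9fca84_an.H66

/-- Real alternating `k`-forms on `E d`. -/
abbrev Fm (d k : ℕ) := E d [⋀^Fin k]→L[ℝ] ℝ

/-- The standard basis of `E (n + n)`, indexed by two copies of `Fin n`. -/
def bas (n : ℕ) (i : Fin n ⊕ Fin n) : E (n + n) := EuclideanSpace.single (finSumFinEquiv i) 1

/-- The value of the wedge product of two `n`-forms on the standard basis of `E (n + n)`. -/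
def wedge {n : ℕ} (a b : Fm (n + n) n) : ℝ :=
  ((n.factorial * n.factorial : ℕ) : ℝ)⁻¹ * ∑ σ : Equiv.Perm (Fin n ⊕ Fin n),
    ((Equiv.Perm.sign σ : ℤ) : ℝ) *
      (a (fun i => bas n (σ (.inl i))) * b fun i => bas n (σ (.inr i)))

/-- The pullback along `G` of the volume form of total mass one of the unit sphere of
`E (n + 1)`, at the point `x` and on the vectors `v`. -/
def pullVol {d n : ℕ} (G : E d → E (n + 1)) (x : E d) (v : Fin n → E d) : ℝ :=
  ((surf (n + 1)).real Set.univ)⁻¹ *
    (Matrix.of fun i j => Matrix.vecCons (G x) (fun l => fderiv ℝ G x (v l)) i j).det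

/-- `k` is the Hopf invariant of `f`: the map `f` is homotopic to a smooth map `g`, with
`0`-homogeneous extension `G`, and `k` is the integral of `γ ∧ γ` over the unit ball for a smooth
closed `n`-form `γ` on the whole space that equals the pullback of the normalized volume form
along `G` outside the open unit ball. -/
def IsHopf {n : ℕ} (f : SMap (n + n) (n + 1)) (k : ℤ) : Prop :=
  ∃ (g : SMap (n + n) (n + 1)) (G : E (n + n) → E (n + 1)) (γ : E (n + n) → Fm (n + n) n),
    f.Homotopic g ∧ (∀ (y : Sph (n + n)) (t : ℝ), 0 < t → G (t • (y : E (n + n))) = g y) ∧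
    ContDiffOn ℝ ∞ G {0}ᶜ ∧ ContDiff ℝ ∞ γ ∧ extDeriv γ = 0 ∧
    (∀ x, 1 ≤ ‖x‖ → ∀ v, γ x v = pullVol G x v) ∧
    (k : ℝ) = ∫ x in ball 0 1, wedge (γ x) (γ x)

end Pool.Agent.MP_9fca84_an.H66
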