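import Pool.Agent.MP_9fca84_an.H66.Pull

/-!
The Hopf fibration has Hopf invariant one.
-/

open scoped ContDiff Topology Real
open Equiv MeasureTheory Set Filter Metric ContinuousAlternatingMap

noncomputable section

namespace Pool.Agent.MP_9fca84_an.H66

lemma perm4 (A : Fin 4 → Fin 4 → ℝ) (h : ∀ i j, A j i = -A i j) :
    ∑ σ : Perm (Fin 4), ((Perm.sign σ : ℤ) : ℝ) * (A (σ 0) (σ 1) * A (σ 2) (σ 3)) =
      8 * (A 0 1 * A 2 3 - A 0 2 * A 1 3 + A 0 3 * A 1 2) := by
  have h2 : ∀ (p : Fin 4) (e : Perm (Fin 3)), Perm.decomposeFin.symm (p, e) 2 =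
      swap 0 p (e 1).succ := fun p e => Perm.decomposeFin_symm_apply_succ e p 1
  have h3 : ∀ (p : Fin 4) (e : Perm (Fin 3)), Perm.decomposeFin.symm (p, e) 3 =
      swap 0 p (e 2).succ := fun p e => Perm.decomposeFin_symm_apply_succ e p 2
  have h4 : ∀ (p : Fin 3) (e : Perm (Fin 2)), Perm.decomposeFin.symm (p, e) 2 =
      swap 0 p (e 1).succ := fun p e => Perm.decomposeFin_symm_apply_succ e p 1
  simp only [← Perm.decomposeFin.symm.sum_comp, Fintype.sum_prod_type, Perm.decomposeFin.symm_sign,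
    Perm.decomposeFin_symm_apply_zero, Perm.decomposeFin_symm_apply_one, h2, h3, h4,
    Fin.sum_univ_four, Fin.sum_univ_three, Fin.sum_univ_two]
  simp [swap_apply_def, h 0 1, h 0 2, h 0 3, h 1 2, h 1 3, h 2 3]
  ring

lemma wedge2 (a : Fm 4 2) (A : E 4 → E 4 → ℝ) (hA : ∀ v, a v = A (v 0) (v 1))
    (h : ∀ v w, A w v = -A v w) : wedge (n := 2) a a = 2 *
      (A (.single 0 1) (.single 1 1) * A (.single 2 1) (.single 3 1) -
        A (.single 0 1) (.single 2 1) * A (.single 1 1) (.single 3 1) +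
        A (.single 0 1) (.single 3 1) * A (.single 1 1) (.single 2 1)) := by
  have h1 := perm4 (fun i j => A (.single i 1) (.single j 1)) fun i j => h _ _
  rw [← (finSumFinEquiv (m := 2) (n := 2)).permCongr.sum_comp] at h1
  unfold wedge
  rw [Finset.sum_congr rfl fun σ _ => ?_, h1]
  · norm_num
    ring
  rw [Perm.sign_permCongr, hA, hA]
  rfl

/-- A coordinate function. -/
abbrev pr (i : Fin 4) : E 4 →L[ℝ] ℝ := EuclideanSpace.proj i

/-- The standard symplectic form. -/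
def om : E 4 →L[ℝ] E 4 →L[ℝ] ℝ :=
  (pr 0).smulRight (pr 1) - (pr 1).smulRight (pr 0) + (pr 2).smulRight (pr 3) -
    (pr 3).smulRight (pr 2)

lemma om_apply (x y : E 4) : om x y = x 0 * y 1 - x 1 * y 0 + x 2 * y 3 - x 3 * y 2 := by
  simp [om]

/-- A bilinear map whose diagonal is the Hopf map. -/
def hq : E 4 →L[ℝ] E 4 →L[ℝ] E 3 :=
  (pr 0).smulRight ((pr 2).smulRight (.single 0 2) - (pr 3).smulRight (.single 1 2) +
      (pr 0).smulRight (.single 2 1)) +
    (pr 1).smulRight ((pr 3).smulRight (.single 0 2) + (pr 2).smulRight (.single 1 2) +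
      (pr 1).smulRight (.single 2 1)) -
    (pr 2).smulRight ((pr 2).smulRight (.single 2 1)) -
    (pr 3).smulRight ((pr 3).smulRight (.single 2 1))

lemma hq_apply (x y : E 4) : hq x y 0 = 2 * (x 0 * y 2 + x 1 * y 3) ∧
    hq x y 1 = 2 * (x 1 * y 2 - x 0 * y 3) ∧
      hq x y 2 = x 0 * y 0 + x 1 * y 1 - x 2 * y 2 - x 3 * y 3 := by
  refine ⟨?_, ?_, ?_⟩ <;> simp [hq] <;> ring

lemma inner4 (x y : E 4) : inner ℝ x y = x 0 * y 0 + x 1 * y 1 + x 2 * y 2 + x 3 * y 3 := by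
  simp [PiLp.inner_apply, Fin.sum_univ_four, mul_comm]

lemma nsq4 (x : E 4) : ‖x‖ ^ 2 = x 0 * x 0 + x 1 * x 1 + x 2 * x 2 + x 3 * x 3 := by
  rw [← real_inner_self_eq_norm_sq, inner4]

lemma norm_hq (x : E 4) : ‖hq x x‖ = ‖x‖ ^ 2 := by
  rw [← sq_eq_sq₀ (norm_nonneg _) (by positivity), EuclideanSpace.real_norm_sq_eq,
    Fin.sum_univ_three, (hq_apply x x).1, (hq_apply x x).2.1, (hq_apply x x).2.2, nsq4]
  ring

/-- The Hopf fibration. -/
def hopfMap : SMap 4 3 :=
  ⟨fun x => ⟨hq x x, by simp [norm_hq]⟩, by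
    refine Continuous.subtype_mk ?_ _
    exact (hq.continuous.comp continuous_subtype_val).clm_apply continuous_subtype_val⟩

theorem isHopf_hopfMap : IsHopf (n := 2) hopfMap 1 := by
  let φ : ℝ → ℝ := fun s => s / (s ^ 2 + expNegInvGlue (1 / 2 - s))
  have hφ : ContDiff ℝ ∞ φ := by
    refine contDiff_id.div ((contDiff_id.pow 2).add
      (expNegInvGlue.contDiff.comp (contDiff_const.sub contDiff_id))) fun s => ?_
    by_cases h : s = 0
    · simp [h]
    · exact (add_pos_of_pos_of_nonneg (by positivity) (expNegInvGlue.nonneg _)).ne'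
  have hφ1 : ∀ s, 1 ≤ s → φ =ᶠ[𝓝 s] fun s => s⁻¹ := fun s hs => by
    filter_upwards [Ioi_mem_nhds (show 1 / 2 < s by linarith)] with t ht
    have h : 1 / 2 < t := ht
    simp only [φ]
    rw [expNegInvGlue.zero_of_nonpos (by linarith), add_zero]
    field_simp
  have hφd : ∀ s, HasDerivAt φ (deriv φ s) s := fun s =>
    (hφ.differentiable (by simp) s).hasDerivAt
  let L := (ofSubsingletonLIE (𝕜 := ℝ) (E := E 4) (F := ℝ) (0 : Fin 1)).toContinuousLinearEquiv
  let α : E 4 → Fm 4 1 := fun x => L ((-(2 * π)⁻¹ * φ (‖x‖ ^ 2)) • om x)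
  have hα : ContDiff ℝ ∞ α := L.contDiff.comp
    ((contDiff_const.mul (hφ.comp (contDiff_norm_sq ℝ))).smul om.contDiff)
  have hγ : ∀ x v, extDeriv α x v = -(2 * π)⁻¹ * (2 * φ (‖x‖ ^ 2) * om (v 0) (v 1) +
      2 * deriv φ (‖x‖ ^ 2) * (inner ℝ x (v 0) * om x (v 1) - inner ℝ x (v 1) * om x (v 0))) := by
    intro x v
    have h1 := L.hasFDerivAt.comp x ((((hφd (‖x‖ ^ 2)).comp_hasFDerivAt x
      (hasStrictFDerivAt_norm_sq x).hasFDerivAt).const_mul (-(2 * π)⁻¹)).smul om.hasFDerivAt)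
    rw [extDeriv, show fderiv ℝ α x = _ from h1.fderiv, alternatizeUncurryFin_apply,
      Fin.sum_univ_two]
    simp [L, Fin.removeNth, Fin.tail, om_apply]
    ring
  refine ⟨hopfMap, fun x => (‖x‖ ^ 2)⁻¹ • hq x x, extDeriv α, .refl _, fun y t ht => ?_, ?_,
    extDeriv_smooth hα, extDeriv_extDeriv hα two_le, fun x hx v => ?_, ?_⟩
  · simp only [map_smul, _root_.smul_apply, smul_smul, norm_smul,
      norm_eq_of_mem_sphere, mul_one, Real.norm_of_nonneg ht.le]
    rw [← sq, inv_mul_cancel₀ (by positivity), one_smul]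
    rfl
  · refine ((contDiff_norm_sq ℝ).contDiffOn.inv fun x hx => ?_).smul
      (hq.contDiff.clm_apply contDiff_id).contDiffOn
    exact pow_ne_zero 2 (norm_ne_zero_iff.2 hx)
  · have h0 : 1 ≤ ‖x‖ ^ 2 := one_le_pow₀ hx
    have h1 := ((hasDerivAt_inv (by positivity : ‖x‖ ^ 2 ≠ 0)).comp_hasFDerivAt x
      (hasStrictFDerivAt_norm_sq x).hasFDerivAt).smul
        (hq.hasFDerivAt.clm_apply (hasFDerivAt_id x))
    have h2 : ∀ w, fderiv ℝ (fun x : E 4 => (‖x‖ ^ 2)⁻¹ • hq x x) x w =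
        (‖x‖ ^ 2)⁻¹ • (hq w x + hq x w) + (-((‖x‖ ^ 2) ^ 2)⁻¹ * (2 * inner ℝ x w)) • hq x x := by
      intro w
      rw [show fderiv ℝ (fun x : E 4 => (‖x‖ ^ 2)⁻¹ • hq x x) x = _ from h1.fderiv]
      simp [add_comm]
    have h3 : (surf (2 + 1)).real univ = 4 * π := by
      rw [surf, Measure.toSphere_real_apply_univ, measureReal_def,
        EuclideanSpace.volume_ball_fin_three]
      simp [ENNReal.toReal_ofReal (show 0 ≤ π * 4 / 3 by positivity)]
      ring
    rw [hγ, pullVol, Matrix.det_fin_three, h3, (hφ1 _ h0).deriv_eq, (hφ1 _ h0).eq_of_nhds,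
      deriv_inv]
    simp only [Matrix.of_apply, Matrix.cons_val_zero, Matrix.cons_val_one, Matrix.cons_val_two,
      Matrix.vecHead, Matrix.vecTail, Function.comp, Fin.succ_zero_eq_one, h2, PiLp.add_apply,
      PiLp.smul_apply, smul_eq_mul, hq_apply, om_apply, inner4]
    have h4 := nsq4 x
    obtain ⟨s, hs⟩ : ∃ s, s = ‖x‖ ^ 2 := ⟨_, rfl⟩
    rw [← hs] at h0 h4 ⊢
    have h5 : s ≠ 0 := by positivity
    field_simp
    rw [h4]
    ring
  · let F : ℝ → ℝ := fun r => ((2 * π)⁻¹) ^ 2 * (8 * φ (r ^ 2) ^ 2 +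
      8 * r ^ 2 * φ (r ^ 2) * deriv φ (r ^ 2))
    have h1 : ∀ x : E 4, wedge (n := 2) (extDeriv α x) (extDeriv α x) = F ‖x‖ := fun x => by
      rw [wedge2 _ (fun v w => -(2 * π)⁻¹ * (2 * φ (‖x‖ ^ 2) * om v w + 2 * deriv φ (‖x‖ ^ 2) *
        (inner ℝ x v * om x w - inner ℝ x w * om x v))) (hγ x)
          fun v w => by simp only [om_apply]; ring]
      simp only [F, om_apply, inner4]
      rw [show 8 * ‖x‖ ^ 2 = 8 * (x 0 * x 0 + x 1 * x 1 + x 2 * x 2 + x 3 * x 3) by rw [nsq4]]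
      simp
      ring
    have h2 : ∫ x in ball (0 : E 4) 1, F ‖x‖ = ∫ x : E 4, (Iio 1).indicator F ‖x‖ := by
      rw [← integral_indicator measurableSet_ball]
      simp [indicator]
    have h3 : ∀ r, HasDerivAt (fun r => ((2 * π)⁻¹) ^ 2 * (2 * r ^ 4 * φ (r ^ 2) ^ 2))
        (r ^ 3 * F r) r := fun r => by
      refine ((((hasDerivAt_pow 4 r).const_mul 2).fun_mul (((hφd (r ^ 2)).comp r
        (hasDerivAt_pow 2 r)).fun_pow 2)).const_mul _).congr_deriv ?_
      simp [F]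
      ring
    have h4 : Continuous F := by
      have := hφ.continuous
      have := hφ.continuous_deriv (by simp)
      fun_prop
    have h5 : ∫ r in Ioi (0 : ℝ), r ^ 3 • (Iio 1).indicator F r = ((2 * π)⁻¹) ^ 2 * 2 := by
      have h6 := intervalIntegral.integral_eq_sub_of_hasDerivAt (a := 0) (b := 1)
        (fun r _ => h3 r) (Continuous.intervalIntegrable (by fun_prop) _ _)
      rw [intervalIntegral.integral_of_le zero_le_one, integral_Ioc_eq_integral_Ioo, one_pow,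
        one_pow, (hφ1 1 le_rfl).eq_of_nhds] at h6
      have h7 : ∀ r : ℝ, r ^ 3 • (Iio 1).indicator F r =
          (Iio 1).indicator (fun r => r ^ 3 * F r) r := fun r => by
        simp [indicator]
      simp only [h7]
      rw [setIntegral_indicator measurableSet_Iio, Ioi_inter_Iio, h6]
      simp
    simp only [h1]
    rw [h2, integral_fun_norm_addHaar, finrank_euclideanSpace_fin, h5, measureReal_def,
      InnerProductSpace.volume_ball_of_dim_even (k := 2) (by simp)]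
    simp [ENNReal.toReal_ofReal (show 0 ≤ π ^ 2 / 2 by positivity)]
    field_simp
    norm_num

end Pool.Agent.MP_9fca84_an.H66
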