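import Pool.Agent.MP_9fca84_an.H66.Gap

/-!
A probability law on the sphere with small mean charges pairs of far away points.
-/

open scoped ENNReal
open MeasureTheory Metric Set ProbabilityTheory

noncomputable section

namespace Pool.Agent.MP_9fca84_an.H66

variable {n : ℕ}

lemma dist_sq (a b : Sph (n + 1)) : dist a b ^ 2 = 2 - 2 * inner ℝ (a : E (n + 1)) b := by
  rw [Subtype.dist_eq, dist_eq_norm, norm_sub_sq_real, norm_eq_of_mem_sphere,
    norm_eq_of_mem_sphere]
  ring

lemma far_iff (a b : Sph (n + 1)) :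
    √(2 + 2 / (n + 1)) ≤ dist a b ↔ inner ℝ (a : E (n + 1)) b ≤ -(1 / (n + 1)) := by
  rw [Real.sqrt_le_left dist_nonneg, dist_sq, div_eq_mul_one_div 2]
  constructor <;> intro h <;> linarith

lemma near_iff (a b : Sph (n + 1)) :
    dist a b ≤ √(2 + 2 / (n + 1)) ↔ -(1 / (n + 1)) ≤ inner ℝ (a : E (n + 1)) b := by
  rw [Real.le_sqrt dist_nonneg (by positivity), dist_sq, div_eq_mul_one_div 2]
  constructor <;> intro h <;> linarith

lemma obtuse_far (t : Fin (n + 2) → Sph (n + 1))
    (h : ∀ i j, i ≠ j → inner ℝ (t i : E (n + 1)) (t j) < 0) :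
    ∃ i j, i ≠ j ∧ √(2 + 2 / (n + 1)) ≤ dist (t i) (t j) := by
  by_contra hno
  simp only [far_iff, not_exists, not_and, not_le] at hno
  have hli : ¬LinearIndependent ℝ fun i => (t i : E (n + 1)) := fun h1 => by
    simpa using h1.fintype_card_le_finrank
  obtain ⟨c, hc, j, hj⟩ := Fintype.not_linearIndependent_iff.1 hli
  obtain ⟨i, hi⟩ := Finite.exists_max fun i => |c i|
  have h0 : 0 < |c i| := (abs_pos.2 hj).trans_le (hi j)
  have h1 := congrArg (inner ℝ (t i : E (n + 1))) hc
  rw [inner_sum, inner_zero_right, ← Finset.add_sum_erase _ _ (Finset.mem_univ i),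
    real_inner_smul_right, real_inner_self_eq_norm_sq, norm_eq_of_mem_sphere, one_pow, mul_one,
    add_eq_zero_iff_eq_neg] at h1
  have h2 : ∑ l ∈ Finset.univ.erase i, |inner ℝ (t i : E (n + 1)) (c l • (t l : E (n + 1)))| <
      ∑ l ∈ Finset.univ.erase i, |c i| * (1 / (n + 1)) := by
    refine Finset.sum_lt_sum_of_nonempty (Finset.card_pos.1 (by simp)) fun l hl => ?_
    have hl' := (Finset.ne_of_mem_erase hl).symm
    rw [real_inner_smul_right, abs_mul, abs_of_neg (h i l hl')]
    exact mul_lt_mul' (hi l) (by linarith [hno i l hl']) (by linarith [h i l hl']) h0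
  have h3 := (Finset.abs_sum_le_sum_abs _ _).trans_lt h2
  rw [← abs_neg, ← h1, Finset.sum_const, Finset.card_erase_of_mem (Finset.mem_univ i)] at h3
  simp only [Finset.card_univ, Fintype.card_fin, Nat.add_one_sub_one, nsmul_eq_mul] at h3
  push_cast at h3
  rw [mul_left_comm, mul_one_div_cancel (by positivity), mul_one] at h3
  exact h3.false

lemma hull_obtuse {K : Set (Sph (n + 1))}
    (hK : ∀ a ∈ K, ∀ b ∈ K, dist a b ≤ √(2 + 2 / (n + 1))) {v : E (n + 1)}
    (hv : v ∈ convexHull ℝ ((↑) '' K : Set (E (n + 1))))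
    (hs : ‖v‖ < 1 / ((n + 1) * (n + 2) * (n + 4))) : ∃ t : Fin (n + 2) → Sph (n + 1),
      (∀ i, t i ∈ K) ∧ ∀ i j, i ≠ j → inner ℝ (t i : E (n + 1)) (t j) < 0 := by
  obtain ⟨ι, _, z, w, hz, hi, hw, hs1, hv⟩ := eq_pos_convex_span_of_mem_convexHull hv
  classical
  choose t ht htz using fun i => hz ⟨i, rfl⟩
  have hc : Fintype.card ι ≤ n + 2 := by
    have h2 := hi.card_le_finrank_succ
    have h3 := (vectorSpan ℝ (range z)).finrank_le
    simp only [finrank_euclideanSpace, Fintype.card_fin] at h3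
    omega
  obtain ⟨η, hη⟩ : ∃ η, η = ‖v‖ := ⟨_, rfl⟩
  have hη0 : 0 ≤ η := hη ▸ norm_nonneg v
  have hn : (0 : ℝ) ≤ n := n.cast_nonneg
  rw [← hη, lt_div_iff₀ (by positivity)] at hs
  have h1 : ∀ i, w i * (n + 2) + ∑ l ∈ Finset.univ.erase i,
      w l * (1 + (n + 1) * inner ℝ (z i) (z l)) ≤ 1 + (n + 1) * η := by
    intro i
    have e1 : ‖z i‖ = 1 := htz i ▸ norm_eq_of_mem_sphere _
    have e2 := real_inner_le_norm (z i) v
    rw [e1, one_mul, ← hη, ← hv, inner_sum, ← Finset.add_sum_erase _ _ (Finset.mem_univ i),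
      real_inner_smul_right, real_inner_self_eq_norm_sq, e1, one_pow, mul_one] at e2
    rw [← Finset.add_sum_erase _ _ (Finset.mem_univ i)] at hs1
    simp only [real_inner_smul_right] at e2
    simp only [mul_add, mul_one, mul_left_comm (w _), Finset.sum_add_distrib, ← Finset.mul_sum]
    nlinarith
  have h2 : ∀ i l, 0 ≤ w l * (1 + (n + 1) * inner ℝ (z i) (z l)) := fun i l => by
    have e1 := (near_iff _ _).1 (hK _ (ht i) _ (ht l))
    rw [htz, htz, neg_le, le_div_iff₀ (by positivity)] at e1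
    exact mul_nonneg (hw l).le (by linarith)
  have h3 : ∀ i, w i * (n + 2) ≤ 1 + (n + 1) * η := fun i =>
    (le_add_of_nonneg_right (Finset.sum_nonneg fun l _ => h2 i l)).trans (h1 i)
  have h4 : Fintype.card ι = n + 2 := by
    by_contra hne
    have e1 : (Fintype.card ι : ℝ) ≤ n + 1 := by exact_mod_cast (by omega : Fintype.card ι ≤ n + 1)
    have e2 := Finset.sum_le_sum fun i (_ : i ∈ Finset.univ) => h3 i
    rw [← Finset.sum_mul, hs1, Finset.sum_const, Finset.card_univ, nsmul_eq_mul] at e2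
    have e3 := mul_le_mul_of_nonneg_right e1 (by positivity : 0 ≤ 1 + (n + 1) * η)
    nlinarith [mul_nonneg hη0 hn, mul_nonneg (mul_nonneg hη0 hn) hn,
      mul_nonneg (mul_nonneg (mul_nonneg hη0 hn) hn) hn]
  have h5 : ∀ i, 1 - (n + 1) ^ 2 * η ≤ w i * (n + 2) := fun i => by
    have e2 := Finset.sum_le_sum fun l (_ : l ∈ Finset.univ.erase i) => h3 l
    rw [← Finset.add_sum_erase _ _ (Finset.mem_univ i)] at hs1
    rw [← Finset.sum_mul, Finset.sum_const, Finset.card_erase_of_mem (Finset.mem_univ i),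
      Finset.card_univ, h4, nsmul_eq_mul, eq_sub_of_add_eq' hs1] at e2
    simp only [Nat.add_one_sub_one] at e2
    push_cast at e2
    nlinarith
  let e := Fintype.equivFinOfCardEq h4
  refine ⟨fun i => t (e.symm i), fun i => ht _, fun i j hij => ?_⟩
  rw [htz, htz]
  by_contra hge
  have e1 := Finset.single_le_sum (fun l _ => h2 (e.symm i) l)
    (Finset.mem_erase.2 ⟨e.symm.injective.ne hij.symm, Finset.mem_univ (e.symm j)⟩)
  have e2 : w (e.symm j) ≤ w (e.symm j) * (1 + (n + 1) * inner ℝ (z (e.symm i)) (z (e.symm j))) :=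
    le_mul_of_one_le_right (hw _).le
      (le_add_of_nonneg_right (mul_nonneg (by positivity) (not_lt.1 hge)))
  have e3 := h1 (e.symm i)
  have e4 := h5 (e.symm i)
  have e5 := h5 (e.symm j)
  have e6 : w (e.symm j) ≤ (n + 1) * (n + 2) * η := by nlinarith
  have e7 := mul_le_mul_of_nonneg_right e6 (by positivity : (0 : ℝ) ≤ n + 2)
  nlinarith [mul_nonneg hη0 hn, mul_nonneg (mul_nonneg hη0 hn) hn]

theorem jung (n : ℕ) {ε : ℝ} (hε : ε ≤ √(2 + 2 / (n + 1))) :
    ∃ δ > 0, ∃ c > 0, ∀ (P : Measure (Sph (n + 1))) [IsProbabilityMeasure P],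
      ‖∫ w, (w : E (n + 1)) ∂P‖ ≤ δ →
        ENNReal.ofReal c ≤ P.prod P {p | ε ≤ dist p.1 p.2} := by
  let φ : C(Fin (n + 2) → Sph (n + 1), ℝ) :=
    ⟨fun t => min 1 (max (dist (t 0) (t 1) - √(2 + 2 / (n + 1))) 0 +
      ∏ p ∈ Finset.univ.offDiag, max (-inner ℝ (t p.1 : E (n + 1)) (t p.2)) 0), by fun_prop⟩
  have hφ0 : ∀ t, 0 ≤ φ t := fun t => le_min zero_le_one
    (add_nonneg (le_max_right _ _) (Finset.prod_nonneg fun _ _ => le_max_right _ _))
  have hφ1 : ∀ t, φ t ≠ 0 → ∃ i j, i ≠ j ∧ ε ≤ dist (t i) (t j) := by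
    intro t ht
    by_cases h : √(2 + 2 / (n + 1)) ≤ dist (t 0) (t 1)
    · exact ⟨0, 1, by simp, hε.trans h⟩
    obtain ⟨i, j, hij, h1⟩ := obtuse_far t fun i j hij => by
      by_contra hge
      refine ht ?_
      change min 1 (max _ 0 + _) = 0
      rw [max_eq_right (by linarith), Finset.prod_eq_zero (i := (i, j)) (by simpa using hij)
        (max_eq_right (by linarith)), add_zero, min_eq_right zero_le_one]
    exact ⟨i, j, hij, hε.trans h1⟩
  have hφi : ∀ (Q : Measure (Fin (n + 2) → Sph (n + 1))) [IsFiniteMeasure Q], Integrable φ Q :=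
    fun Q _ => φ.continuous.integrable_of_hasCompactSupport (HasCompactSupport.of_compactSpace _)
  have hwi : ∀ (P : Measure (Sph (n + 1))) [IsFiniteMeasure P],
      Integrable (fun w : Sph (n + 1) => (w : E (n + 1))) P := fun P _ =>
    continuous_subtype_val.integrable_of_hasCompactSupport (HasCompactSupport.of_compactSpace _)
  let a : ProbabilityMeasure (Sph (n + 1)) → ℝ := fun P =>
    ‖∫ w, (w : E (n + 1)) ∂(P : Measure (Sph (n + 1)))‖
  let b : ProbabilityMeasure (Sph (n + 1)) → ℝ := fun P =>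
    ∫ t, φ t ∂(Measure.pi fun _ => (P : Measure (Sph (n + 1))))
  have ha : Continuous a := by
    refine Continuous.norm ?_
    refine (PiLp.continuous_toLp 2 _).comp (f := fun P : ProbabilityMeasure (Sph (n + 1)) =>
      fun i => (∫ w, (w : E (n + 1)) ∂(P : Measure (Sph (n + 1)))) i) (continuous_pi fun i => ?_)
    have h1 := ProbabilityMeasure.continuous_integral_continuousMap
      (⟨fun w => (w : E (n + 1)) i, by fun_prop⟩ : C(Sph (n + 1), ℝ))
    refine h1.congr fun P => ?_
    exact (EuclideanSpace.proj (𝕜 := ℝ) i).integral_comp_comm (hwi P)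
  have hb : Continuous b := (ProbabilityMeasure.continuous_integral_continuousMap φ).comp
    (ProbabilityMeasure.continuous_pi.comp (continuous_pi fun _ => continuous_id))
  have hpos : ∀ P, 0 < a P + b P := by
    intro P
    have hb0 : 0 ≤ b P := integral_nonneg hφ0
    refine lt_of_le_of_ne (add_nonneg (norm_nonneg _) hb0) fun h => ?_
    have ha1 : a P = 0 := le_antisymm (by linarith) (norm_nonneg _)
    have hb1 : b P = 0 := by linarith
    have h2 := (integral_eq_zero_iff_of_nonneg hφ0 (hφi _)).1 hb1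
    have h3 : ∀ t, (∀ i, t i ∈ (P : Measure (Sph (n + 1))).support) → φ t = 0 := by
      intro t ht
      by_contra hne
      have h4 : {t | φ t ≠ 0} ∈ nhds t := (isOpen_ne_fun φ.continuous continuous_const).mem_nhds hne
      rw [nhds_pi, Filter.mem_pi'] at h4
      obtain ⟨I, U, hU, hI⟩ := h4
      have h5 : Measure.pi (fun _ => (P : Measure (Sph (n + 1)))) (univ.pi U) = 0 :=
        measure_mono_null (fun p hp => hI fun i _ => hp i trivial) h2
      rw [Measure.pi_pi, Finset.prod_eq_zero_iff] at h5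
      obtain ⟨i, -, h6⟩ := h5
      exact ((Measure.mem_support_iff_forall _).1 (ht i) _ (hU i)).ne' h6
    have h8 := Convex.integral_mem (μ := (P : Measure (Sph (n + 1))))
      (convex_convexHull ℝ ((↑) '' (P : Measure (Sph (n + 1))).support : Set (E (n + 1)))).closure
      isClosed_closure (f := fun w : Sph (n + 1) => (w : E (n + 1))) (by
        filter_upwards [Measure.support_mem_ae] with w hw
        exact subset_closure (subset_convexHull _ _ ⟨w, hw, rfl⟩)) (hwi _)
    rw [norm_eq_zero.1 ha1] at h8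
    obtain ⟨v, hv, hv'⟩ := Metric.mem_closure_iff.1 h8 (1 / ((n + 1) * (n + 2) * (n + 4)))
      (by positivity)
    obtain ⟨t, ht, ht'⟩ := hull_obtuse (fun x hx y hy => by
      by_contra hlt
      have h9 := h3 (Fin.cons x fun _ => y) fun i => by cases i using Fin.cases <;> assumption
      refine (lt_min one_pos (add_pos_of_pos_of_nonneg (lt_max_of_lt_left ?_)
        (Finset.prod_nonneg fun _ _ => le_max_right _ _))).ne' h9
      exact sub_pos.2 (not_le.1 hlt)) hv (by simpa using hv')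
    refine (lt_min one_pos (add_pos_of_nonneg_of_pos (le_max_right _ _)
      (Finset.prod_pos fun p hp => lt_max_of_lt_left ?_))).ne' (h3 t ht)
    exact neg_pos.2 (ht' _ _ (Finset.mem_offDiag.1 hp).2.2)
  have : Nonempty (ProbabilityMeasure (Sph (n + 1))) :=
    ⟨⟨Measure.dirac ⟨EuclideanSpace.single 0 1, by simp⟩, inferInstance⟩⟩
  obtain ⟨P₀, -, hP₀⟩ := isCompact_univ.exists_isMinOn univ_nonempty (ha.add hb).continuousOn
  obtain ⟨N, hN⟩ : ∃ N : ℕ, N = (Finset.univ : Finset (Fin (n + 2))).offDiag.card := ⟨_, rfl⟩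
  refine ⟨(a P₀ + b P₀) / 2, half_pos (hpos P₀), (a P₀ + b P₀) / 2 / (N + 1),
    div_pos (half_pos (hpos P₀)) (by positivity), fun P hP h => ?_⟩
  have h1 : a P₀ + b P₀ ≤ a ⟨P, hP⟩ + b ⟨P, hP⟩ := hP₀ (mem_univ _)
  have h2 : (a P₀ + b P₀) / 2 ≤ ∫ t, φ t ∂(Measure.pi fun _ => P) := by
    have : a ⟨P, hP⟩ ≤ (a P₀ + b P₀) / 2 := h
    change _ ≤ b ⟨P, hP⟩
    linarith
  have hm : MeasurableSet {p : Sph (n + 1) × Sph (n + 1) | ε ≤ dist p.1 p.2} :=
    (isClosed_le continuous_const continuous_dist).measurableSet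
  have h3 : ∀ p ∈ (Finset.univ : Finset (Fin (n + 2))).offDiag, Measure.pi (fun _ => P)
      {t : Fin (n + 2) → Sph (n + 1) | ε ≤ dist (t p.1) (t p.2)} =
        P.prod P {p | ε ≤ dist p.1 p.2} := by
    intro p hp
    have h4 := ((iIndepFun_pi (μ := fun _ : Fin (n + 2) => P) (X := fun _ => id)
      fun _ => aemeasurable_id).indepFun (Finset.mem_offDiag.1 hp).2.2).map_prod_eq_prod_map_map
        (measurable_pi_apply _).aemeasurable (measurable_pi_apply _).aemeasurable
    rw [(measurePreserving_eval (fun _ => P) p.1).map_eq,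
      (measurePreserving_eval (fun _ => P) p.2).map_eq] at h4
    rw [← h4, Measure.map_apply (by fun_prop) hm]
    rfl
  have h4 := (measure_biUnion_finset_le _ _).trans_eq (Finset.sum_congr rfl h3)
  rw [Finset.sum_const, ← hN, nsmul_eq_mul] at h4
  have h5 : ENNReal.ofReal ((a P₀ + b P₀) / 2) ≤ N * P.prod P {p | ε ≤ dist p.1 p.2} := by
    refine (ENNReal.ofReal_le_ofReal h2).trans (le_trans ?_ h4)
    rw [ofReal_integral_eq_lintegral_ofReal (hφi _) (Filter.Eventually.of_forall hφ0)]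
    refine le_trans (lintegral_mono fun t => ?_) (lintegral_indicator_one_le _)
    by_cases ht : φ t = 0
    · simp [ht]
    · obtain ⟨i, j, hij, h6⟩ := hφ1 t ht
      rw [indicator_of_mem (mem_iUnion₂.2 ⟨(i, j), by simpa using hij, h6⟩)]
      exact ENNReal.ofReal_le_one.2 (min_le_left _ _)
  rw [ENNReal.ofReal_div_of_pos (by positivity)]
  refine ENNReal.div_le_of_le_mul' (h5.trans (mul_le_mul_left ?_ _))
  rw [← ENNReal.ofReal_natCast]
  exact ENNReal.ofReal_le_ofReal (by linarith)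

end Pool.Agent.MP_9fca84_an.H66
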