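import Pool.Agent.MP_9fca84_an.H66.Param
import Pool.Agent.MP_9fca84_an.H66.Est

/-!
Mollification at a variable scale.
-/

open scoped ContDiff ENNReal Topology
open MeasureTheory Set Filter Metric

noncomputable section

namespace Pool.Agent.MP_9fca84_an.H66

variable {d k : ℕ}

lemma exists_bump (d : ℕ) : ∃ (ψ : E d → ℝ) (M : ℝ), 0 < M ∧ ContDiff ℝ ∞ ψ ∧ (∀ v, 0 ≤ ψ v) ∧
    ∫ v, ψ v = 1 ∧ (∀ v, 1 < ‖v‖ → ψ v = 0 ∧ fderiv ℝ ψ v = 0) ∧
    ∀ v, ψ v ≤ M ∧ ‖fderiv ℝ ψ v‖ ≤ M := by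
  let φ : ContDiffBump (0 : E d) := ⟨1 / 2, 1, by norm_num, by norm_num⟩
  have hs : ContDiff ℝ ∞ (φ.normed volume) := φ.contDiff_normed
  obtain ⟨M₀, h₀⟩ := hs.continuous.bounded_above_of_compact_support φ.hasCompactSupport_normed
  obtain ⟨M₁, h₁⟩ := (hs.continuous_fderiv (by simp)).bounded_above_of_compact_support
    (φ.hasCompactSupport_normed.fderiv ℝ)
  refine ⟨φ.normed volume, max (max M₀ M₁) 1, by positivity, hs, φ.nonneg_normed,
    φ.integral_normed, fun v hv => ?_, fun v => ⟨?_, ?_⟩⟩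
  · have h : v ∉ tsupport (φ.normed volume) := by
      rw [φ.tsupport_normed_eq]
      simpa using hv
    exact ⟨image_eq_zero_of_notMem_tsupport h, fderiv_of_notMem_tsupport ℝ h⟩
  · exact ((le_abs_self _).trans (h₀ v)).trans ((le_max_left _ _).trans (le_max_left _ _))
  · exact (h₁ v).trans ((le_max_right _ _).trans (le_max_left _ _))

/-- The rescaled bump. -/
def kap (ψ : E d → ℝ) (τ : E d → ℝ) (x y : E d) : ℝ := (τ x)⁻¹ ^ d * ψ ((τ x)⁻¹ • (y - x))

lemma kap_deriv {ψ τ : E d → ℝ} {M : ℝ} (hM : 0 < M) (hψ : ContDiff ℝ ∞ ψ) (h0 : ∀ v, 0 ≤ ψ v)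
    (h1 : ∀ v, 1 < ‖v‖ → ψ v = 0 ∧ fderiv ℝ ψ v = 0) (h2 : ∀ v, ψ v ≤ M ∧ ‖fderiv ℝ ψ v‖ ≤ M)
    (hτ : ContDiff ℝ ∞ τ) {x : E d} (hx : 0 < τ x) (hD : ‖fderiv ℝ τ x‖ ≤ 1) (y : E d) :
    ∃ D : E d →L[ℝ] ℝ, HasFDerivAt (fun x => kap ψ τ x y) D x ∧
      ‖D‖ ≤ (closedBall x (τ x)).indicator (fun _ => (d + 2) * M * (τ x)⁻¹ ^ (d + 1)) y := by
  obtain ⟨A, hA, hA'⟩ : ∃ A : E d →L[ℝ] ℝ, HasFDerivAt (fun x => (τ x)⁻¹) A x ∧
      ‖A‖ ≤ (τ x)⁻¹ ^ 2 := by
    refine ⟨_, (hasDerivAt_inv hx.ne').comp_hasFDerivAt x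
      (hτ.differentiable (by simp) x).hasFDerivAt, ?_⟩
    rw [norm_smul, norm_neg, Real.norm_of_nonneg (by positivity), inv_pow]
    exact mul_le_of_le_one_right (by positivity) hD
  have h3 := (hA.pow d).mul ((hψ.differentiable (by simp) _).hasFDerivAt.comp x
    (hA.smul ((hasFDerivAt_id x).const_sub y)))
  refine ⟨_, h3, ?_⟩
  obtain ⟨a, ha⟩ : ∃ a, a = (τ x)⁻¹ := ⟨_, rfl⟩
  have ha0 : 0 < a := ha ▸ inv_pos.2 hx
  have hn : ‖(τ x)⁻¹ • (y - x)‖ = a * ‖y - x‖ := by
    rw [← ha, norm_smul, Real.norm_of_nonneg ha0.le]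
  by_cases hy : ‖y - x‖ ≤ τ x
  · rw [indicator_of_mem (by rwa [mem_closedBall, dist_eq_norm])]
    have h4 : a * ‖y - x‖ ≤ 1 := by
      rw [ha, inv_mul_le_iff₀ hx, mul_one]
      exact hy
    simp only [Function.comp, id, Pi.smul_apply']
    rw [← ha] at hA' ⊢
    have h5 : ‖a • -ContinuousLinearMap.id ℝ (E d) + A.smulRight (y - x)‖ ≤ 2 * a := by
      refine (norm_add_le _ _).trans ?_
      rw [norm_smul, norm_neg, ContinuousLinearMap.norm_smulRight_apply, Real.norm_of_nonneg ha0.le]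
      have h6 := ContinuousLinearMap.norm_id_le (𝕜 := ℝ) (E := E d)
      have h7 := mul_le_mul_of_nonneg_right hA' (norm_nonneg (y - x))
      nlinarith
    have h6 : a ^ (d - 1) * a ^ 2 * d ≤ a ^ (d + 1) * d := by
      rcases d with _ | d
      · simp
      · rw [Nat.add_sub_cancel, ← pow_add]
    refine (norm_add_le _ _).trans ?_
    rw [norm_smul, norm_smul, norm_smul, Real.norm_of_nonneg (h0 _),
      Real.norm_of_nonneg (by positivity), Real.norm_of_nonneg (by positivity), nsmul_eq_mul]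
    calc _ ≤ a ^ d * (M * (2 * a)) + M * (d * a ^ (d - 1) * a ^ 2) := by
          gcongr
          · refine (ContinuousLinearMap.opNorm_comp_le _ _).trans ?_
            gcongr
            exact (h2 _).2
          · exact (h2 _).1
      _ ≤ _ := by
          rw [pow_succ a d] at h6 ⊢
          nlinarith
  · have h4 : 1 < ‖(τ x)⁻¹ • (y - x)‖ := by
      rw [hn, ha, lt_inv_mul_iff₀ hx, mul_one]
      exact not_le.1 hy
    rw [indicator_of_notMem (by rwa [mem_closedBall, dist_eq_norm])]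
    simp [(h1 _ h4).1, (h1 _ h4).2]

theorem moll (d : ℕ) : ∃ M : ℝ, 0 < M ∧ ∀ (k : ℕ) (W : E d → Sph k) (τ : E d → ℝ), Measurable W →
    ContDiff ℝ ∞ τ → (∀ x, 0 < τ x) → (∀ x, ‖x‖ ≤ 5 → τ x ≤ 1) →
    ∃ G : E d → E k, ContDiff ℝ ∞ G ∧ ∀ x, ‖x‖ ≤ 5 →
      (‖fderiv ℝ τ x‖ ≤ 1 → ‖fderiv ℝ G x‖ ≤ M * (τ x)⁻¹) ∧
      ∃ P : Measure (E d), IsProbabilityMeasure P ∧ G x = ∫ y, (W y : E k) ∂P ∧
        ∀ H : E d → ℝ≥0∞, Measurable H → ∫⁻ y, H y ∂P ≤
          ENNReal.ofReal M * pw d (τ x) * ∫⁻ y in closedBall x (τ x), H y := by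
  obtain ⟨ψ, M, hM, hψ, h0, hi, h1, h2⟩ := exists_bump d
  obtain ⟨V, hV⟩ : ∃ V, V = volume.real (closedBall (0 : E d) 1) := ⟨_, rfl⟩
  have hV0 : 0 ≤ V := hV ▸ measureReal_nonneg
  refine ⟨M + (d + 2) * M * V, by positivity, fun k W τ hW hτ hτ0 hτ1 => ?_⟩
  have hw : Measurable fun y => (y, (W y : E k)) := by fun_prop
  let μ : Measure (E d × E k) := (volume.restrict (closedBall 0 10)).map fun y => (y, (W y : E k))
  have : IsFiniteMeasure (volume.restrict (closedBall (0 : E d) 10)) :=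
    isFiniteMeasure_restrict.2 measure_closedBall_lt_top.ne
  have hT : IsCompact (closedBall (0 : E d) 10 ×ˢ closedBall (0 : E k) 1) :=
    (isCompact_closedBall _ _).prod (isCompact_closedBall _ _)
  have hμ : μ.restrict (closedBall (0 : E d) 10 ×ˢ closedBall (0 : E k) 1) = μ := by
    refine Measure.restrict_eq_self_of_ae_mem ((ae_map_iff hw.aemeasurable hT.measurableSet).2 ?_)
    filter_upwards [ae_restrict_mem measurableSet_closedBall] with y hy
    exact ⟨hy, sphere_subset_closedBall (W y).2⟩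
  let F : E d × (E d × E k) → E k := fun z => kap ψ τ z.1 z.2.1 • z.2.2
  have hF : ContDiff ℝ ∞ F := by
    have h3 : ContDiff ℝ ∞ fun z : E d × (E d × E k) => (τ z.1)⁻¹ :=
      (hτ.comp contDiff_fst).inv fun z => (hτ0 _).ne'
    exact ((h3.pow d).mul (hψ.comp (h3.smul (by fun_prop)))).smul (by fun_prop)
  refine ⟨fun x => ∫ q in closedBall 0 10 ×ˢ closedBall 0 1, F (x, q) ∂μ,
    contDiffOn_univ.1 (param_smooth hT isOpen_univ fun _ _ _ _ => hF.contDiffAt),
    fun x hx => ⟨fun hD => ?_, ?_⟩⟩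
  · rw [(param_deriv hT isOpen_univ (fun _ _ _ _ => hF.contDiffAt) (mem_univ x)).fderiv]
    have hb : Integrable (fun y => (closedBall x (τ x)).indicator
        (fun _ => (d + 2) * M * (τ x)⁻¹ ^ (d + 1)) y) volume :=
      (integrable_indicator_iff measurableSet_closedBall).2
        (integrableOn_const measure_closedBall_lt_top.ne)
    have hc : Continuous fun q => fderiv ℝ F (x, q) ∘L ContinuousLinearMap.inl ℝ (E d) (E d × E k) :=
      ((hF.continuous_fderiv (by simp)).comp (by fun_prop)).clm_comp continuous_const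
    rw [hμ, integral_map hw.aemeasurable hc.aestronglyMeasurable]
    refine (norm_integral_le_of_norm_le hb.restrict (Eventually.of_forall fun y => ?_)).trans
      ((setIntegral_le_integral hb (Eventually.of_forall fun y => ?_)).trans ?_)
    · obtain ⟨D, hD1, hD2⟩ := kap_deriv hM hψ h0 h1 h2 hτ (hτ0 x) hD y
      rw [(slice_hasFDerivAt hF.contDiffAt).unique (hD1.smul_const (W y : E k)),
        ContinuousLinearMap.norm_smulRight_apply, norm_eq_of_mem_sphere, mul_one]
      exact hD2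
    · have := hτ0 x
      exact indicator_nonneg (fun _ _ => by positivity) y
    · have h3 := hτ0 x
      rw [integral_indicator measurableSet_closedBall, setIntegral_const,
        Measure.addHaar_real_closedBall' _ _ h3.le, ← hV, finrank_euclideanSpace_fin, smul_eq_mul,
        show τ x ^ d * V * ((d + 2) * M * (τ x)⁻¹ ^ (d + 1)) = (d + 2) * M * V * (τ x)⁻¹ by
          rw [inv_pow]; field_simp; ring]
      gcongr
      exact le_add_of_nonneg_left hM.le
  · have h3 := hτ0 x
    have hk0 : ∀ y, 0 ≤ kap ψ τ x y := fun y => mul_nonneg (by positivity) (h0 _)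
    have hkc : Continuous (kap ψ τ x) := continuous_const.mul (hψ.continuous.comp (by fun_prop))
    have hkz : ∀ y, y ∉ closedBall x (τ x) → kap ψ τ x y = 0 := by
      intro y hy
      rw [kap, (h1 _ _).1, mul_zero]
      rw [norm_smul, Real.norm_of_nonneg (by positivity), lt_inv_mul_iff₀ h3, mul_one]
      simpa [dist_eq_norm] using hy
    have hki : Integrable (kap ψ τ x) := hkc.integrable_of_hasCompactSupport
      (HasCompactSupport.intro (isCompact_closedBall _ _) hkz)
    refine ⟨volume.withDensity fun y => ENNReal.ofReal (kap ψ τ x y), ⟨?_⟩, ?_, fun H hH => ?_⟩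
    · rw [withDensity_apply _ MeasurableSet.univ, Measure.restrict_univ,
        ← ofReal_integral_eq_lintegral_ofReal hki (Eventually.of_forall hk0)]
      unfold kap
      rw [integral_const_mul, integral_sub_right_eq_self (fun y => ψ ((τ x)⁻¹ • y)) x,
        Measure.integral_comp_inv_smul_of_nonneg _ _ h3.le, hi]
      simp [h3.ne']
    · have hc : Continuous fun q => F (x, q) := hF.continuous.comp (by fun_prop)
      beta_reduce
      rw [integral_withDensity_eq_integral_toReal_smul (by fun_prop) (by simp), hμ,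
        integral_map hw.aemeasurable hc.aestronglyMeasurable,
        setIntegral_eq_integral_of_forall_compl_eq_zero]
      · simp only [ENNReal.toReal_ofReal (hk0 _), F]
      · intro y hy
        simp only [F]
        rw [hkz y fun h => hy ?_, zero_smul]
        rw [mem_closedBall, dist_eq_norm] at h
        have := norm_le_insert' y x
        have := hτ1 x hx
        rw [mem_closedBall_zero_iff]
        linarith
    · rw [lintegral_withDensity_eq_lintegral_mul _ (by fun_prop) hH,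
        ← lintegral_const_mul _ hH, ← lintegral_indicator measurableSet_closedBall]
      refine lintegral_mono fun y => ?_
      by_cases hy : y ∈ closedBall x (τ x)
      · rw [indicator_of_mem hy, pw_pos _ h3, ← ENNReal.ofReal_mul (by positivity), Pi.mul_apply]
        gcongr
        rw [kap, mul_comm, inv_pow]
        gcongr
        exact (h2 _).1.trans (le_add_of_nonneg_right (by positivity))
      · simp [hkz y hy]

end Pool.Agent.MP_9fca84_an.H66
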