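import Pool.Agent.MP_9fca84_an.H66.Cone

/-!
The pullback of the contracted volume form along a smooth map.
-/

open scoped ContDiff ENNReal Topology
open MeasureTheory Set Filter Metric ContinuousAlternatingMap

noncomputable section

namespace Pool.Agent.MP_9fca84_an.H66

variable {d n : ℕ}

lemma fm_smooth {k : ℕ} {η : E d → Fm d k} (h : ∀ v, ContDiff ℝ ∞ fun x => η x v) :
    ContDiff ℝ ∞ η := by
  let b := (EuclideanSpace.basisFun (Fin d) ℝ).toBasis
  let ev : Fm d k →ₗ[ℝ] (Fin k → Fin d) → ℝ :=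
    { toFun := fun a I => a fun i => b (I i)
      map_add' := fun _ _ => rfl
      map_smul' := fun _ _ => rfl }
  obtain ⟨g, hg⟩ := ev.exists_leftInverse_of_injective (LinearMap.ker_eq_bot.2 fun a a' h => by
    apply toAlternatingMap_injective
    exact b.ext_alternating fun I _ => congrFun h I)
  have h1 : η = fun x => LinearMap.toContinuousLinearMap g fun I => η x fun i => b (I i) :=
    funext fun x => (LinearMap.congr_fun hg (η x)).symm
  rw [h1]
  exact (LinearMap.toContinuousLinearMap g).contDiff.comp (contDiff_pi.2 fun I => h _)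

/-- The determinant as a continuous alternating form. -/
def volF (d : ℕ) : Fm d d :=
  { (Matrix.detRowAlternating (n := Fin d) (R := ℝ)).compLinearMap
      (WithLp.linearEquiv 2 ℝ (Fin d → ℝ)).toLinearMap with
    cont := (continuous_matrix (f := fun v : Fin d → E d => Matrix.of fun i j => v i j)
      fun i j => by simp only [Matrix.of_apply]; fun_prop).matrix_det }

lemma volF_apply (v : Fin d → E d) : volF d v = (Matrix.of fun i j => v i j).det := rfl

/-- The contraction of the normalized volume form with the position vector. -/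
def lam (n : ℕ) : E (n + 1) →L[ℝ] Fm (n + 1) n :=
  ((surf (n + 1)).real univ)⁻¹ • cur (n + 1) n (volF (n + 1))

/-- The pullback of `lam`. -/
def pull (Φ : E d → E (n + 1)) (x : E d) : Fm d n :=
  (lam n (Φ x)).compContinuousLinearMap (fderiv ℝ Φ x)

lemma pull_apply (Φ : E d → E (n + 1)) (x : E d) (v : Fin n → E d) :
    pull Φ x v = pullVol Φ x v := rfl

lemma pull_smooth {Φ : E d → E (n + 1)} (h : ContDiff ℝ ∞ Φ) : ContDiff ℝ ∞ (pull Φ) := by
  refine fm_smooth fun v => ?_
  have h1 : ContDiff ℝ ∞ fun x => Matrix.vecCons (Φ x) fun l => fderiv ℝ Φ x (v l) := by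
    refine contDiff_pi.2 fun i => ?_
    cases i using Fin.cases with
    | zero => exact h
    | succ i => exact (h.fderiv_right (m := ∞) (by simp)).clm_apply contDiff_const
  exact contDiff_const.mul ((volF (n + 1)).toContinuousMultilinearMap.contDiff.comp h1)

lemma pull_ext {Φ : E d → E (n + 1)} (h : ContDiff ℝ ∞ Φ) (x : E d) : extDeriv (pull Φ) x =
    (alternatizeUncurryFin (lam n)).compContinuousLinearMap (fderiv ℝ Φ x) := by
  have := extDeriv_pullback (x := x) (lam n).differentiableAt h.contDiffAt two_le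
  rw [extDeriv, extDeriv, ContinuousLinearMap.fderiv] at this
  exact this

lemma pull_ext_zero {Φ : E d → E (n + 1)} (h : ContDiff ℝ ∞ Φ) {x : E d}
    (hx : ∀ᶠ y in 𝓝 x, ‖Φ y‖ = 1) : extDeriv (pull Φ) x = 0 := by
  have h1 := (h.differentiable (by simp) x).hasFDerivAt.norm_sq
  have h2 : HasFDerivAt (fun y => ‖Φ y‖ ^ 2) (0 : E d →L[ℝ] ℝ) x :=
    (hasFDerivAt_const (1 : ℝ) x).congr_of_eventuallyEq (hx.mono fun y hy => by simp [hy])
  have h3 : ∀ w, inner ℝ (Φ x) (fderiv ℝ Φ x w) = 0 := fun w => by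
    simpa using DFunLike.congr_fun (h1.unique h2) w
  rw [pull_ext h]
  ext v
  refine (alternatizeUncurryFin (lam n)).toAlternatingMap.map_linearDependent _ fun hi => ?_
  have h4 := hi.span_eq_top_of_card_eq_finrank (by simp)
  have h5 : Submodule.span ℝ (range (fderiv ℝ Φ x ∘ v)) ≤ (ℝ ∙ Φ x)ᗮ := by
    rw [Submodule.span_le]
    rintro _ ⟨i, rfl⟩
    exact Submodule.mem_orthogonal_singleton_iff_inner_right.2 (h3 _)
  have h6 := Submodule.mem_orthogonal_singleton_iff_inner_right.1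
    (h5 (h4 ▸ Submodule.mem_top : Φ x ∈ Submodule.span ℝ (range (fderiv ℝ Φ x ∘ v))))
  rw [real_inner_self_eq_norm_sq, hx.self_of_nhds] at h6
  simp at h6

lemma pull_bound (n : ℕ) : ∃ B : ℝ, 0 < B ∧ ∀ (d : ℕ) (Φ : E d → E (n + 1)), ContDiff ℝ ∞ Φ →
    ∀ x, ‖pull Φ x‖ ≤ B * ‖Φ x‖ * ‖fderiv ℝ Φ x‖ ^ n ∧
      ‖extDeriv (pull Φ) x‖ ≤ B * ‖fderiv ℝ Φ x‖ ^ (n + 1) := by
  obtain ⟨B, hB, h⟩ := (lam n).isBoundedLinearMap.bound
  refine ⟨B + ‖alternatizeUncurryFin (lam n)‖, by positivity, fun d Φ hΦ x => ⟨?_, ?_⟩⟩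
  · refine (norm_compContinuousLinearMap_le _ _).trans ?_
    rw [Fintype.card_fin]
    gcongr
    refine (h _).trans ?_
    gcongr
    exact le_add_of_nonneg_right (norm_nonneg _)
  · rw [pull_ext hΦ]
    refine (norm_compContinuousLinearMap_le _ _).trans ?_
    rw [Fintype.card_fin]
    gcongr
    exact le_add_of_nonneg_left hB.le

/-- A smooth map that agrees with the radial projection away from a small ball. -/
lemma exists_retract (k : ℕ) {δ : ℝ} (hδ : 0 < δ) : ∃ ν : E k → E k, ContDiff ℝ ∞ ν ∧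
    (∀ u, ‖ν u‖ ≤ 1) ∧ ∀ u, δ ≤ ‖u‖ → ν u = ‖u‖⁻¹ • u := by
  have hp : ∀ u : E k, 0 < ‖u‖ ^ 2 + expNegInvGlue (δ ^ 2 - ‖u‖ ^ 2) := by
    intro u
    by_cases h : u = 0
    · simpa [h] using expNegInvGlue.pos_of_pos (pow_pos hδ 2)
    · exact add_pos_of_pos_of_nonneg (by positivity) (expNegInvGlue.nonneg _)
  refine ⟨fun u => (√(‖u‖ ^ 2 + expNegInvGlue (δ ^ 2 - ‖u‖ ^ 2)))⁻¹ • u, ?_, fun u => ?_,
    fun u hu => ?_⟩
  · have h1 : ContDiff ℝ ∞ fun u : E k => ‖u‖ ^ 2 := contDiff_norm_sq ℝ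
    refine ContDiff.smul (ContDiff.inv (ContDiff.sqrt (h1.add
      (expNegInvGlue.contDiff.comp (contDiff_const.sub h1))) fun u => (hp u).ne') fun u => ?_)
      contDiff_id
    exact (Real.sqrt_pos.2 (hp u)).ne'
  · rw [norm_smul, norm_inv, Real.norm_of_nonneg (Real.sqrt_nonneg _),
      inv_mul_le_iff₀ (Real.sqrt_pos.2 (hp u)), mul_one]
    exact Real.le_sqrt_of_sq_le (le_add_of_nonneg_right (expNegInvGlue.nonneg _))
  · simp only
    rw [expNegInvGlue.zero_of_nonpos (by nlinarith), add_zero, Real.sqrt_sq (norm_nonneg _)]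

end Pool.Agent.MP_9fca84_an.H66
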