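import Pool.Agent.MP_9fca84_an.H66.Ext
import Pool.Agent.MP_9fca84_an.H66.Core
import Pool.Agent.MP_9fca84_an.H66.Pull
import Pool.Agent.MP_9fca84_an.H66.Jung

/-!
The bound of the Hopf invariant by the gap potential up to the simplex threshold.
-/

open scoped ContDiff ENNReal Topology
open MeasureTheory Set Filter Metric

noncomputable section

namespace Pool.Agent.MP_9fca84_an.H66

variable {d m k : ℕ}

lemma rad (hd : d = m + 1) {f : SMap d k} {W : E d → Sph k} (hW : Measurable W)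
    (h : ∀ (e : Sph d) (r : ℝ), 0 < r → r ≤ 1 → W (r • (e : E d)) = f e) {x : E d} (hx : ‖x‖ < 1)
    {Ψ : Sph k → ℝ≥0∞} (hΨ : Measurable Ψ) :
    ∫⁻ y in closedBall x ((1 - ‖x‖) / 2), Ψ (W y) ≤ ENNReal.ofReal (1 - ‖x‖) *
      ∫⁻ e, le1 ‖x - (e : E d)‖ (2 * (1 - ‖x‖)) * Ψ (f e) ∂surf d := by
  have hm : Measurable fun y => Ψ (W y) := hΨ.comp hW
  rw [← lintegral_indicator measurableSet_closedBall,
    polar0 hd (hm.indicator measurableSet_closedBall),
    ← lintegral_const_mul' _ _ ENNReal.ofReal_ne_top]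
  refine lintegral_mono fun e => ?_
  have h1 : ENNReal.ofReal (1 - ‖x‖) = volume (Icc (‖x‖ - (1 - ‖x‖) / 2) (‖x‖ + (1 - ‖x‖) / 2)) := by
    rw [Real.volume_Icc]
    congr 1
    ring
  rw [h1, mul_comm, ← setLIntegral_const, ← lintegral_indicator measurableSet_Icc]
  refine (setLIntegral_mono' measurableSet_Ioi fun r hr => ?_).trans (setLIntegral_le_lintegral _ _)
  have hr0 : (0 : ℝ) < r := hr
  by_cases h2 : r • (e : E d) ∈ closedBall x ((1 - ‖x‖) / 2)
  swap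
  · simp [indicator_of_notMem h2]
  rw [indicator_of_mem h2]
  rw [mem_closedBall, dist_eq_norm] at h2
  have he : ‖(e : E d)‖ = 1 := norm_eq_of_mem_sphere e
  have h3 := abs_le.1 ((abs_norm_sub_norm_le (r • (e : E d)) x).trans h2)
  rw [norm_smul, he, Real.norm_of_nonneg hr0.le, mul_one] at h3
  have h4 : r ≤ 1 := by linarith [h3.2]
  have h5 : ‖x - (e : E d)‖ ≤ 2 * (1 - ‖x‖) := by
    have h6 := norm_sub_le_norm_sub_add_norm_sub x (r • (e : E d)) e
    have h7 : r • (e : E d) - e = (r - 1) • (e : E d) := by module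
    rw [h7, norm_smul, he, norm_sub_rev x (r • _), Real.norm_of_nonpos (by linarith)] at h6
    linarith [h3.1]
  rw [indicator_of_mem (mem_Icc.2 ⟨by linarith [h3.1], by linarith [h3.2]⟩), le1_of h5, one_mul,
    h e r hr0 h4]
  exact mul_le_of_le_one_left' (ENNReal.ofReal_le_one.2 (pow_le_one₀ hr0.le h4))

lemma gap_eq {ε : ℝ} (hε : 0 < ε) (f : SMap d k) : gap ε f = ∫⁻ e, ∫⁻ e',
    le1 ε (dist (f e) (f e')) * pw (2 * (d - 1)) (dist e e') ∂surf d ∂surf d := by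
  have hm : MeasurableSet {p : Sph d × Sph d | ε ≤ dist (f p.1) (f p.2)} :=
    (isClosed_le continuous_const (by fun_prop)).measurableSet
  rw [gap, ← lintegral_indicator hm, lintegral_prod _ (Measurable.indicator (by fun_prop)
    hm).aemeasurable]
  refine lintegral_congr fun e => lintegral_congr fun e' => ?_
  by_cases h : ε ≤ dist (f e) (f e')
  · have h1 : 0 < dist e e' := dist_pos.2 fun h2 => by
      rw [h2, dist_self] at h
      linarith
    rw [indicator_of_mem (by exact h), le1_of h, one_mul, pw_pos _ h1, one_div]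
  · rw [indicator_of_notMem (by exact h), le1_not h, zero_mul]

lemma bad_le (b : ℕ) (hd : d = b + 1 + 1) {ε : ℝ} (hε : 0 < ε) (M : ℝ) {c : ℝ} (hc : 0 < c) :
    ∃ C : ℝ≥0∞, C ≠ ⊤ ∧ ∀ (f : SMap d k) (W : E d → Sph k) (z : E d → ℝ≥0∞), Measurable W →
      (∀ (e : Sph d) (r : ℝ), 0 < r → r ≤ 1 → W (r • (e : E d)) = f e) → (∀ x, z x ≤ 1) →
      (∀ x, z x ≠ 0 → ‖x‖ < 1 ∧ ∃ P : Measure (E d), IsProbabilityMeasure P ∧
        ENNReal.ofReal c ≤ (P.map W).prod (P.map W) {p | ε ≤ dist p.1 p.2} ∧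
          ∀ H : E d → ℝ≥0∞, Measurable H → ∫⁻ y, H y ∂P ≤ ENNReal.ofReal M * pw d (1 - ‖x‖) *
            ∫⁻ y in closedBall x ((1 - ‖x‖) / 2), H y) →
      ∫⁻ x, z x * pw d (1 - ‖x‖) ≤ C * gap ε f := by
  obtain ⟨c₁, hc₁⟩ : ∃ c₁, c₁ = (ENNReal.ofReal c)⁻¹ * ENNReal.ofReal M ^ 2 *
    ENNReal.ofReal (2 ^ (b + 1)) * ENNReal.ofReal (6 ^ (2 * b + 1 + 2)) := ⟨_, rfl⟩
  have hc0 : ENNReal.ofReal c ≠ 0 := by simpa using hc
  have hc' : c₁ ≠ ⊤ := by rw [hc₁]; finiteness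
  refine ⟨c₁ * surf d univ, by finiteness, fun f W z hW h hz1 hz => ?_⟩
  have hf : Measurable f := f.continuous.measurable
  have h1 : ∀ x, z x * pw d (1 - ‖x‖) ≤ ∫⁻ e, ∫⁻ e', c₁ * le1 ε (dist (f e) (f e')) *
      (pw (b + 1) ‖x - (e : E d)‖ * pw (2 * b + 1 + 2) (‖x - (e : E d)‖ + dist e e'))
        ∂surf d ∂surf d := by
    intro x
    by_cases h0 : z x = 0
    · simp [h0]
    obtain ⟨hx, P, hP, h2, h3⟩ := hz x h0
    have ht : 0 < 1 - ‖x‖ := by linarith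
    have h4 : ∀ Ψ : Sph k → ℝ≥0∞, Measurable Ψ → ∫⁻ w, Ψ w ∂P.map W ≤
        ENNReal.ofReal M * pw (b + 1) (1 - ‖x‖) *
          ∫⁻ e, le1 ‖x - (e : E d)‖ (2 * (1 - ‖x‖)) * Ψ (f e) ∂surf d := by
      intro Ψ hΨ
      rw [lintegral_map hΨ hW]
      refine (h3 _ (hΨ.comp hW)).trans ((mul_le_mul_right (rad hd hW h hx hΨ) _).trans_eq ?_)
      have h5 := pow_mul_pw 1 ht
      rw [pow_one] at h5
      rw [show pw d (1 - ‖x‖) = pw (b + 1) (1 - ‖x‖) * pw 1 (1 - ‖x‖) from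
        (congrArg (pw · _) hd).trans (pw_add _ _ _), mul_assoc, mul_assoc, ← mul_assoc (pw 1 _),
        mul_comm (pw 1 _), h5, one_mul, mul_assoc]
    have hm : MeasurableSet {p : Sph k × Sph k | ε ≤ dist p.1 p.2} :=
      (isClosed_le continuous_const continuous_dist).measurableSet
    have h5 : (P.map W).prod (P.map W) {p | ε ≤ dist p.1 p.2} =
        ∫⁻ w, ∫⁻ w', le1 ε (dist w w') ∂P.map W ∂P.map W := by
      rw [← lintegral_indicator_one hm, lintegral_prod _ (measurable_one.indicator hm).aemeasurable]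
      simp only [indicator, le1, mem_ofPred_eq, Pi.one_apply]
    obtain ⟨A, hA⟩ : ∃ A, A = ENNReal.ofReal M * pw (b + 1) (1 - ‖x‖) := ⟨_, rfl⟩
    have hA' : A ≠ ⊤ := hA ▸ ENNReal.mul_ne_top ENNReal.ofReal_ne_top (pw_ne_top _ ht)
    rw [← hA] at h4
    have h6 : ENNReal.ofReal c ≤ ∫⁻ e, ∫⁻ e', A * A * (le1 ‖x - (e : E d)‖ (2 * (1 - ‖x‖)) *
        (le1 ‖x - (e' : E d)‖ (2 * (1 - ‖x‖)) * le1 ε (dist (f e) (f e')))) ∂surf d ∂surf d := by
      rw [h5] at h2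
      refine h2.trans ((h4 _ (Measurable.lintegral_prod_right' (f := fun p : Sph k × Sph k =>
        le1 ε (dist p.1 p.2)) (by fun_prop))).trans ?_)
      rw [← lintegral_const_mul' _ _ hA']
      refine lintegral_mono fun e => ?_
      refine (mul_le_mul_right (mul_le_mul_right (h4 _ (by fun_prop)) _) _).trans_eq ?_
      rw [lintegral_const_mul' _ _ (by finiteness), lintegral_const_mul _ (by fun_prop)]
      ring
    have h7 : pw d (1 - ‖x‖) ≠ ⊤ := pw_ne_top _ ht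
    calc _ ≤ (ENNReal.ofReal c)⁻¹ * pw d (1 - ‖x‖) * ENNReal.ofReal c := by
          rw [mul_right_comm, ENNReal.inv_mul_cancel hc0 ENNReal.ofReal_ne_top]
          exact mul_le_mul_left (hz1 x) _
      _ ≤ _ := by
          refine (mul_le_mul_right h6 _).trans ?_
          rw [← lintegral_const_mul' _ _ (by finiteness)]
          refine lintegral_mono fun e => ?_
          beta_reduce
          rw [← lintegral_const_mul' _ _ (by finiteness)]
          refine lintegral_mono fun e' => ?_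
          by_cases e1 : ‖x - (e : E d)‖ ≤ 2 * (1 - ‖x‖)
          swap
          · simp [le1_not e1]
          by_cases e2 : ‖x - (e' : E d)‖ ≤ 2 * (1 - ‖x‖)
          swap
          · simp [le1_not e2]
          have e3 : ‖x - (e : E d)‖ + dist e e' ≤ 6 * (1 - ‖x‖) := by
            have := norm_sub_le_norm_sub_add_norm_sub (e : E d) x e'
            rw [norm_sub_rev (e : E d) x] at this
            rw [Subtype.dist_eq, dist_eq_norm]
            linarith
          have e4 : pw d (1 - ‖x‖) * pw (b + 1) (1 - ‖x‖) = pw (2 * b + 1 + 2) (1 - ‖x‖) := by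
            rw [← pw_add]
            congr 1
            omega
          beta_reduce
          rw [le1_of e1, le1_of e2, hA]
          calc _ = (ENNReal.ofReal c)⁻¹ * ENNReal.ofReal M ^ 2 * le1 ε (dist (f e) (f e')) *
                (pw (b + 1) (1 - ‖x‖) * (pw d (1 - ‖x‖) * pw (b + 1) (1 - ‖x‖))) := by ring
            _ ≤ _ := by
                rw [e4]
                refine (mul_le_mul_right (mul_le_mul' (pw_le _ two_pos e1)
                  (pw_le _ (by norm_num) e3)) _).trans_eq ?_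
                rw [hc₁]
                ring
  refine (lintegral_mono h1).trans ?_
  rw [lintegral_lintegral_swap (Measurable.lintegral_prod_right'
    (f := fun p : (E d × Sph d) × Sph d => c₁ * le1 ε (dist (f p.1.2) (f p.2)) *
      (pw (b + 1) ‖p.1.1 - (p.1.2 : E d)‖ * pw (2 * b + 1 + 2) (‖p.1.1 - (p.1.2 : E d)‖ +
        dist p.1.2 p.2))) (by fun_prop)).aemeasurable, gap_eq hε,
    ← lintegral_const_mul' _ _ (by finiteness)]
  refine lintegral_mono fun e => ?_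
  beta_reduce
  rw [lintegral_lintegral_swap (by fun_prop), ← lintegral_const_mul' _ _ (by finiteness)]
  refine lintegral_mono fun e' => ?_
  beta_reduce
  rw [lintegral_const_mul _ (by fun_prop)]
  refine (mul_le_mul_right (riesz hd _ _ _) _).trans_eq ?_
  rw [show 2 * (d - 1) = 2 * b + 1 + 1 by omega]
  ring

lemma gap_ne_top {ε : ℝ} (hε : 0 < ε) (f : SMap d k) : gap ε f ≠ ⊤ := by
  obtain ⟨δ, hδ, h⟩ := Metric.uniformContinuous_iff.1
    (CompactSpace.uniformContinuous_of_continuous f.continuous) ε hε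
  rw [gap_eq hε]
  refine ne_top_of_le_ne_top (b := ∫⁻ _, ∫⁻ _, pw (2 * (d - 1)) δ ∂surf d ∂surf d) ?_
    (lintegral_mono fun e => lintegral_mono fun e' => ?_)
  · have := pw_ne_top (2 * (d - 1)) hδ
    simp only [lintegral_const]
    finiteness
  · by_cases h1 : ε ≤ dist (f e) (f e')
    · beta_reduce
      rw [le1_of h1, one_mul]
      exact pw_anti _ (not_lt.1 fun h2 => (h h2).not_ge h1)
    · simp [le1_not h1]

theorem key (q : ℕ) {ε : ℝ} (h0 : 0 < ε) (hε : ε ≤ √(2 + 2 / ((q + 2 : ℕ) + 1))) :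
    ∃ C₁ C₂ : ℝ≥0∞, C₁ ≠ ⊤ ∧ C₂ ≠ ⊤ ∧ ∀ (f : SMap (q + 2 + (q + 2)) (q + 2 + 1)) (k : ℤ),
      IsHopf f k → ∃ N, N ≤ C₂ * gap ε f ∧ ∀ L : ℝ, 0 < L →
        ‖(k : ℝ)‖ₑ ≤ C₁ * ((1 + (ENNReal.ofReal L + pw (2 * q + 2) L * N)) * N) := by
  obtain ⟨δ₀, hδ₀, c, hc, hJ⟩ := jung (q + 2) hε
  obtain ⟨δ, hδ, hδ1, hδ2⟩ : ∃ δ, 0 < δ ∧ δ ≤ δ₀ ∧ δ ≤ 1 / 2 :=
    ⟨min δ₀ (1 / 2), by positivity, min_le_left _ _, min_le_right _ _⟩
  obtain ⟨ν, hν, ν1, ν2⟩ := exists_retract (q + 2 + 1) hδ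
  obtain ⟨K, hK⟩ := (isCompact_closedBall (0 : E (q + 2 + 1)) 1).exists_bound_of_continuousOn
    (hν.continuous_fderiv (by simp)).continuousOn
  have hK0 : 0 ≤ K := (norm_nonneg _).trans (hK 0 (by simp))
  obtain ⟨B, hB, hP⟩ := pull_bound (q + 2)
  obtain ⟨M, hM, hE⟩ := extend (q + 2 + (q + 2))
  obtain ⟨C₁, hC₁, h1⟩ := core q
  obtain ⟨C₂, hC₂, h2⟩ := bad_le (k := q + 2 + 1) (2 * q + 2)
    (show q + 2 + (q + 2) = 2 * q + 2 + 1 + 1 by ring) h0 M hc
  obtain ⟨A, hA⟩ : ∃ A, A = B * (K * M + 1) ^ (q + 3) := ⟨_, rfl⟩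
  have hA0 : 0 < A := by rw [hA]; positivity
  refine ⟨C₁ * ENNReal.ofReal A ^ 2, C₂, by finiteness, hC₂, ?_⟩
  rintro f k ⟨g, G, γ, hfg, hG, hG', hγ, hγ0, hγ1, hk⟩
  obtain ⟨W, hW, W1, W2⟩ := exists_W ⟨EuclideanSpace.single ⟨0, by omega⟩ 1, by simp⟩ hfg
  have hWm : Measurable W := measurable_of_continuousOn_compl_singleton 0 hW
  have hpol : ∀ x : E (q + 2 + (q + 2)), x ≠ 0 → ∃ e : Sph (q + 2 + (q + 2)), x = ‖x‖ • (e : E _) :=
    fun x hx => ⟨⟨‖x‖⁻¹ • x, by simp [norm_smul, hx]⟩, by simp [smul_smul, hx]⟩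
  have hG1 : ∀ x, x ≠ 0 → ‖G x‖ = 1 := fun x hx => by
    obtain ⟨e, he⟩ := hpol x hx
    rw [he, hG e _ (norm_pos_iff.2 hx), norm_eq_of_mem_sphere]
  obtain ⟨F, hF, F1, F2, F3⟩ := hE _ W G hW hG' fun x hx => by
    obtain ⟨e, he⟩ := hpol x (norm_pos_iff.1 (by linarith))
    rw [he, hG e _ (by linarith), W2 e _ hx]
  have hΦ : ContDiff ℝ ∞ (ν ∘ F) := hν.comp hF
  have hD : ∀ x, ‖x‖ < 1 → ‖fderiv ℝ (ν ∘ F) x‖ ≤ (K * M + 1) * (1 - ‖x‖)⁻¹ := by
    intro x hx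
    rw [fderiv_comp x (hν.differentiable (by simp) _) (hF.differentiable (by simp) x)]
    have e1 : 0 < (1 - ‖x‖)⁻¹ := inv_pos.2 (by linarith)
    refine (ContinuousLinearMap.opNorm_comp_le _ _).trans ((mul_le_mul
      (hK _ (mem_closedBall_zero_iff.2 (F2 x hx).1)) (F2 x hx).2 (norm_nonneg _) hK0).trans ?_)
    nlinarith
  have hz : Measurable fun x => le1 ‖F x‖ δ := by
    have := hF.continuous.measurable
    fun_prop
  have hz0 : ∀ x, le1 ‖F x‖ δ ≠ 0 → ‖F x‖ ≤ δ := fun x hx => by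
    by_contra h
    exact hx (le1_not h)
  have hrank : Module.finrank ℝ (E (q + 2 + 1)) < q + 2 + (q + 2) := by simp
  refine ⟨∫⁻ y, le1 ‖F y‖ δ * pw (2 * q + 4) (1 - ‖y‖), ?_, fun L hL => ?_⟩
  · rw [show 2 * q + 4 = q + 2 + (q + 2) by ring]
    refine h2 f W _ hWm W1 (fun _ => le1_le _ _) fun x hx => ?_
    obtain ⟨e1, P, hP, e2, e3⟩ := F3 x ((hz0 x hx).trans hδ2)
    refine ⟨e1, P, hP, ?_, e3⟩
    have := Measure.isProbabilityMeasure_map (μ := P) hWm.aemeasurable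
    refine hJ _ ?_
    rw [integral_map hWm.aemeasurable continuous_subtype_val.aestronglyMeasurable, ← e2]
    exact (hz0 x hx).trans hδ1
  have hk' : (k : ℝ) = ∫ x, wedge (γ x) (γ x) := by
    rw [hk, setIntegral_eq_integral_of_forall_compl_eq_zero fun x hx => ?_]
    rw [show γ x = pull G x from ContinuousAlternatingMap.ext (hγ1 x (by simpa using hx))]
    exact wedge_pull hrank _ _ _
  have hK1 : 1 ≤ K * M + 1 := le_add_of_nonneg_left (by positivity)
  rw [hk']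
  refine h1 γ (pull (ν ∘ F)) 4 _ _ hγ hγ0 (pull_smooth hΦ) (by norm_num) (fun x hx => ?_)
    (fun x => wedge_pull hrank _ _ _) ENNReal.ofReal_ne_top hz (fun _ => le1_le _ _)
    (fun y hy => ?_) (fun x => ?_) (fun y => ?_) L hL
  · have e1 : ν ∘ F =ᶠ[𝓝 x] G := by
      filter_upwards [(isOpen_lt continuous_const continuous_norm).mem_nhds hx] with y hy
      have e2 := hG1 y (norm_pos_iff.1 (lt_trans (by norm_num) hy))
      rw [Function.comp, F1 y (le_of_lt hy), ν2 _ (by linarith), e2, inv_one, one_smul]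
    rw [show γ x = pull G x from ContinuousAlternatingMap.ext (hγ1 x (by linarith)), pull, pull,
      e1.fderiv_eq, e1.eq_of_nhds]
  · by_contra h
    exact (F3 y ((hz0 y h).trans hδ2)).1.not_ge hy
  · rcases le_or_gt 1 ‖x‖ with hx | hx
    · rw [pw_top (q + 1) (by linarith), ENNReal.mul_top (by simpa using hA0)]
      exact le_top
    have e1 : 0 < 1 - ‖x‖ := by linarith
    rw [pw_pos _ e1, ← ENNReal.ofReal_mul hA0.le, ← ofReal_norm]
    refine ENNReal.ofReal_le_ofReal ((hP _ _ hΦ x).1.trans ?_)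
    calc _ ≤ B * 1 * ((K * M + 1) * (1 - ‖x‖)⁻¹) ^ (q + 2) := by
          gcongr
          exacts [ν1 _, hD x hx]
      _ ≤ _ := by
          rw [mul_one, mul_pow, inv_pow, ← mul_assoc, hA]
          gcongr
          omega
  · by_cases hy : ‖F y‖ ≤ δ
    · have hx := (F3 y (hy.trans hδ2)).1
      have e1 : 0 < 1 - ‖y‖ := by linarith
      rw [le1_of hy, one_mul, pw_pos _ e1, ← ENNReal.ofReal_mul hA0.le, ← ofReal_norm]
      refine ENNReal.ofReal_le_ofReal ((hP _ _ hΦ y).2.trans ?_)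
      rw [hA, mul_assoc, ← inv_pow, ← mul_pow]
      gcongr
      exact hD y hx
    · rw [pull_ext_zero hΦ, enorm_fm_zero]
      · exact zero_le
      filter_upwards [(isOpen_lt continuous_const hF.continuous.norm).mem_nhds (not_le.1 hy)]
        with x hx
      have e1 : δ < ‖F x‖ := hx
      rw [Function.comp, ν2 _ e1.le, norm_smul, norm_inv, norm_norm,
        inv_mul_cancel₀ (hδ.trans e1).ne']

theorem pos (q : ℕ) {ε : ℝ} (h0 : 0 < ε) (hε : ε ≤ √(2 + 2 / ((q + 2 : ℕ) + 1))) :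
    ∃ C : ℝ, ∀ (f : SMap (q + 2 + (q + 2)) (q + 2 + 1)) (k : ℤ), IsHopf f k →
      |(k : ℝ)| ≤ C * (gap ε f).toReal ^ (1 + 1 / (2 * ((q + 2 : ℕ) : ℝ) - 1)) := by
  obtain ⟨C₁, C₂, hC₁, hC₂, h⟩ := key q h0 hε
  obtain ⟨a, ha⟩ : ∃ a : ℝ, a = 1 / (2 * ((q + 2 : ℕ) : ℝ) - 1) := ⟨_, rfl⟩
  have ha1 : a = ((2 * q + 3 : ℕ) : ℝ)⁻¹ := by
    rw [ha, one_div]
    congr 1
    push_cast
    ring
  have ha0 : 0 ≤ a := by rw [ha1]; positivity
  obtain ⟨c, hc⟩ : ∃ c, c = C₁.toReal := ⟨_, rfl⟩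
  have hc0 : 0 ≤ c := hc ▸ ENNReal.toReal_nonneg
  rw [← ha]
  refine ⟨(4 * c + 2 * c * (2 * c) ^ a) * C₂.toReal ^ (1 + a), fun f k hk => ?_⟩
  obtain ⟨N, hN, h1⟩ := h f k hk
  have hN' : N ≠ ⊤ := ne_top_of_le_ne_top (ENNReal.mul_ne_top hC₂ (gap_ne_top h0 f)) hN
  have h2 := ENNReal.toReal_mono (ENNReal.mul_ne_top hC₂ (gap_ne_top h0 f)) hN
  rw [mul_assoc, ← Real.mul_rpow ENNReal.toReal_nonneg ENNReal.toReal_nonneg, ← ENNReal.toReal_mul]
  refine le_trans ?_ (mul_le_mul_of_nonneg_left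
    (Real.rpow_le_rpow ENNReal.toReal_nonneg h2 (by linarith)) (by positivity))
  lift N to NNReal using hN'
  rcases eq_or_lt_of_le N.2 with h3 | h3
  · have h4 := h1 1 one_pos
    rw [show N = 0 from Subtype.ext h3.symm] at h4
    have h5 : (k : ℝ) = 0 := by simpa using h4
    rw [h5, abs_zero]
    positivity
  have h3' : (0 : ℝ) < N := h3
  have hL : 0 < (N : ℝ) ^ a := Real.rpow_pos_of_pos h3' a
  have h4 := h1 _ hL
  have h5 : (((N : ℝ) ^ a) ^ (2 * q + 2))⁻¹ * N = (N : ℝ) ^ a := by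
    have h6 : ((N : ℝ) ^ a) ^ (2 * q + 3) = N := by
      rw [ha1]
      exact Real.rpow_inv_natCast_pow h3'.le (by omega)
    rw [inv_mul_eq_iff_eq_mul₀ (by positivity), ← pow_succ, h6]
  rw [pw_pos _ hL, ← ENNReal.ofReal_coe_nnreal, ← ENNReal.ofReal_mul (by positivity), h5,
    ← ENNReal.ofReal_add hL.le hL.le, ← ENNReal.ofReal_one,
    ← ENNReal.ofReal_add zero_le_one (by positivity), ← ENNReal.ofReal_mul (by positivity),
    ← ENNReal.ofReal_toReal hC₁, ← hc, ← ENNReal.ofReal_mul hc0, ← ofReal_norm,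
    ENNReal.ofReal_le_ofReal_iff (by positivity), Real.norm_eq_abs] at h4
  rw [ENNReal.coe_toReal, Real.rpow_add h3', Real.rpow_one]
  have h7 : 0 ≤ c * (N * (N : ℝ) ^ a) := by positivity
  have h8 : 0 ≤ (2 * c) ^ a * (c * (N * (N : ℝ) ^ a)) := by positivity
  rcases le_total (2 * c * N) 1 with h9 | h9
  · rcases eq_or_ne k 0 with rfl | hk0
    · simp only [Int.cast_zero, abs_zero]
      positivity
    have h10 : (1 : ℝ) ≤ |(k : ℝ)| := by exact_mod_cast Int.one_le_abs hk0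
    nlinarith
  · have h10 := Real.one_le_rpow h9 ha0
    rw [Real.mul_rpow (by positivity) h3'.le] at h10
    have h11 := mul_le_mul_of_nonneg_left h10 (by positivity : 0 ≤ c * N)
    nlinarith

end Pool.Agent.MP_9fca84_an.H66
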