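import Mathlib

/-!
A regular simplex inscribed in the unit sphere and a continuous selection of points in its
barycentric subdivision.
-/

open scoped RealInnerProductSpace
open Finset

noncomputable section

namespace Pool.Agent.MP_9fca84_an.H66

lemma exists_simplex (n : ℕ) : ∃ v : Option (Fin (n + 1)) → EuclideanSpace ℝ (Fin (n + 1)),
    (∀ i j, ⟪v i, v j⟫ = if i = j then 1 else -(1 / ((n : ℝ) + 1))) ∧
    ∀ a : EuclideanSpace ℝ (Fin (n + 1)), a ≠ 0 → ∃ i, 0 < ⟪a, v i⟫ := by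
  have hn : (0 : ℝ) < n + 1 := by positivity
  obtain ⟨α, hα0, hα⟩ : ∃ α : ℝ, 0 < α ∧ α ^ 2 * (n + 1) = n + 2 :=
    ⟨√((n + 2) / (n + 1)), by positivity, by rw [Real.sq_sqrt (by positivity)]; field_simp⟩
  obtain ⟨γ, hγ0, hγ⟩ : ∃ γ : ℝ, 0 < γ ∧ γ ^ 2 * (n + 1) = 1 :=
    ⟨√(1 / (n + 1)), by positivity, by rw [Real.sq_sqrt (by positivity)]; field_simp⟩
  obtain ⟨β, hβ⟩ : ∃ β : ℝ, β * (n + 1) = γ - α := ⟨(γ - α) / (n + 1), by field_simp⟩
  let v : Option (Fin (n + 1)) → EuclideanSpace ℝ (Fin (n + 1)) := fun i =>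
    WithLp.toLp 2 fun k => match i with
      | none => -γ
      | some i => (if k = i then α else 0) + β
  have h0 : ∀ a : EuclideanSpace ℝ (Fin (n + 1)), ⟪a, v none⟫ = -γ * ∑ k, a k := by
    intro a
    simp [v, PiLp.inner_apply, Finset.mul_sum]
  have h1 : ∀ (a : EuclideanSpace ℝ (Fin (n + 1))) i, ⟪a, v (some i)⟫ = α * a i + β * ∑ k, a k := by
    intro a i
    simp [v, PiLp.inner_apply, Finset.mul_sum, add_mul, Finset.sum_add_distrib]
  have s0 : ∑ k, v none k = -γ * (n + 1) := by simp [v]; ring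
  have s1 : ∀ i, ∑ k, v (some i) k = γ := by
    intro i
    simp [v, Finset.sum_add_distrib]
    linarith
  have e1 : -(1 / ((n : ℝ) + 1)) = -γ ^ 2 := by field_simp; linarith
  have e2 : α * β + β * γ = -γ ^ 2 := by
    apply mul_right_cancel₀ hn.ne'
    have : (α * β + β * γ) * (n + 1) = (α + γ) * (β * (n + 1)) := by ring
    rw [this, hβ]
    apply mul_right_cancel₀ hn.ne'
    nlinarith
  have e3 : α ^ 2 = 1 + γ ^ 2 := by
    apply mul_right_cancel₀ hn.ne'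
    nlinarith
  refine ⟨v, ?_, fun a ha => ?_⟩
  · rintro (_ | i) (_ | j)
    · rw [h0, s0, if_pos rfl]
      nlinarith
    · rw [real_inner_comm, h0, s1, if_neg (by simp), e1]
      ring
    · rw [h0, s1, if_neg (by simp), e1]
      ring
    · rw [h1, s1, e1]
      by_cases h : i = j
      · subst h
        simp only [v, if_true]
        nlinarith
      · rw [if_neg (by simpa using h)]
        simp only [v, if_neg (Ne.symm h)]
        nlinarith
  · by_contra hc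
    push Not at hc
    have hS : 0 ≤ ∑ k, a k := by
      have := hc none
      rw [h0] at this
      by_contra h
      push Not at h
      nlinarith
    have hT : ∑ i, ⟪a, v (some i)⟫ = γ * ∑ k, a k := by
      simp only [h1, Finset.sum_add_distrib, ← Finset.mul_sum, Finset.sum_const, card_univ,
        Fintype.card_fin, nsmul_eq_mul]
      push_cast
      linear_combination (∑ k, a k) * hβ
    have hz : ∑ i, ⟪a, v (some i)⟫ = 0 :=
      le_antisymm (Finset.sum_nonpos fun i _ => hc (some i)) (hT ▸ by positivity)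
    have hS0 : ∑ k, a k = 0 := by
      rw [hz] at hT
      exact (mul_eq_zero.1 hT.symm).resolve_left hγ0.ne'
    apply ha
    ext i
    have := (Finset.sum_eq_zero_iff_of_nonpos fun i _ => hc (some i)).1 hz i (mem_univ _)
    rw [h1, hS0, mul_zero, add_zero] at this
    exact (mul_eq_zero.1 this).resolve_left hα0.ne'

variable {ι : Type*} [Fintype ι] [DecidableEq ι]

/-- The weight of the face `σ` for the scores `s` and the widths `δ`. -/
def wt (δ : ℕ → ℝ) (σ : Finset ι) (s : ι → ℝ) : ℝ :=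
  (∏ i ∈ σ, ∏ l, max (δ σ.card - (s l - s i)) 0) *
    ∏ τ ∈ univ.filter fun τ : Finset ι => σ.card < τ.card,
      ∑ i ∈ τ, ∑ l, max (s l - s i - δ τ.card / 2) 0

omit [DecidableEq ι] in
lemma continuous_wt (δ : ℕ → ℝ) (σ : Finset ι) : Continuous (wt δ σ) := by
  unfold wt
  fun_prop

omit [DecidableEq ι] in
lemma wt_nonneg (δ : ℕ → ℝ) (σ : Finset ι) (s : ι → ℝ) : 0 ≤ wt δ σ s := by
  unfold wt
  positivity

variable {δ : ℕ → ℝ} {σ τ : Finset ι} {s s' : ι → ℝ}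

omit [DecidableEq ι] in
lemma wt_in (h : wt δ σ s ≠ 0) {i : ι} (hi : i ∈ σ) (l : ι) : s l - s i < δ σ.card := by
  have h1 := Finset.prod_ne_zero_iff.1
    (Finset.prod_ne_zero_iff.1 (left_ne_zero_of_mul h) i hi) l (mem_univ l)
  by_contra hc
  exact h1 (max_eq_right (by linarith))

lemma wt_out (hδ : ∀ k, 0 < δ k) (hδ' : ∀ k < Fintype.card ι, δ k ≤ δ (k + 1) / 4)
    (h : wt δ σ s ≠ 0) {i j : ι} (hi : i ∈ σ) (hj : j ∉ σ) : δ (σ.card + 1) / 4 < s i - s j := by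
  have hc : (insert j σ).card = σ.card + 1 := card_insert_of_notMem hj
  have hlt : σ.card < Fintype.card ι := by
    have := card_le_univ (insert j σ)
    omega
  have h1 := Finset.prod_ne_zero_iff.1 (right_ne_zero_of_mul h) (insert j σ)
    (by simp [hc])
  obtain ⟨k, hk, h2⟩ := Finset.exists_ne_zero_of_sum_ne_zero h1
  obtain ⟨l, -, h3⟩ := Finset.exists_ne_zero_of_sum_ne_zero h2
  have h4 : δ (σ.card + 1) / 2 < s l - s k := by
    rw [hc] at h3
    by_contra hc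
    exact h3 (max_eq_right (by linarith))
  have h5 := hδ' _ hlt
  have h6 := hδ σ.card
  rcases mem_insert.1 hk with rfl | hk
  · linarith [wt_in h hi l]
  · linarith [wt_in h hk l]

lemma exists_wt [Nonempty ι] (hδ : ∀ k, 0 < δ k) (s : ι → ℝ) :
    ∃ σ : Finset ι, σ.Nonempty ∧ wt δ σ s ≠ 0 := by
  obtain ⟨i₀, -, h₀⟩ := Finset.exists_max_image univ s univ_nonempty
  have m₀ : ({i₀} : Finset ι) ∈ univ.filter fun τ : Finset ι =>
      ∀ i ∈ τ, ∀ l, s l - s i ≤ δ τ.card / 2 := by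
    simp only [mem_filter, mem_univ, true_and, mem_singleton, forall_eq]
    intro l
    linarith [h₀ l (mem_univ l), hδ ({i₀} : Finset ι).card]
  obtain ⟨σ, hσ, hmax⟩ := Finset.exists_max_image _ Finset.card ⟨_, m₀⟩
  refine ⟨σ, card_pos.1 (by simpa using hmax _ m₀), mul_ne_zero ?_ ?_⟩
  · refine Finset.prod_ne_zero_iff.2 fun i hi => Finset.prod_ne_zero_iff.2 fun l _ => ?_
    have := (mem_filter.1 hσ).2 i hi l
    exact (lt_max_of_lt_left (by linarith [hδ σ.card])).ne'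
  · refine Finset.prod_ne_zero_iff.2 fun τ hτ => ?_
    have h1 : ¬ ∀ i ∈ τ, ∀ l, s l - s i ≤ δ τ.card / 2 := fun h =>
      (mem_filter.1 hτ).2.not_ge (hmax τ (mem_filter.2 ⟨mem_univ _, h⟩))
    push Not at h1
    obtain ⟨i, hi, l, hl⟩ := h1
    refine (Finset.sum_pos' (fun _ _ => by positivity) ⟨i, hi, ?_⟩).ne'
    exact Finset.sum_pos' (fun _ _ => by positivity)
      ⟨l, mem_univ _, lt_max_of_lt_left (by linarith)⟩

variable {E : Type*} [NormedAddCommGroup E] [InnerProductSpace ℝ E] {v : ι → E} {κ : ℝ}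

lemma inner_face (hv : ∀ i j, ⟪v i, v j⟫ = if i = j then 1 else -κ)
    (hκ : κ * (Fintype.card ι - 1) = 1) (hκ0 : 0 ≤ κ) (h : σ ⊆ τ) :
    0 ≤ ⟪∑ i ∈ σ, v i, ∑ j ∈ τ, v j⟫ := by
  rw [sum_inner]
  refine Finset.sum_nonneg fun i hi => ?_
  rw [inner_sum, ← Finset.add_sum_erase _ _ (h hi), hv, if_pos rfl,
    Finset.sum_congr rfl (g := fun _ => -κ) fun j hj => by
      rw [hv, if_neg (ne_of_mem_erase hj).symm]]
  rw [Finset.sum_const, card_erase_of_mem (h hi), nsmul_eq_mul,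
    Nat.cast_sub (card_pos.2 ⟨i, h hi⟩)]
  have : (τ.card : ℝ) ≤ Fintype.card ι := by exact_mod_cast card_le_univ τ
  push_cast
  nlinarith

/-- The unnormalized selected point. -/
def sel (δ : ℕ → ℝ) (v : ι → E) (s : ι → ℝ) : E := ∑ σ : Finset ι, wt δ σ s • ∑ i ∈ σ, v i

omit [DecidableEq ι] in
lemma continuous_sel (δ : ℕ → ℝ) (v : ι → E) : Continuous (sel δ v) :=
  continuous_finsetSum _ fun σ _ => (continuous_wt δ σ).smul continuous_const

lemma inner_sel_pos [Nonempty ι] (hδ : ∀ k, 0 < δ k) {a : E}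
    (h : ∀ σ, wt δ σ s ≠ 0 → ∀ i ∈ σ, 0 < ⟪a, v i⟫) : 0 < ⟪a, sel δ v s⟫ := by
  obtain ⟨σ, hσ, hw⟩ := exists_wt hδ s
  have key : ∀ τ : Finset ι, ⟪a, wt δ τ s • ∑ i ∈ τ, v i⟫ = wt δ τ s * ∑ i ∈ τ, ⟪a, v i⟫ :=
    fun τ => by rw [real_inner_smul_right, inner_sum]
  rw [sel, inner_sum]
  refine Finset.sum_pos' (fun τ _ => ?_) ⟨σ, mem_univ _, ?_⟩
  · rw [key]
    by_cases h0 : wt δ τ s = 0
    · rw [h0, zero_mul]
    · exact mul_nonneg (wt_nonneg _ _ _) (Finset.sum_nonneg fun i hi => (h τ h0 i hi).le)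
  · rw [key]
    exact mul_pos ((wt_nonneg _ _ _).lt_of_ne' hw) (Finset.sum_pos (h σ hw) hσ)

omit [DecidableEq ι] in
lemma inner_sel_ge {c : ℝ}
    (h : ∀ σ τ, wt δ σ s ≠ 0 → wt δ τ s' ≠ 0 →
      c * ((if σ.card = 1 then 1 else 0) * if τ.card = 1 then 1 else 0) ≤
        ⟪∑ i ∈ σ, v i, ∑ j ∈ τ, v j⟫) :
    c * ((∑ σ : Finset ι, wt δ σ s * if σ.card = 1 then 1 else 0) *
      ∑ σ : Finset ι, wt δ σ s' * if σ.card = 1 then 1 else 0) ≤ ⟪sel δ v s, sel δ v s'⟫ := by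
  rw [sel, sel, sum_inner, Finset.sum_mul, Finset.mul_sum]
  refine Finset.sum_le_sum fun σ _ => ?_
  rw [inner_sum, Finset.mul_sum, Finset.mul_sum]
  refine Finset.sum_le_sum fun τ _ => ?_
  rw [real_inner_smul_left, real_inner_smul_right]
  by_cases h1 : wt δ σ s = 0
  · simp [h1]
  by_cases h2 : wt δ τ s' = 0
  · simp [h2]
  have := mul_le_mul_of_nonneg_left (h σ τ h1 h2) (mul_nonneg (wt_nonneg δ σ s) (wt_nonneg δ τ s'))
  linarith

lemma sep (hδ : ∀ k, 0 < δ k) (hδ' : ∀ k < Fintype.card ι, δ k ≤ δ (k + 1) / 4)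
    (h : wt δ σ s ≠ 0) (h' : wt δ τ s' ≠ 0) (h1 : ¬ σ ⊆ τ) (h2 : ¬ τ ⊆ σ) :
    ∃ i j, δ (σ.card + 1) / 4 + δ (τ.card + 1) / 4 < (s i - s j) - (s' i - s' j) := by
  obtain ⟨i, hi, hi'⟩ := not_subset.1 h1
  obtain ⟨j, hj, hj'⟩ := not_subset.1 h2
  exact ⟨i, j, by linarith [wt_out hδ hδ' h hi hj', wt_out hδ hδ' h' hj hi']⟩

lemma single_le (hv : ∀ i j, ⟪v i, v j⟫ = if i = j then 1 else -κ)
    (hκ : κ * (Fintype.card ι - 1) = 1) (hκ0 : 0 ≤ κ) (hδ : ∀ k, 0 < δ k)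
    (hδ' : ∀ k < Fintype.card ι, δ k ≤ δ (k + 1) / 4) (s : ι → ℝ) :
    (∑ σ : Finset ι, wt δ σ s * if σ.card = 1 then 1 else 0) ≤ ‖sel δ v s‖ := by
  refine le_of_sq_le_sq ?_ (norm_nonneg _)
  rw [← real_inner_self_eq_norm_sq, sq, ← one_mul (_ * _)]
  refine inner_sel_ge fun σ τ h h' => ?_
  have hc : σ ⊆ τ ∨ τ ⊆ σ := by
    by_contra hc
    push Not at hc
    obtain ⟨i, j, hij⟩ := sep hδ hδ' h h' hc.1 hc.2
    linarith [hδ (σ.card + 1), hδ (τ.card + 1)]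
  have h0 : 0 ≤ ⟪∑ i ∈ σ, v i, ∑ j ∈ τ, v j⟫ := by
    rcases hc with hc | hc
    · exact inner_face hv hκ hκ0 hc
    · rw [real_inner_comm]
      exact inner_face hv hκ hκ0 hc
  split_ifs with h1 h2 h2
  · obtain ⟨i, rfl⟩ := card_eq_one.1 h1
    obtain ⟨j, rfl⟩ := card_eq_one.1 h2
    have : i = j := by simpa [eq_comm] using hc
    rw [sum_singleton, sum_singleton, hv, if_pos this]
    norm_num
  all_goals simpa using h0

/-- Either the two selected points make an angle at most that of two vertices, or one of the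
score vectors is close to a tie while the two score vectors are comparatively far apart. -/
lemma dichotomy (hv : ∀ i j, ⟪v i, v j⟫ = if i = j then 1 else -κ)
    (hκ : κ * (Fintype.card ι - 1) = 1) (hκ0 : 0 ≤ κ) (hδ : ∀ k, 0 < δ k)
    (hδ' : ∀ k < Fintype.card ι, δ k ≤ δ (k + 1) / 4) (s s' : ι → ℝ) :
    -κ * (‖sel δ v s‖ * ‖sel δ v s'‖) ≤ ⟪sel δ v s, sel δ v s'⟫ ∨
      ∃ k < Fintype.card ι, ((∃ i j, i ≠ j ∧ |s i - s j| < δ k) ∨
        ∃ i j, i ≠ j ∧ |s' i - s' j| < δ k) ∧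
        ∃ i j, δ (k + 1) / 4 < (s i - s j) - (s' i - s' j) := by
  rw [or_iff_not_imp_right]
  intro hno
  have tie : ∀ {σ : Finset ι} {s : ι → ℝ}, wt δ σ s ≠ 0 → 1 < σ.card →
      ∃ i j, i ≠ j ∧ |s i - s j| < δ σ.card := fun h h1 => by
    obtain ⟨i, hi, j, hj, hij⟩ := one_lt_card.1 h1
    exact ⟨i, j, hij, abs_sub_lt_iff.2 ⟨wt_in h hj i, wt_in h hi j⟩⟩
  have lt : ∀ {σ τ : Finset ι}, ¬ τ ⊆ σ → σ.card < Fintype.card ι := fun h =>
    (card_lt_iff_ne_univ _).2 fun h' => h (h' ▸ subset_univ _)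
  refine le_trans ?_ (inner_sel_ge (c := -κ) fun σ τ h h' => ?_)
  · rw [neg_mul, neg_mul, neg_le_neg_iff]
    refine mul_le_mul_of_nonneg_left (mul_le_mul (single_le hv hκ hκ0 hδ hδ' s)
      (single_le hv hκ hκ0 hδ hδ' s') ?_ (norm_nonneg _)) hκ0
    exact Finset.sum_nonneg fun σ _ => mul_nonneg (wt_nonneg _ _ _) (by positivity)
  have hle : -κ * ((if σ.card = 1 then 1 else 0) * if τ.card = 1 then 1 else 0) ≤ 0 := by
    rw [neg_mul, neg_nonpos]
    positivity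
  by_cases h1 : σ ⊆ τ
  · exact hle.trans (inner_face hv hκ hκ0 h1)
  by_cases h2 : τ ⊆ σ
  · rw [real_inner_comm]
    exact hle.trans (inner_face hv hκ hκ0 h2)
  obtain ⟨i, j, hij⟩ := sep hδ hδ' h h' h1 h2
  have c1 : σ.card = 1 := by
    by_contra hc
    have : σ.card ≠ 0 := fun h0 => h1 (card_eq_zero.1 h0 ▸ empty_subset _)
    exact hno ⟨_, lt h2, Or.inl (tie h (by omega)), i, j, by linarith [hδ (τ.card + 1)]⟩
  have c2 : τ.card = 1 := by
    by_contra hc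
    have : τ.card ≠ 0 := fun h0 => h2 (card_eq_zero.1 h0 ▸ empty_subset _)
    exact hno ⟨_, lt h1, Or.inr (tie h' (by omega)), i, j, by linarith [hδ (σ.card + 1)]⟩
  obtain ⟨a, rfl⟩ := card_eq_one.1 c1
  obtain ⟨b, rfl⟩ := card_eq_one.1 c2
  have : a ≠ b := by simpa using h1
  simp [hv, this]

end Pool.Agent.MP_9fca84_an.H66
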