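import Pool.Agent.MP_9fca84_an.H66.Hopf

/-!
Algebra of the wedge product in top degree and Stokes' formula for compact support.
-/

open scoped ContDiff
open MeasureTheory Metric Equiv ContinuousAlternatingMap

noncomputable section

namespace Pool.Agent.MP_9fca84_an.H66

variable {n : ℕ}

lemma norm_bas (i : Fin n ⊕ Fin n) : ‖bas n i‖ = 1 := by simp [bas]

/-- The wedge product as a continuous bilinear map. -/
def wedgeL (n : ℕ) : Fm (n + n) n →L[ℝ] Fm (n + n) n →L[ℝ] ℝ :=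
  ((n.factorial * n.factorial : ℕ) : ℝ)⁻¹ • ∑ σ : Perm (Fin n ⊕ Fin n),
    ((Perm.sign σ : ℤ) : ℝ) • (ContinuousLinearMap.mul ℝ ℝ).bilinearComp
      (ContinuousAlternatingMap.apply ℝ _ _ fun i => bas n (σ (.inl i)))
      (ContinuousAlternatingMap.apply ℝ _ _ fun i => bas n (σ (.inr i)))

lemma wedgeL_apply (a b : Fm (n + n) n) : wedgeL n a b = wedge a b := by
  simp [wedgeL, wedge]

lemma wedge_comm (a b : Fm (n + n) n) :
    wedge b a = ((Perm.sign (Equiv.sumComm (Fin n) (Fin n)) : ℤ) : ℝ) * wedge a b := by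
  unfold wedge
  rw [mul_left_comm, Finset.mul_sum _ _ ((Perm.sign (Equiv.sumComm (Fin n) (Fin n)) : ℤ) : ℝ),
    ← Equiv.sum_comp (Equiv.mulRight (Equiv.sumComm (Fin n) (Fin n)))]
  congr 1
  refine Finset.sum_congr rfl fun σ _ => ?_
  simp only [coe_mulRight, Perm.sign_mul, Units.val_mul, Int.cast_mul, Perm.mul_apply,
    sumComm_apply, Sum.swap_inl, Sum.swap_inr]
  ring

lemma wedge_pull {V : Type} [NormedAddCommGroup V] [NormedSpace ℝ V] [FiniteDimensional ℝ V]
    (hV : Module.finrank ℝ V < n + n) (a b : V [⋀^Fin n]→L[ℝ] ℝ) (L : E (n + n) →L[ℝ] V) :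
    wedge (a.compContinuousLinearMap L) (b.compContinuousLinearMap L) = 0 := by
  have h := (MultilinearMap.alternatization ((LinearMap.mul' ℝ ℝ).compMultilinearMap
    (a.toAlternatingMap.toMultilinearMap.domCoprod b.toAlternatingMap.toMultilinearMap))
    ).map_linearDependent (fun i => L (bas n i)) fun h => by
      have := h.fintype_card_le_finrank
      simp at this
      omega
  rw [MultilinearMap.alternatization_apply] at h
  unfold wedge
  rw [← h.symm.trans (Finset.sum_congr rfl fun σ _ => ?_), mul_zero]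
  simp [Units.smul_def, MultilinearMap.domCoprod, MultilinearMap.domCoprodDep, Function.comp_def]

lemma alt_sum {ι V : Type} [Fintype ι] [DecidableEq ι] [NormedAddCommGroup V] [NormedSpace ℝ V]
    {q : ℕ} (j : Fin (q + 1) ↪ ι) (D : V →L[ℝ] V [⋀^Fin q]→L[ℝ] ℝ) (e : ι → V) (Ψ : Perm ι → ℝ)
    (hΨ : ∀ σ τ : Perm ι, (∀ i, i ∉ Set.range j → τ i = i) → Ψ (σ * τ) = Ψ σ) :
    ∑ σ : Perm ι, ((Perm.sign σ : ℤ) : ℝ) * (alternatizeUncurryFin D (fun i => e (σ (j i))) * Ψ σ) =
      (q + 1) * ∑ σ : Perm ι, ((Perm.sign σ : ℤ) : ℝ) *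
        (D (e (σ (j 0))) (fun i => e (σ (j i.succ))) * Ψ σ) := by
  simp only [alternatizeUncurryFin_apply, Finset.sum_mul, Finset.mul_sum _ _ (_ : ℝ)]
  rw [Finset.sum_comm, ← Finset.mul_sum, Finset.sum_congr rfl fun i _ => ?_, Finset.sum_const,
    Finset.card_univ, Fintype.card_fin, nsmul_eq_mul, Nat.cast_succ]
  rw [← Equiv.sum_comp (Equiv.mulRight (Perm.viaFintypeEmbedding i.cycleRange.symm j))
    fun σ : Perm ι => ((Perm.sign σ : ℤ) : ℝ) * (D (e (σ (j 0))) (fun i => e (σ (j i.succ))) * Ψ σ)]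
  refine Finset.sum_congr rfl fun σ _ => ?_
  simp only [coe_mulRight, Perm.sign_mul, Perm.viaFintypeEmbedding_sign, Perm.sign_symm,
    Fin.sign_cycleRange, Perm.mul_apply, Perm.viaFintypeEmbedding_apply_image,
    Fin.cycleRange_symm_zero, Fin.cycleRange_symm_succ,
    hΨ σ _ fun _ => Perm.viaFintypeEmbedding_apply_notMem_range _ _]
  simp only [Units.val_mul, Int.cast_mul, Units.val_pow_eq_pow_val, Units.val_neg, Units.val_one,
    Int.cast_pow, Int.cast_neg, Int.cast_one, zsmul_eq_mul]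
  rw [show i.removeNth (fun i => e (σ (j i))) = fun l => e (σ (j (i.succAbove l))) from rfl]
  ring

theorem stokes {p : ℕ} {π : E (p + 1 + (p + 1)) → Fm (p + 1 + (p + 1)) p}
    {γ : E (p + 1 + (p + 1)) → Fm (p + 1 + (p + 1)) (p + 1)} (hπ : ContDiff ℝ ∞ π)
    (hc : HasCompactSupport π) (hγ : ContDiff ℝ ∞ γ) (h0 : extDeriv γ = 0) :
    ∫ x, wedge (extDeriv π x) (γ x) = 0 := by
  let j₁ : Fin (p + 1) ↪ Fin (p + 1) ⊕ Fin (p + 1) := ⟨Sum.inl, Sum.inl_injective⟩
  let j₂ : Fin (p + 1 + 1) ↪ Fin (p + 1) ⊕ Fin (p + 1) :=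
    ⟨Fin.cons (.inl 0) Sum.inr, Fin.cons_injective_iff.2 ⟨by simp, Sum.inr_injective⟩⟩
  let P : Perm (Fin (p + 1) ⊕ Fin (p + 1)) → E (p + 1 + (p + 1)) → ℝ := fun σ x =>
    π x fun i => bas _ (σ (.inl i.succ))
  let Q : Perm (Fin (p + 1) ⊕ Fin (p + 1)) → E (p + 1 + (p + 1)) → ℝ := fun σ x =>
    γ x fun i => bas _ (σ (.inr i))
  have hP : ∀ σ, ContDiff ℝ ∞ (P σ) := fun σ =>
    (ContinuousAlternatingMap.apply ℝ _ ℝ fun i : Fin p => bas _ (σ (.inl i.succ))).contDiff.comp hπ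
  have hQ : ∀ σ, ContDiff ℝ ∞ (Q σ) := fun σ =>
    (ContinuousAlternatingMap.apply ℝ _ ℝ fun i => bas _ (σ (.inr i))).contDiff.comp hγ
  have hPc : ∀ σ, HasCompactSupport (P σ) := fun σ =>
    hc.comp_left (g := fun a : Fm (p + 1 + (p + 1)) p => a fun i => bas _ (σ (.inl i.succ))) rfl
  have dP : ∀ σ x v, fderiv ℝ (P σ) x v = fderiv ℝ π x v fun i => bas _ (σ (.inl i.succ)) :=
    fun σ x v => fderiv_continuousAlternatingMap_apply_const_apply
      (hπ.differentiable (by simp) x) _ _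
  have dQ : ∀ σ x v, fderiv ℝ (Q σ) x v = fderiv ℝ γ x v fun i => bas _ (σ (.inr i)) :=
    fun σ x v => fderiv_continuousAlternatingMap_apply_const_apply
      (hγ.differentiable (by simp) x) _ _
  have i1 : ∀ σ v, Integrable fun x => fderiv ℝ (P σ) x v * Q σ x := fun σ v =>
    ((((hP σ).continuous_fderiv (by simp)).clm_apply continuous_const).mul
      (hQ σ).continuous).integrable_of_hasCompactSupport ((hPc σ).fderiv_apply ℝ v).mul_right
  have i2 : ∀ σ v, Integrable fun x => P σ x * fderiv ℝ (Q σ) x v := fun σ v =>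
    ((hP σ).continuous.mul (((hQ σ).continuous_fderiv (by simp)).clm_apply
      continuous_const)).integrable_of_hasCompactSupport (hPc σ).mul_right
  have e1 : ∀ x, wedge (extDeriv π x) (γ x) = (((p + 1).factorial * (p + 1).factorial : ℕ) : ℝ)⁻¹ *
      ((p + 1) * ∑ σ : Perm (Fin (p + 1) ⊕ Fin (p + 1)), ((Perm.sign σ : ℤ) : ℝ) *
        (fderiv ℝ (P σ) x (bas _ (σ (.inl 0))) * Q σ x)) := fun x => by
    simp only [dP]
    unfold wedge
    congr 1
    refine alt_sum j₁ (fderiv ℝ π x) (bas _) (fun σ => Q σ x) fun σ τ h => ?_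
    simp only [Q, Perm.mul_apply]
    congr 1
    funext i
    rw [h (.inr i) (by simp [j₁])]
  have e2 : ∀ x, ∑ σ : Perm (Fin (p + 1) ⊕ Fin (p + 1)), ((Perm.sign σ : ℤ) : ℝ) *
      (P σ x * fderiv ℝ (Q σ) x (bas _ (σ (.inl 0)))) = 0 := fun x => by
    have h := alt_sum j₂ (fderiv ℝ γ x) (bas _) (fun σ => P σ x) fun σ τ h => by
      simp only [P, Perm.mul_apply]
      congr 1
      funext i
      rw [h (.inl i.succ) (by simp [j₂])]
    rw [show alternatizeUncurryFin (fderiv ℝ γ x) = 0 from congrFun h0 x] at h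
    simp only [ContinuousAlternatingMap.coe_zero, Pi.zero_apply, zero_mul, mul_zero,
      Finset.sum_const_zero] at h
    have h2 := (mul_eq_zero.1 h.symm).resolve_left (by positivity)
    rw [← h2]
    refine Finset.sum_congr rfl fun σ _ => ?_
    rw [dQ, mul_comm (P σ x)]
    rfl
  have e3 := integral_finsetSum (μ := volume) Finset.univ fun σ _ =>
    (i2 σ (bas _ (σ (.inl 0)))).const_mul ((Perm.sign σ : ℤ) : ℝ)
  simp only [e2, integral_zero] at e3
  simp only [e1]
  rw [integral_const_mul, integral_const_mul,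
    integral_finsetSum _ fun σ _ => (i1 σ _).const_mul _, ← neg_eq_zero, ← mul_neg, ← mul_neg,
    ← Finset.sum_neg_distrib, ← e3.trans (Finset.sum_congr rfl fun σ _ => ?_), mul_zero, mul_zero]
  rw [integral_const_mul, integral_const_mul, ← mul_neg,
    integral_mul_fderiv_eq_neg_fderiv_mul_of_integrable (i1 σ _) (i2 σ _)
      (((hP σ).continuous.mul (hQ σ).continuous).integrable_of_hasCompactSupport
        (hPc σ).mul_right)
      (fun x _ => (hP σ).differentiable (by simp) x) fun x _ => (hQ σ).differentiable (by simp) x]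

end Pool.Agent.MP_9fca84_an.H66
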